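import Pool.Agent.W2helper50.Kleene

set_option autoImplicit false

/-! The tree of approximations to isomorphisms between two computable structures. -/

namespace Pool.Agent.W2helper50

open Nat.Partrec (Code)
open Pool.Agent.Helper743 (RecT TR pre cert)

lemma exists_codeS {D : ℕ → List ℕ → Bool} (hD : Computable₂ D) :
    ∃ c : Code, ∀ i xs, Code.eval c (Encodable.encode ((i, xs) : ℕ × List ℕ)) =
      Part.some (Encodable.encode (D i xs)) := by
  have hDc : Computable (fun p : ℕ × List ℕ => D p.1 p.2) := hD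
  have h1 : Primrec (fun n : ℕ => (Encodable.decode (α := ℕ × List ℕ) n).getD (0, [])) :=
    pr_oGetD (pr_decode Primrec.id) (Primrec.const _)
  have h2 := hDc.comp h1.to_comp
  have h3 := Computable.encode.comp h2
  obtain ⟨c, hc⟩ := Code.exists_code.1 (Partrec.nat_iff.1 h3)
  refine ⟨c, fun i xs => ?_⟩
  rw [hc]
  simp

def pv (q : List ℕ) (i : ℕ) : ℕ := q.reverse.getD i 0

lemma pv_lst {p : ℕ → ℕ} {k i : ℕ} (h : i < k) : pv (lst p k) i = p i := by
  unfold pv
  rw [lst_eq, ← List.map_reverse, List.reverse_reverse]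
  simp [List.getD_eq_getElem?_getD, h]

/-- argument coded by the length of the string -/
def arg (q : List ℕ) : ℕ × List ℕ :=
  (Encodable.decode (α := ℕ × List ℕ) q.length.unpair.2).getD (0, [])

/-- test of a finite approximation -/
def tokP (c c' : Code) (q : List ℕ) : Prop :=
  (2 * q.length.unpair.2 < q.length → 2 * pv q (2 * q.length.unpair.2) + 1 < q.length →
    pv q (2 * pv q (2 * q.length.unpair.2) + 1) = q.length.unpair.2) ∧
  (2 * q.length.unpair.2 + 1 < q.length → 2 * pv q (2 * q.length.unpair.2 + 1) < q.length →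
    pv q (2 * pv q (2 * q.length.unpair.2 + 1)) = q.length.unpair.2) ∧
  ((∀ x ∈ (arg q).2, 2 * x < q.length) →
    (Code.evaln q.length.unpair.1 c (Encodable.encode (arg q))).isSome = true →
    (Code.evaln q.length.unpair.1 c' (Encodable.encode
      (((arg q).1, (arg q).2.map (fun x => pv q (2 * x))) : ℕ × List ℕ))).isSome = true →
    Code.evaln q.length.unpair.1 c (Encodable.encode (arg q)) =
      Code.evaln q.length.unpair.1 c' (Encodable.encode
      (((arg q).1, (arg q).2.map (fun x => pv q (2 * x))) : ℕ × List ℕ)))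

instance (c c' : Code) (q : List ℕ) : Decidable (tokP c c' q) := by unfold tokP; infer_instance

def Tok (c c' : Code) (q : List ℕ) : Bool := decide (tokP c c' q)

lemma pr_pv {α : Type} [Primcodable α] {q : α → List ℕ} {i : α → ℕ} (hq : Primrec q)
    (hi : Primrec i) : Primrec fun a => pv (q a) (i a) := by
  unfold pv
  exact pr_getD 0 (Primrec.list_reverse.comp hq) hi

lemma pr_mul {α : Type} [Primcodable α] {f g : α → ℕ} (hf : Primrec f) (hg : Primrec g) :
    Primrec fun a => f a * g a := Primrec.nat_mul.comp hf hg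

lemma pr_Tok (c c' : Code) : Primrec (Tok c c') := by
  unfold Tok
  have hq : Primrec (fun q : List ℕ => q) := Primrec.id
  have hl : Primrec (fun q : List ℕ => q.length) := pr_len hq
  have ht : Primrec (fun q : List ℕ => q.length.unpair.1) := Primrec.fst.comp (Primrec.unpair.comp hl)
  have hz : Primrec (fun q : List ℕ => q.length.unpair.2) := Primrec.snd.comp (Primrec.unpair.comp hl)
  have h2z : Primrec (fun q : List ℕ => 2 * q.length.unpair.2) := pr_mul (Primrec.const 2) hz
  have harg : Primrec (fun q : List ℕ => arg q) := by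
    unfold arg
    exact pr_oGetD (pr_decode hz) (Primrec.const _)
  have hmap : Primrec (fun q : List ℕ => (arg q).2.map (fun x => pv q (2 * x))) :=
    pr_map (g := fun q x => pv q (2 * x)) (Primrec.snd.comp harg)
      (pr_pv Primrec.fst (pr_mul (Primrec.const 2) Primrec.snd))
  have he1 : Primrec (fun q : List ℕ => Code.evaln q.length.unpair.1 c (Encodable.encode (arg q))) :=
    pr_evaln ht (Primrec.const c) (pr_encode harg)
  have he2 : Primrec (fun q : List ℕ => Code.evaln q.length.unpair.1 c' (Encodable.encode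
      (((arg q).1, (arg q).2.map (fun x => pv q (2 * x))) : ℕ × List ℕ))) :=
    pr_evaln ht (Primrec.const c') (pr_encode ((Primrec.fst.comp harg).pair hmap))
  have h : PrimrecPred (fun q : List ℕ => tokP c c' q) := by
    unfold tokP
    have a1 : Primrec (fun q : List ℕ => 2 * pv q (2 * q.length.unpair.2) + 1) :=
      pr_succ (pr_mul (Primrec.const 2) (pr_pv hq h2z))
    have a2 : Primrec (fun q : List ℕ => 2 * pv q (2 * q.length.unpair.2 + 1)) :=
      pr_mul (Primrec.const 2) (pr_pv hq (pr_succ h2z))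
    refine pr_and (pr_imp (pr_lt h2z hl) (pr_imp (pr_lt a1 hl) (pr_eq (pr_pv hq a1) hz)))
      (pr_and (pr_imp (pr_lt (pr_succ h2z) hl) (pr_imp (pr_lt a2 hl) (pr_eq (pr_pv hq a2) hz))) ?_)
    refine pr_imp ?_ (pr_imp (pr_isSome he1) (pr_imp (pr_isSome he2) (pr_eq he1 he2)))
    exact pr_forall (p := fun q x => 2 * x < q.length) (Primrec.snd.comp harg)
      (pr_lt (pr_mul (Primrec.const 2) Primrec.snd) (hl.comp Primrec.fst))
  exact h.decide

variable {D E : ℕ → List ℕ → Bool} {c c' : Code}

/-- a path of the tree gives an isomorphism -/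
lemma iso_of_path (hc : ∀ i xs, Code.eval c (Encodable.encode ((i, xs) : ℕ × List ℕ)) =
      Part.some (Encodable.encode (D i xs)))
    (hc' : ∀ i xs, Code.eval c' (Encodable.encode ((i, xs) : ℕ × List ℕ)) =
      Part.some (Encodable.encode (E i xs))) {p : ℕ → ℕ}
    (hp : ∀ k, 0 < k → Tok c c' (lst p k) = true) :
    Function.Bijective (fun a => p (2*a)) ∧ ∀ i xs, D i xs = E i (xs.map (fun a => p (2*a))) := by
  have hp' : ∀ k, 0 < k → tokP c c' (lst p k) := fun k hk => by simpa [Tok] using hp k hk
  have h1 : ∀ z, p (2 * p (2*z) + 1) = z := by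
    intro z
    let t := 2*z + 2 * p (2*z) + 2
    have hk : t ≤ Nat.pair t z := Nat.left_le_pair t z
    obtain ⟨h1, -, -⟩ := hp' (Nat.pair t z) (by omega)
    simp only [lst_length, Nat.unpair_pair] at h1
    rw [pv_lst (show 2 * z < Nat.pair t z by omega)] at h1
    have h2 := h1 (by omega) (by omega)
    rw [pv_lst (by omega)] at h2
    exact h2
  have h2 : ∀ z, p (2 * p (2*z+1)) = z := by
    intro z
    let t := 2*z + 2 * p (2*z+1) + 2
    have hk : t ≤ Nat.pair t z := Nat.left_le_pair t z
    obtain ⟨-, h1, -⟩ := hp' (Nat.pair t z) (by omega)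
    simp only [lst_length, Nat.unpair_pair] at h1
    rw [pv_lst (show 2 * z + 1 < Nat.pair t z by omega)] at h1
    have h2 := h1 (by omega) (by omega)
    rw [pv_lst (by omega)] at h2
    exact h2
  refine ⟨?_, ?_⟩
  · refine Function.bijective_iff_has_inverse.2 ⟨fun b => p (2*b+1), ?_, ?_⟩
    · intro a; exact h1 a
    · intro b; exact h2 b
  · intro i xs
    have e1 : Encodable.encode (D i xs) ∈ Code.eval c (Encodable.encode ((i, xs) : ℕ × List ℕ)) := by
      rw [hc]; exact Part.mem_some _
    have e2 : Encodable.encode (E i (xs.map (fun a => p (2*a)))) ∈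
        Code.eval c' (Encodable.encode ((i, xs.map (fun a => p (2*a))) : ℕ × List ℕ)) := by
      rw [hc']; exact Part.mem_some _
    obtain ⟨t1, ht1⟩ := Code.evaln_complete.1 e1
    obtain ⟨t2, ht2⟩ := Code.evaln_complete.1 e2
    let t := t1 + t2 + 2 * xs.sum + 1
    let z := Encodable.encode ((i, xs) : ℕ × List ℕ)
    have hk : t ≤ Nat.pair t z := Nat.left_le_pair t z
    obtain ⟨-, -, h3⟩ := hp' (Nat.pair t z) (by omega)
    have harg : arg (lst p (Nat.pair t z)) = (i, xs) := by
      unfold arg
      rw [lst_length, Nat.unpair_pair]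
      simp only [z]
      rw [Encodable.encodek]; rfl
    have hx : ∀ x ∈ xs, 2 * x < Nat.pair t z := by
      intro x hx
      have := List.single_le_sum (fun y _ => Nat.zero_le y) x hx
      omega
    have hmap : xs.map (fun x => pv (lst p (Nat.pair t z)) (2 * x)) = xs.map (fun a => p (2*a)) := by
      apply List.map_congr_left
      intro x hx'
      exact pv_lst (hx x hx')
    rw [harg] at h3
    simp only [lst_length, Nat.unpair_pair] at h3
    rw [hmap] at h3
    have g1 : Code.evaln t c (Encodable.encode ((i, xs) : ℕ × List ℕ)) =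
        some (Encodable.encode (D i xs)) := Code.evaln_mono (by omega) ht1
    have g2 : Code.evaln t c' (Encodable.encode ((i, xs.map (fun a => p (2*a))) : ℕ × List ℕ)) =
        some (Encodable.encode (E i (xs.map (fun a => p (2*a))))) := Code.evaln_mono (by omega) ht2
    have h4 := h3 hx (by rw [g1]; rfl) (by rw [g2]; rfl)
    rw [g1, g2, Option.some_inj] at h4
    exact Encodable.encode_injective h4

/-- the path given by an isomorphism and its inverse -/
def pof (h g : ℕ → ℕ) (n : ℕ) : ℕ := if n % 2 = 0 then h (n/2) else g (n/2)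

lemma pof_even (h g : ℕ → ℕ) (a : ℕ) : pof h g (2*a) = h a := by
  unfold pof; rw [if_pos (by omega)]; congr 1; omega

lemma pof_odd (h g : ℕ → ℕ) (a : ℕ) : pof h g (2*a+1) = g a := by
  unfold pof; rw [if_neg (by omega)]; congr 1; omega

lemma path_of_iso (hc : ∀ i xs, Code.eval c (Encodable.encode ((i, xs) : ℕ × List ℕ)) =
      Part.some (Encodable.encode (D i xs)))
    (hc' : ∀ i xs, Code.eval c' (Encodable.encode ((i, xs) : ℕ × List ℕ)) =
      Part.some (Encodable.encode (E i xs))) {h g : ℕ → ℕ} (h1 : ∀ a, g (h a) = a)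
    (h2 : ∀ b, h (g b) = b) (h3 : ∀ i xs, D i xs = E i (xs.map h)) (k : ℕ) :
    Tok c c' (lst (pof h g) k) = true := by
  unfold Tok
  rw [decide_eq_true_eq]
  unfold tokP
  simp only [lst_length]
  refine ⟨?_, ?_, ?_⟩
  · intro a1 a2
    rw [pv_lst a1] at a2 ⊢
    rw [pv_lst a2, pof_even, pof_odd, h1]
  · intro a1 a2
    rw [pv_lst a1] at a2 ⊢
    rw [pv_lst a2, pof_odd, pof_even, h2]
  · intro a1 a2 a3
    generalize arg (lst (pof h g) k) = A at a1 a2 a3 ⊢
    obtain ⟨i, xs⟩ := A
    simp only at a1 a2 a3 ⊢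
    have hmap : xs.map (fun x => pv (lst (pof h g) k) (2 * x)) = xs.map h := by
      apply List.map_congr_left
      intro x hx
      rw [pv_lst (a1 x hx), pof_even]
    rw [hmap] at a3 ⊢
    obtain ⟨u, hu⟩ := Option.isSome_iff_exists.1 a2
    obtain ⟨u', hu'⟩ := Option.isSome_iff_exists.1 a3
    rw [hu, hu']
    have b1 : u ∈ Code.eval c (Encodable.encode ((i, xs) : ℕ × List ℕ)) := Code.evaln_sound hu
    have b2 : u' ∈ Code.eval c' (Encodable.encode ((i, xs.map h) : ℕ × List ℕ)) := Code.evaln_sound hu'
    rw [hc, Part.mem_some_iff] at b1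
    rw [hc', Part.mem_some_iff] at b2
    rw [b1, b2, h3]

lemma pof_TR {h g : ℕ → ℕ} (h1 : ∀ a, g (h a) = a) (h2 : ∀ b, h (g b) = b) : TR (pof h g) h := by
  refine cert (TR.refl h) (fun σ x w => if w < σ.length then
    (if x % 2 = 0 then (if w = x/2 then some (σ.getD w 0) else none) else
      (if σ.getD w 0 = x/2 then some w else none)) else none) ?_ _ ?_ ?_
  · have hx : Primrec (fun q : (List ℕ × ℕ) × ℕ => q.1.2) := Primrec.snd.comp Primrec.fst
    have hσ : Primrec (fun q : (List ℕ × ℕ) × ℕ => q.1.1) := Primrec.fst.comp Primrec.fst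
    have hw : Primrec (fun q : (List ℕ × ℕ) × ℕ => q.2) := Primrec.snd
    have hd := Primrec.nat_div.comp hx (Primrec.const 2)
    have h1 : Primrec (fun q : (List ℕ × ℕ) × ℕ => if q.2 < q.1.1.length then
      (if q.1.2 % 2 = 0 then (if q.2 = q.1.2/2 then some (q.1.1.getD q.2 0) else none) else
      (if q.1.1.getD q.2 0 = q.1.2/2 then some q.2 else none)) else none) := by
      refine pr_ite (pr_lt hw (pr_len hσ)) (pr_ite (pr_eq (Primrec.nat_mod.comp hx (Primrec.const 2))
        (Primrec.const 0)) (pr_ite (pr_eq hw hd) (Primrec.option_some.comp (pr_getD 0 hσ hw))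
        (Primrec.const none)) (pr_ite (pr_eq (pr_getD 0 hσ hw) hd) (Primrec.option_some.comp hw)
        (Primrec.const none))) (Primrec.const none)
    exact h1.to_comp
  · intro x
    have hget : ∀ n i, i < n → (pre h n).getD i 0 = h i := by
      intro n i hi
      simp [pre, List.getD_eq_getElem?_getD, hi]
    by_cases hx : x % 2 = 0
    · refine ⟨x/2+1, x/2, ?_⟩
      rw [if_pos (by simp), if_pos hx, if_pos rfl]; rfl
    · refine ⟨g (x/2)+1, g (x/2), ?_⟩
      rw [if_pos (by simp), if_neg hx, hget _ _ (by omega), if_pos (h2 _)]; rfl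
  · intro x n w y hy
    have hget : ∀ i, i < n → (pre h n).getD i 0 = h i := by
      intro i hi
      simp [pre, List.getD_eq_getElem?_getD, hi]
    split_ifs at hy with a1 a2 a3 a4
    · rw [Option.some_inj] at hy
      rw [← hy, hget w (by simpa using a1)]
      unfold pof
      rw [if_pos a2, a3]
    · rw [Option.some_inj] at hy
      rw [hget w (by simpa using a1)] at a4
      unfold pof
      rw [if_neg a2, ← a4, h1, hy]

end Pool.Agent.W2helper50
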