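import Pool.Agent.W2helper50.Noiso
import Pool.Agent.Helper743.Oracle

set_option autoImplicit false

/-! Every computable copy of the first structure is isomorphic to it by a map computable
from any path. -/

namespace Pool.Agent.W2helper50

open Nat.Partrec (Code)
open Pool.Agent.Helper743 (RecT TR pre cert)

variable {ok : List ℕ → Bool}

lemma comp_map {β σ : Type} [Primcodable β] [Primcodable σ] {f : β → σ} (hf : Computable f) :
    Computable (fun l : List β => l.map f) := by
  have key : ∀ (l : List β), l.map f = Nat.rec [] (fun i acc => acc ++ ((l[i]?).map f).toList) l.length := by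
    intro l
    have : ∀ n ≤ l.length, (Nat.rec [] (fun i acc => acc ++ ((l[i]?).map f).toList) n : List σ) =
        (l.take n).map f := by
      intro n hn
      induction n with
      | zero => simp
      | succ n ih =>
        simp only [ih (by omega)]
        rw [List.take_add_one, List.map_append]
        congr 1
        cases l[n]? <;> simp
    rw [this _ le_rfl, List.take_length]
  have h : Computable (fun l : List β =>
      (Nat.rec [] (fun i acc => acc ++ ((l[i]?).map f).toList) l.length : List σ)) := by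
    refine Computable.nat_rec (f := fun l : List β => l.length) (g := fun _ => ([] : List σ))
      (h := fun l p => p.2 ++ ((l[p.1]?).map f).toList) Computable.list_length (Computable.const _) ?_
    have h1 : Computable (fun q : List β × ℕ × List σ => (q.1[q.2.1]?).map f) :=
      Computable.option_map (Computable.list_getElem?.comp Computable.fst
        (Computable.fst.comp Computable.snd)) (hf.comp Computable.snd)
    exact Computable.list_append.comp (Computable.snd.comp Computable.snd)
      (Primrec.optionToList.to_comp.comp h1)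
  exact h.of_eq (fun l => (key l).symm)

lemma rfind_dom_total (Q : ℕ → Bool) :
    (Nat.rfind ((fun d => Part.some (Q d)) : ℕ →. Bool)).Dom ↔ ∃ z, Q z = true := by
  refine Nat.rfind_dom.trans ?_
  constructor
  · rintro ⟨z, hz, -⟩; exact ⟨z, (Part.mem_some_iff.1 hz).symm⟩
  · rintro ⟨z, hz⟩; exact ⟨z, Part.mem_some_iff.2 hz.symm, fun _ => trivial⟩

/-- real copies are given by c.e. sets -/
lemma exists_index {C : ℕ → List ℕ → Bool} (hC : Computable₂ C) {θ : ℕ × ℕ × ℕ → ℕ}
    (hθ : Computable θ) : ∃ m, ∀ e r v, W m e r v ↔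
      ∃ z, C (Encodable.encode (rM e r)) (z :: (tupc e v).map θ) = true := by
  let Q : ℕ → ℕ → Bool := fun n z => C (Encodable.encode (rM ((Encodable.decode (α := ℕ × ℕ × V) n).getD (0,0,[])).1
    ((Encodable.decode (α := ℕ × ℕ × V) n).getD (0,0,[])).2.1))
    (z :: (tupc ((Encodable.decode (α := ℕ × ℕ × V) n).getD (0,0,[])).1
      ((Encodable.decode (α := ℕ × ℕ × V) n).getD (0,0,[])).2.2).map θ)
  have hd : Primrec (fun p : ℕ × ℕ => (Encodable.decode (α := ℕ × ℕ × V) p.1).getD (0,0,[])) :=
    pr_oGetD (pr_decode Primrec.fst) (Primrec.const _)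
  have hQ : Computable₂ Q := by
    have h1 : Computable (fun p : ℕ × ℕ => Encodable.encode (rM ((Encodable.decode (α := ℕ × ℕ × V) p.1).getD (0,0,[])).1
        ((Encodable.decode (α := ℕ × ℕ × V) p.1).getD (0,0,[])).2.1)) := by
      refine Primrec.to_comp (pr_encode (Primrec.sumInr.comp (Primrec.sumInl.comp ?_)))
      exact (Primrec.fst.comp hd).pair (Primrec.fst.comp (Primrec.snd.comp hd))
    have h2 : Computable (fun p : ℕ × ℕ => tupc ((Encodable.decode (α := ℕ × ℕ × V) p.1).getD (0,0,[])).1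
      ((Encodable.decode (α := ℕ × ℕ × V) p.1).getD (0,0,[])).2.2) :=
      (pr_tupc (Primrec.fst.comp hd) (Primrec.snd.comp (Primrec.snd.comp hd))).to_comp
    have hCc : Computable (fun p : ℕ × List ℕ => C p.1 p.2) := hC
    have h3 := h1.pair (Computable.list_cons.comp Computable.snd ((comp_map hθ).comp h2))
    have h4 := hCc.comp h3
    exact h4
  have hp1 : Partrec (fun a : ℕ => Nat.rfind ((fun d => Part.some (Q a d) : ℕ →. Bool))) :=
    Partrec.rfind hQ.partrec₂
  obtain ⟨c, hc⟩ := Code.exists_code.1 (Partrec.nat_iff.1 hp1)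
  refine ⟨Encodable.encode c, ?_⟩
  intro e r v
  unfold W
  rw [Denumerable.ofNat_encode, hc]
  refine (rfind_dom_total (Q (Encodable.encode (e, r, v)))).trans ?_
  simp only [Q, Encodable.encodek, Option.getD_some]

/-- translation computed from a finite part of the path -/
def tσ (m e0 : ℕ) (tab : List (List ℕ)) (σ : List ℕ) (e j : ℕ) : ℕ :=
  if e0 ≤ e then ec m ((σ.take j).reverse) else (tab.getD e []).getD j 0

/-- query computed for an element: relation and remaining coordinates -/
noncomputable def qry (mk : ℕ → ℕ → V → ℕ → Prop) (t : ℕ → ℕ → ℕ) : Elt → Rel × List (ℕ × ℕ × ℕ) := by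
  classical
  exact fun x => Sum.casesOn x (fun q => (rTr q.1 q.2.1 (q.2.2 ^^^ t q.1 q.2.1), [(q.1, q.2.1, 0)]))
    (fun y => if Junk mk x then (rJ (rank mk (Encodable.encode x)), []) else
      Sum.casesOn y (fun q => (rM q.1 q.2.1, tupc q.1 (xv q.2.2.1 (lst (t q.1) q.2.2.1.length))))
        (fun _ => (rJ 0, [])))

/-- length of the path needed -/
def bdd (x : Elt) : ℕ := Sum.casesOn x (fun q => q.2.1) (fun y => Sum.casesOn y
  (fun q => q.2.2.1.length) (fun _ => 0))

section query
variable {mk : ℕ → ℕ → V → ℕ → Prop} {t : ℕ → ℕ → ℕ}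

lemma qry_tor (e j v : ℕ) : qry mk t (tor e j v) = (rTr e j (v ^^^ t e j), [(e, j, 0)]) := rfl

lemma qry_junk {x : Elt} (h : Junk mk x) : qry mk t x = (rJ (rank mk (Encodable.encode x)), []) := by
  rcases x with q | q | k
  · exact absurd h (by simp [Junk])
  · unfold qry; simp only; rw [if_pos h]
  · unfold qry; simp only; rw [if_pos h]

lemma qry_mrk {e r s : ℕ} {v : V} (h : Valid mk e r v s) : qry mk t (mrk e r v s) =
    (rM e r, tupc e (xv v (lst (t e) v.length))) := by
  unfold qry
  simp only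
  rw [if_neg]
  exact fun h' => h' h

lemma qry_congr {t' : ℕ → ℕ → ℕ} {x : Elt} (h : ∀ e j, j ≤ bdd x → t e j = t' e j) :
    qry mk t x = qry mk t' x := by
  by_cases hj : Junk mk x
  · rw [qry_junk hj, qry_junk hj]
  · rcases x with q | q | k
    · obtain ⟨e, j, v⟩ := q
      rw [qry_tor, qry_tor, h e j (by simp [bdd])]
    · obtain ⟨e, r, v, s⟩ := q
      have hv : Valid mk e r v s := by
        by_contra hv; exact hj hv
      rw [qry_mrk hv, qry_mrk hv]
      have : lst (t e) v.length = lst (t' e) v.length :=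
        lst_congr (fun j hj => h e j (by simp only [bdd]; omega))
      rw [this]
    · exact absurd trivial hj

end query

lemma xor_aux (a b c : ℕ) : a ^^^ (b ^^^ c) ^^^ (a ^^^ c) = b := by
  apply Nat.eq_of_testBit_eq
  intro i
  simp only [Nat.testBit_xor]
  cases a.testBit i <;> cases b.testBit i <;> cases c.testBit i <;> rfl

/-- the answers to the queries are the images of the elements -/
lemma qry_spec {mk : ℕ → ℕ → V → ℕ → Prop} {C : ℕ → List ℕ → Bool} {h : ℕ → ℕ}
    (hh : Iso (strOf mk) C h) {w t : ℕ → ℕ → ℕ} {θ : ℕ × ℕ × ℕ → ℕ}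
    (hθ : ∀ e j x, θ (e, j, x) = h (Encodable.encode (tor e j (x ^^^ w e j))))
    (H : ∀ e r v, (∃ s, mk e r v s) ↔
      ∃ s, mk e r (xv v (lst (fun j => w e j ^^^ t e j) v.length)) s) (x : Elt) (y : ℕ) :
    C (Encodable.encode (qry mk t x).1) (y :: (qry mk t x).2.map θ) = true ↔
      y = h (Encodable.encode (tmap mk mk (fun e j => w e j ^^^ t e j) x)) := by
  obtain ⟨n, rfl⟩ := hh.1.2 y
  have hinj : ∀ z z' : Elt, h (Encodable.encode z) = h (Encodable.encode z') ↔ z = z' := by
    intro z z'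
    constructor
    · intro h1; exact Encodable.encode_injective (hh.1.1 h1)
    · rintro rfl; rfl
  obtain ⟨z, rfl⟩ : ∃ z : Elt, n = Encodable.encode z := ⟨dec n, (encode_dec n).symm⟩
  rw [hinj]
  by_cases hj : Junk mk x
  · rw [qry_junk hj, tmap_junk hj]
    have h1 := iso_rel hh (ρ := rJ (rank mk (Encodable.encode x))) (xs := [z])
    simp only [List.map_cons, List.map_nil] at h1 ⊢
    rw [← h1]
    constructor
    · rintro ⟨z', hz', h2, h3⟩
      simp only [List.cons.injEq, and_true] at hz'
      subst hz'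
      rw [← h3, nth_rank h2, dec_encode]
    · rintro rfl
      exact ⟨_, rfl, junk_nth _, by rw [encode_dec, rank_nth]⟩
  · rcases x with q | q | k
    · obtain ⟨e, j, v⟩ := q
      rw [qry_tor]
      simp only [List.map_cons, List.map_nil, hθ]
      have h1 := iso_rel hh (ρ := rTr e j (v ^^^ t e j)) (xs := [z, tor e j (0 ^^^ w e j)])
      simp only [List.map_cons, List.map_nil] at h1
      rw [← h1]
      show _ ↔ z = tor e j (v ^^^ (w e j ^^^ t e j))
      constructor
      · rintro ⟨u, hu⟩
        simp only [List.cons.injEq, and_true, Sum.inl.injEq, Prod.mk.injEq, true_and] at hu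
        obtain ⟨rfl, h3⟩ := hu
        congr 1
        rw [Nat.zero_xor] at h3
        rw [h3]
        have : v ^^^ (u ^^^ (v ^^^ t e j) ^^^ t e j) = u := by
          have e1 : u ^^^ (v ^^^ t e j) ^^^ t e j = u ^^^ v := by
            rw [Nat.xor_assoc, Nat.xor_assoc, Nat.xor_self, Nat.xor_zero]
          rw [e1, Nat.xor_comm u v, ← Nat.xor_assoc, Nat.xor_self, Nat.zero_xor]
        rw [this]
      · rintro rfl
        refine ⟨v ^^^ (w e j ^^^ t e j), ?_⟩
        have : v ^^^ (w e j ^^^ t e j) ^^^ (v ^^^ t e j) = w e j := xor_aux _ _ _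
        rw [this, Nat.zero_xor]
    · obtain ⟨e, r, v, s⟩ := q
      have hv : Valid mk e r v s := by
        by_contra hv; exact hj hv
      rw [show (Sum.inr (Sum.inl (e, r, v, s)) : Elt) = mrk e r v s from rfl, qry_mrk hv]
      obtain ⟨s', h2, h3⟩ := tmap_mrk (a := fun e j => w e j ^^^ t e j) H hv
      rw [h3]
      have hmap : (tupc e (xv v (lst (t e) v.length))).map θ =
          (tup e (xv v (lst (fun j => w e j ^^^ t e j) v.length))).map
            (fun x => h (Encodable.encode x)) := by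
        have e1 : (tupc e (xv v (lst (t e) v.length))).map θ =
            (tup e (xv v (lst (t e) v.length))).map
              (fun x => h (Encodable.encode (tmap mk mk w x))) := by
          unfold tup
          rw [List.map_map]
          apply List.map_congr_left
          rintro ⟨e', j', u⟩ _
          rw [hθ]; rfl
        rw [e1]
        have e2 : (fun x => h (Encodable.encode (tmap mk mk w x))) =
            (fun x => h (Encodable.encode x)) ∘ (tmap mk mk w) := rfl
        rw [e2, ← List.map_map, tup_map e _ (fun j u => tmap_tor e j u)]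
        congr 2
        rw [xv_length, lst_length, min_self, xv_assoc, lst_xv]
        congr 1
        apply lst_congr
        intro j _
        rw [Nat.xor_comm]
      have h1 := iso_rel hh (ρ := rM e r)
        (xs := z :: tup e (xv v (lst (fun j => w e j ^^^ t e j) v.length)))
      simp only [List.map_cons] at h1
      simp only
      rw [hmap, ← h1]
      constructor
      · rintro ⟨v', s'', h4, h5⟩
        rw [List.cons.injEq] at h5
        obtain ⟨h6, h7⟩ := h5
        have := tup_inj h7
        subst this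
        rw [h6, valid_unique h4 h2]
      · rintro rfl
        exact ⟨_, _, h2, rfl⟩
    · exact absurd trivial hj


lemma pr_qry {mk : ℕ → ℕ → V → ℕ → Prop} (hmk : PrMk mk) {α : Type} [Primcodable α]
    {t : α → ℕ → ℕ → ℕ} (ht : Primrec fun q : α × ℕ × ℕ => t q.1 q.2.1 q.2.2) {x : α → Elt}
    (hx : Primrec x) : Primrec fun a => qry mk (t a) (x a) := by
  classical
  have ht' : ∀ {β : Type} [Primcodable β] {f : β → α} {g h : β → ℕ}, Primrec f → Primrec g →
      Primrec h → Primrec fun b => t (f b) (g b) (h b) := by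
    intro β _ f g h hf hg hh
    exact ht.comp (hf.pair (hg.pair hh))
  have h : Primrec fun a => (Sum.casesOn (x a) (fun q => ((rTr q.1 q.2.1 (q.2.2 ^^^ t a q.1 q.2.1),
      [(q.1, q.2.1, 0)]) : Rel × List (ℕ × ℕ × ℕ)))
    (fun y => if Junk mk (x a) then (rJ (rank mk (Encodable.encode (x a))), []) else
      (Sum.casesOn y (fun q => (rM q.1 q.2.1, tupc q.1 (xv q.2.2.1 (lst (t a q.1) q.2.2.1.length))))
        (fun _ => (rJ 0, [])) : Rel × List (ℕ × ℕ × ℕ))) : Rel × List (ℕ × ℕ × ℕ)) := by
    refine pr_cases (g := fun a q => ((rTr q.1 q.2.1 (q.2.2 ^^^ t a q.1 q.2.1),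
      [(q.1, q.2.1, 0)]) : Rel × List (ℕ × ℕ × ℕ)))
      (h := fun a y => if Junk mk (x a) then (rJ (rank mk (Encodable.encode (x a))), []) else
      (Sum.casesOn y (fun q => (rM q.1 q.2.1, tupc q.1 (xv q.2.2.1 (lst (t a q.1) q.2.2.1.length))))
        (fun _ => (rJ 0, [])) : Rel × List (ℕ × ℕ × ℕ))) hx ?_ ?_
    · have he : Primrec (fun q : α × ℕ × ℕ × ℕ => q.2.1) := Primrec.fst.comp Primrec.snd
      have hj : Primrec (fun q : α × ℕ × ℕ × ℕ => q.2.2.1) :=
        Primrec.fst.comp (Primrec.snd.comp Primrec.snd)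
      have hv : Primrec (fun q : α × ℕ × ℕ × ℕ => q.2.2.2) :=
        Primrec.snd.comp (Primrec.snd.comp Primrec.snd)
      exact (Primrec.sumInl.comp (he.pair (hj.pair (pr_xor hv (ht' Primrec.fst he hj))))).pair
        (pr_cons (he.pair (hj.pair (Primrec.const 0))) (Primrec.const []))
    · have hx1 : Primrec (fun q : α × ((ℕ × ℕ × List ℕ × ℕ) ⊕ ℕ) => x q.1) := hx.comp Primrec.fst
      refine pr_ite (pr_Junk hmk hx1) ?_ ?_
      · exact (Primrec.sumInr.comp (Primrec.sumInr.comp (pr_rank hmk (pr_encode hx1)))).pair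
          (Primrec.const [])
      · refine pr_cases (g := fun (a : α × ((ℕ × ℕ × List ℕ × ℕ) ⊕ ℕ)) (q : ℕ × ℕ × List ℕ × ℕ) =>
          ((rM q.1 q.2.1, tupc q.1 (xv q.2.2.1 (lst (t a.1 q.1) q.2.2.1.length))) :
            Rel × List (ℕ × ℕ × ℕ))) (h := fun _ _ => (rJ 0, [])) Primrec.snd ?_ (Primrec.const _)
        have hq : Primrec (fun p : (α × ((ℕ × ℕ × List ℕ × ℕ) ⊕ ℕ)) × (ℕ × ℕ × List ℕ × ℕ) => p.2) :=
          Primrec.snd
        have ha : Primrec (fun p : (α × ((ℕ × ℕ × List ℕ × ℕ) ⊕ ℕ)) × (ℕ × ℕ × List ℕ × ℕ) => p.1.1) :=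
          Primrec.fst.comp Primrec.fst
        have he := Primrec.fst.comp hq
        have hr := Primrec.fst.comp (Primrec.snd.comp hq)
        have hv := Primrec.fst.comp (Primrec.snd.comp (Primrec.snd.comp hq))
        refine (Primrec.sumInr.comp (Primrec.sumInl.comp (he.pair hr))).pair (pr_tupc he
          (pr_xv hv (pr_lst ?_ (pr_len hv))))
        exact ht' (ha.comp Primrec.fst) (he.comp Primrec.fst) Primrec.snd
  refine h.of_eq ?_
  intro a
  unfold qry
  rcases x a with q | q | k <;> rfl

lemma pr_bdd {α : Type} [Primcodable α] {x : α → Elt} (hx : Primrec x) :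
    Primrec fun a => bdd (x a) := by
  unfold bdd
  refine pr_cases (g := fun _ (q : ℕ × ℕ × ℕ) => q.2.1) (h := fun _ y => (Sum.casesOn y
    (fun q => q.2.2.1.length) (fun _ => 0) : ℕ)) hx (Primrec.fst.comp (Primrec.snd.comp Primrec.snd)) ?_
  refine pr_cases (g := fun _ (q : ℕ × ℕ × List ℕ × ℕ) => q.2.2.1.length) (h := fun _ _ => 0)
    Primrec.snd (pr_len (Primrec.fst.comp (Primrec.snd.comp (Primrec.snd.comp Primrec.snd)))) (Primrec.const 0)

lemma pr_tσ (m e0 : ℕ) (tab : List (List ℕ)) {α : Type} [Primcodable α] {σ : α → List ℕ}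
    {e j : α → ℕ} (hσ : Primrec σ) (he : Primrec e) (hj : Primrec j) :
    Primrec fun a => tσ m e0 tab (σ a) (e a) (j a) := by
  unfold tσ
  exact pr_ite (pr_le (Primrec.const e0) he) (pr_ec (Primrec.const m) (Primrec.list_reverse.comp
    (Primrec.list_take.comp hj hσ))) (pr_getD 0 (pr_getD [] (Primrec.const tab) he) hj)

/-- translations for the real opponent `m` computed from the path -/
def tau (m e0 : ℕ) (tab : List (List ℕ)) (f : ℕ → ℕ) (e j : ℕ) : ℕ :=
  if e0 ≤ e then ec m (lst f j) else (tab.getD e []).getD j 0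

lemma tσ_pre {m e0 : ℕ} {tab : List (List ℕ)} {f : ℕ → ℕ} {n e j : ℕ} (hj : j ≤ n) :
    tσ m e0 tab (pre f n) e j = tau m e0 tab f e j := by
  unfold tσ tau
  have : ((pre f n).take j).reverse = lst f j := by
    unfold pre
    rw [← List.map_take, List.take_range, min_eq_left hj, ← List.map_reverse, lst_eq]
  rw [this]

/-- base points of the blocks of a copy -/
lemma exists_base {mk : ℕ → ℕ → V → ℕ → Prop} {C : ℕ → List ℕ → Bool} (hC : Computable₂ C)
    {h : ℕ → ℕ} (hh : Iso (strOf mk) C h) : ∃ (b : ℕ × ℕ → ℕ) (w : ℕ → ℕ → ℕ), Computable b ∧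
      ∀ e j, b (e, j) = h (Encodable.encode (tor e j (w e j))) := by
  have hex : ∀ p : ℕ × ℕ, ∃ c, C (Encodable.encode (rTr p.1 p.2 0)) [c, c] = true := by
    intro p
    refine ⟨h (Encodable.encode (tor p.1 p.2 0)), ?_⟩
    have h1 : RelOf mk (rTr p.1 p.2 0) [tor p.1 p.2 0, tor p.1 p.2 0] := ⟨0, by simp⟩
    exact (iso_rel hh).1 h1
  have hQ : Computable₂ (fun (p : ℕ × ℕ) (c : ℕ) => C (Encodable.encode (rTr p.1 p.2 0)) [c, c]) := by
    have hCc : Computable (fun p : ℕ × List ℕ => C p.1 p.2) := hC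
    have h1 : Primrec (fun q : (ℕ × ℕ) × ℕ => Encodable.encode (rTr q.1.1 q.1.2 0)) :=
      pr_encode (Primrec.sumInl.comp ((Primrec.fst.comp Primrec.fst).pair
        ((Primrec.snd.comp Primrec.fst).pair (Primrec.const 0))))
    have h2 : Primrec (fun q : (ℕ × ℕ) × ℕ => [q.2, q.2]) :=
      pr_cons Primrec.snd (pr_cons Primrec.snd (Primrec.const []))
    have h3 := h1.to_comp.pair h2.to_comp
    have h4 := hCc.comp h3
    exact h4
  obtain ⟨b, hb1, hb2⟩ := search hQ hex
  have hbw : ∀ e j, ∃ w, b (e, j) = h (Encodable.encode (tor e j w)) := by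
    intro e j
    obtain ⟨n, hn⟩ := hh.1.2 (b (e, j))
    have h1 := hb2 (e, j)
    rw [← hn, ← encode_dec n] at h1
    have h2 : RelOf mk (rTr e j 0) [dec n, dec n] := (iso_rel hh).2 h1
    obtain ⟨v, hv⟩ := h2
    simp only [List.cons.injEq, and_true] at hv
    refine ⟨v, ?_⟩
    rw [← hn, ← hv.1, encode_dec]
  choose w hw using hbw
  exact ⟨b, w, hb1, hw⟩

/-- coordinates in the blocks of a copy -/
lemma exists_coord {mk : ℕ → ℕ → V → ℕ → Prop} {C : ℕ → List ℕ → Bool} (hC : Computable₂ C)
    {h : ℕ → ℕ} (hh : Iso (strOf mk) C h) : ∃ (θ : ℕ × ℕ × ℕ → ℕ) (w : ℕ → ℕ → ℕ), Computable θ ∧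
      ∀ e j x, θ (e, j, x) = h (Encodable.encode (tor e j (x ^^^ w e j))) := by
  obtain ⟨b, w, hb1, hw⟩ := exists_base hC hh
  have hex : ∀ p : ℕ × ℕ × ℕ, ∃ y, C (Encodable.encode (rTr p.1 p.2.1 p.2.2)) [y, b (p.1, p.2.1)] = true := by
    intro p
    refine ⟨h (Encodable.encode (tor p.1 p.2.1 (p.2.2 ^^^ w p.1 p.2.1))), ?_⟩
    have h1 : RelOf mk (rTr p.1 p.2.1 p.2.2)
        [tor p.1 p.2.1 (p.2.2 ^^^ w p.1 p.2.1), tor p.1 p.2.1 (w p.1 p.2.1)] := by
      refine ⟨p.2.2 ^^^ w p.1 p.2.1, ?_⟩
      rw [Nat.xor_comm p.2.2, Nat.xor_assoc, Nat.xor_self, Nat.xor_zero]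
    rw [hw]
    exact (iso_rel hh).1 h1
  have hQ : Computable₂ (fun (p : ℕ × ℕ × ℕ) (y : ℕ) =>
      C (Encodable.encode (rTr p.1 p.2.1 p.2.2)) [y, b (p.1, p.2.1)]) := by
    have hCc : Computable (fun p : ℕ × List ℕ => C p.1 p.2) := hC
    have h1 : Primrec (fun q : (ℕ × ℕ × ℕ) × ℕ => Encodable.encode (rTr q.1.1 q.1.2.1 q.1.2.2)) :=
      pr_encode (Primrec.sumInl.comp Primrec.fst)
    have h3 : Computable (fun q : (ℕ × ℕ × ℕ) × ℕ => b (q.1.1, q.1.2.1)) :=
      hb1.comp ((Computable.fst.comp Computable.fst).pair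
        (Computable.fst.comp (Computable.snd.comp Computable.fst)))
    have h2 : Computable (fun q : (ℕ × ℕ × ℕ) × ℕ => [q.2, b (q.1.1, q.1.2.1)]) :=
      Computable.list_cons.comp Computable.snd (Computable.list_cons.comp h3 (Computable.const []))
    have h4 := h1.to_comp.pair h2
    have h5 := hCc.comp h4
    exact h5
  obtain ⟨θ, hθ1, hθ2⟩ := search hQ hex
  refine ⟨θ, w, hθ1, ?_⟩
  intro e j x
  obtain ⟨n, hn⟩ := hh.1.2 (θ (e, j, x))
  have h1 := hθ2 (e, j, x)
  rw [← hn, ← encode_dec n] at h1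
  simp only at h1
  rw [hw] at h1
  have h2 : RelOf mk (rTr e j x) [dec n, tor e j (w e j)] := (iso_rel hh).2 h1
  obtain ⟨v, hv⟩ := h2
  simp only [List.cons.injEq, and_true, Sum.inl.injEq, Prod.mk.injEq, true_and] at hv
  obtain ⟨h3, h4⟩ := hv
  rw [← hn, ← encode_dec n, h3, h4]
  have : x ^^^ (v ^^^ x) = v := by
    rw [Nat.xor_comm v, ← Nat.xor_assoc, Nat.xor_self, Nat.zero_xor]
  rw [this]

/-- a computable copy is a real opponent -/
lemma copy_real {C : ℕ → List ℕ → Bool} (hC : Computable₂ C) {h : ℕ → ℕ}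
    (hh : Iso (strOf (mka ok)) C h) {θ : ℕ × ℕ × ℕ → ℕ} {w : ℕ → ℕ → ℕ} (hθ1 : Computable θ)
    (hθ : ∀ e j x, θ (e, j, x) = h (Encodable.encode (tor e j (x ^^^ w e j)))) :
    ∃ m, Real ok m w := by
  obtain ⟨m, hm⟩ := exists_index hC hθ1
  refine ⟨m, ?_⟩
  intro e r v
  rw [hm]
  have hmap : (tupc e v).map θ = (tup e (xv v (lst (w e) v.length))).map
      (fun x => h (Encodable.encode x)) := by
    have e1 : (tupc e v).map θ = (tup e v).map
        (fun x => h (Encodable.encode (tmap (mka ok) (mka ok) w x))) := by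
      unfold tup
      rw [List.map_map]
      apply List.map_congr_left
      rintro ⟨e', j', u⟩ _
      rw [hθ]; rfl
    rw [e1]
    have e2 : (fun x => h (Encodable.encode (tmap (mka ok) (mka ok) w x))) =
      (fun x => h (Encodable.encode x)) ∘ (tmap (mka ok) (mka ok) w) := rfl
    rw [e2, ← List.map_map, tup_map e _ (fun j u => tmap_tor e j u)]
  rw [hmap]
  constructor
  · rintro ⟨z, hz⟩
    obtain ⟨n, rfl⟩ := hh.1.2 z
    rw [← encode_dec n] at hz
    have h2 : RelOf (mka ok) (rM e r) (dec n :: tup e (xv v (lst (w e) v.length))) :=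
      (iso_rel hh).2 hz
    obtain ⟨v', s, h1, h2⟩ := h2
    rw [List.cons.injEq] at h2
    rw [tup_inj h2.2]
    exact ⟨s, h1.1⟩
  · intro h1
    obtain ⟨s, hs⟩ := valid_exists (mk := mka ok) h1
    refine ⟨h (Encodable.encode (mrk e r (xv v (lst (w e) v.length)) s)), ?_⟩
    have h2 : RelOf (mka ok) (rM e r) (mrk e r (xv v (lst (w e) v.length)) s ::
        tup e (xv v (lst (w e) v.length))) := ⟨_, _, hs, rfl⟩
    exact (iso_rel hh).1 h2

/-- the translations computed from the path preserve the marks -/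
lemma exists_tab {m : ℕ} {w : ℕ → ℕ → ℕ} (hreal : Real ok m w) {f : ℕ → ℕ} (hf : Path ok f) :
    ∃ (e0 : ℕ) (tab : List (List ℕ)), ∀ e r v, (∃ s, mka ok e r v s) ↔
      ∃ s, mka ok e r (xv v (lst (fun j => w e j ^^^ tau m e0 tab f e j) v.length)) s := by
  obtain ⟨e0, he0⟩ := real_inv hreal
  choose Nb hNb using mk_bounded ok
  obtain ⟨N, hN⟩ := uniform_bound (l := List.range e0) (A := fun e d => Nb e ≤ d)
    (fun t d h => by omega) (fun e _ => ⟨Nb e, le_rfl⟩)
  refine ⟨e0, (List.range e0).map (fun e => (List.range N).map (w e)), ?_⟩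
  have htab1 : ∀ e j, e < e0 → j < N →
      (((List.range e0).map (fun e => (List.range N).map (w e))).getD e []).getD j 0 = w e j := by
    intro e j he hj
    simp [he, hj, List.getD_eq_getElem?_getD]
  generalize (List.range e0).map (fun e => (List.range N).map (w e)) = tab at htab1
  have H1 : ∀ e r v, MkA ok e r v →
      MkA ok e r (xv v (lst (fun j => w e j ^^^ tau m e0 tab f e j) v.length)) := by
    intro e r v hv
    rcases Nat.lt_or_ge e e0 with he | he
    · rcases hNb e r with hful | hbd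
      · exact hful _
      · have h1 := hbd v hv
        have h2 : Nb e ≤ N := hN e (List.mem_range.2 he)
        have e1 : lst (fun j => w e j ^^^ tau m e0 tab f e j) v.length = zv v.length := by
          rw [← lst_const_zero]
          apply lst_congr
          intro j hj
          unfold tau
          rw [if_neg (by omega), htab1 e j he (by omega), Nat.xor_self]
        rw [e1, xv_zv le_rfl]
        exact hv
    · have h1 := he0 e he f hf r v hv
      have e1 : (fun j => w e j ^^^ ec m (lst f j)) = fun j => w e j ^^^ tau m e0 tab f e j := by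
        funext j
        unfold tau
        rw [if_pos he]
      rw [e1] at h1
      exact h1
  intro e r v
  constructor
  · exact H1 e r v
  · intro h1
    have h2 := H1 e r _ h1
    rw [xv_lst_cancel (a := fun e j => w e j ^^^ tau m e0 tab f e j)] at h2
    exact h2

/-- verifier computing the isomorphism from the path -/
lemma comp_verifier (hok : Primrec ok) {C : ℕ → List ℕ → Bool} (hC : Computable₂ C)
    {θ : ℕ × ℕ × ℕ → ℕ} (hθ1 : Computable θ) (m e0 : ℕ) (tab : List (List ℕ)) :
    Computable (fun q : (List ℕ × ℕ) × ℕ => if bdd (dec q.1.2) ≤ q.1.1.length then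
      (if C (Encodable.encode (qry (mka ok) (tσ m e0 tab q.1.1) (dec q.1.2)).1)
        (q.2 :: (qry (mka ok) (tσ m e0 tab q.1.1) (dec q.1.2)).2.map θ) = true then some q.2 else none)
        else none) := by
  have hmk := prmk_a hok
  have hCc : Computable (fun p : ℕ × List ℕ => C p.1 p.2) := hC
  have hx : Primrec (fun q : (List ℕ × ℕ) × ℕ => dec q.1.2) := pr_dec (Primrec.snd.comp Primrec.fst)
  have hq : Primrec (fun q : (List ℕ × ℕ) × ℕ => qry (mka ok) (tσ m e0 tab q.1.1) (dec q.1.2)) := by
    refine pr_qry (t := fun (q : (List ℕ × ℕ) × ℕ) => tσ m e0 tab q.1.1) hmk ?_ hx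
    exact pr_tσ m e0 tab (Primrec.fst.comp (Primrec.fst.comp Primrec.fst))
      (Primrec.fst.comp Primrec.snd) (Primrec.snd.comp Primrec.snd)
  have h1 : Computable (fun q : (List ℕ × ℕ) × ℕ =>
      C (Encodable.encode (qry (mka ok) (tσ m e0 tab q.1.1) (dec q.1.2)).1)
      (q.2 :: (qry (mka ok) (tσ m e0 tab q.1.1) (dec q.1.2)).2.map θ)) := by
    have a1 := (pr_encode (Primrec.fst.comp hq)).to_comp
    have a2 := (comp_map hθ1).comp (Primrec.snd.comp hq).to_comp
    have a3 := Computable.list_cons.comp (Computable.snd (α := List ℕ × ℕ) (β := ℕ)) a2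
    have a4 := hCc.comp (a1.pair a3)
    exact a4
  have h2 : Primrec (fun q : ((List ℕ × ℕ) × ℕ) × Bool => if bdd (dec q.1.1.2) ≤ q.1.1.1.length then
      (if q.2 = true then some q.1.2 else none) else none) := by
    refine pr_ite (pr_le (pr_bdd (hx.comp Primrec.fst))
      (pr_len (Primrec.fst.comp (Primrec.fst.comp Primrec.fst)))) ?_ (Primrec.const none)
    exact pr_ite (pr_eq Primrec.snd (Primrec.const true))
      (Primrec.option_some.comp (Primrec.snd.comp Primrec.fst)) (Primrec.const none)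
  have h3 := Computable.id.pair h1
  have h4 := h2.to_comp.comp h3
  exact h4

/-- every computable copy is isomorphic by a map computable from any path -/
theorem copy_iso (hok : Primrec ok) {C : ℕ → List ℕ → Bool} (hC : Computable₂ C) {h : ℕ → ℕ}
    (hh : Iso (strOf (mka ok)) C h) {f : ℕ → ℕ} (hf : Path ok f) :
    ∃ φ, Iso (strOf (mka ok)) C φ ∧ TR φ f := by
  obtain ⟨θ, w, hθ1, hθ⟩ := exists_coord hC hh
  obtain ⟨m, hreal⟩ := copy_real hC hh hθ1 hθ
  obtain ⟨e0, tab, H⟩ := exists_tab hreal hf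
  have hspec := qry_spec (t := tau m e0 tab f) hh hθ H
  refine ⟨h ∘ (fun n => Encodable.encode (tmap (mka ok) (mka ok)
    (fun e j => w e j ^^^ tau m e0 tab f e j) (dec n))), (iso_translate H).comp hh, ?_⟩
  have hcong : ∀ n x, bdd x ≤ n →
      qry (mka ok) (tσ m e0 tab (pre f n)) x = qry (mka ok) (tau m e0 tab f) x := by
    intro n x hb
    apply qry_congr
    intro e j hj
    exact tσ_pre (by omega)
  refine cert (TR.refl f) (fun σ n y => if bdd (dec n) ≤ σ.length then
      (if C (Encodable.encode (qry (mka ok) (tσ m e0 tab σ) (dec n)).1)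
        (y :: (qry (mka ok) (tσ m e0 tab σ) (dec n)).2.map θ) = true then some y else none) else none)
    (comp_verifier hok hC hθ1 m e0 tab) _ ?_ ?_
  · intro n
    refine ⟨bdd (dec n), h (Encodable.encode (tmap (mka ok) (mka ok)
      (fun e j => w e j ^^^ tau m e0 tab f e j) (dec n))), ?_⟩
    rw [if_pos (by simp), hcong _ _ le_rfl, if_pos ((hspec _ _).2 rfl)]
    rfl
  · intro n k y z hz
    split_ifs at hz with h1 h2
    rw [Option.some_inj] at hz
    subst hz
    rw [hcong _ _ (by simpa using h1), hspec] at h2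
    exact h2

end Pool.Agent.W2helper50
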