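import Pool.Agent.W2helper50.Tree

set_option autoImplicit false

/-! The construction. -/

namespace Pool.Agent.W2helper50

open Nat.Partrec (Code)

/-- enumeration of the `m`-th c.e. set of marked positions -/
def hit (m e r k : ℕ) : Option V :=
  if (Code.evaln k.unpair.1 (Denumerable.ofNat Code m)
    (Encodable.encode (e, r, (Encodable.decode (α := V) k.unpair.2).getD []))).isSome = true
  then some ((Encodable.decode (α := V) k.unpair.2).getD []) else none

/-- positions seen by stage `s` -/
def Rsp (m s e r : ℕ) : List V := (List.range s).filterMap (hit m e r)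

/-- the `m`-th c.e. set of positions -/
def W (m e r : ℕ) (v : V) : Prop :=
  (Code.eval (Denumerable.ofNat Code m) (Encodable.encode (e, r, v))).Dom

lemma Rsp_mono {m s s' e r : ℕ} (h : s ≤ s') {v : V} (hv : v ∈ Rsp m s e r) : v ∈ Rsp m s' e r := by
  unfold Rsp at hv ⊢
  rw [List.mem_filterMap] at hv ⊢
  obtain ⟨k, hk, h2⟩ := hv
  exact ⟨k, List.mem_range.2 (lt_of_lt_of_le (List.mem_range.1 hk) h), h2⟩

lemma Rsp_sound {m s e r : ℕ} {v : V} (hv : v ∈ Rsp m s e r) : W m e r v := by
  unfold Rsp at hv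
  rw [List.mem_filterMap] at hv
  obtain ⟨k, -, h2⟩ := hv
  unfold hit at h2
  split_ifs at h2 with h3
  rw [Option.some_inj] at h2
  rw [h2] at h3
  obtain ⟨x, hx⟩ := Option.isSome_iff_exists.1 h3
  exact Part.dom_iff_mem.2 ⟨x, Code.evaln_sound hx⟩

lemma Rsp_complete {m e r : ℕ} {v : V} (hv : W m e r v) : ∃ s, v ∈ Rsp m s e r := by
  obtain ⟨x, hx⟩ := Part.dom_iff_mem.1 hv
  obtain ⟨k, hk⟩ := Code.evaln_complete.1 hx
  refine ⟨Nat.pair k (Encodable.encode v) + 1, ?_⟩
  unfold Rsp
  rw [List.mem_filterMap]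
  refine ⟨Nat.pair k (Encodable.encode v), by simp, ?_⟩
  unfold hit
  simp only [Nat.unpair_pair, Encodable.encodek, Option.getD_some]
  rw [if_pos]
  rw [Option.mem_def] at hk
  rw [hk]; rfl

/-- approximation to the translation that the `e`-th function claims -/
def gk (e j s : ℕ) : Option ℕ := Code.evaln s (Denumerable.ofNat Code e) (Nat.pair e j)

lemma gk_mono {e j s s' x : ℕ} (h : s ≤ s') (hx : gk e j s = some x) : gk e j s' = some x :=
  Code.evaln_mono h hx

/-- state of a family: label, level, active opponents, marks, positions, previous data, time -/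
abbrev FS := ℕ × ℕ × List ℕ × List V × List V × ℕ × List V × List V × ℕ

namespace FS
def r (S : FS) : ℕ := S.1
def n (S : FS) : ℕ := S.2.1
def act (S : FS) : List ℕ := S.2.2.1
def K (S : FS) : List V := S.2.2.2.1
def ps (S : FS) : List V := S.2.2.2.2.1
def pn (S : FS) : ℕ := S.2.2.2.2.2.1
def pK (S : FS) : List V := S.2.2.2.2.2.2.1
def pps (S : FS) : List V := S.2.2.2.2.2.2.2.1
def t (S : FS) : ℕ := S.2.2.2.2.2.2.2.2
end FS

def mkS (r n : ℕ) (act : List ℕ) (K ps : List V) (pn : ℕ) (pK pps : List V) (t : ℕ) : FS :=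
  (r, n, act, K, ps, pn, pK, pps, t)

section
variable (r n : ℕ) (act : List ℕ) (K ps : List V) (pn : ℕ) (pK pps : List V) (t : ℕ)
@[simp] lemma mkS_r : (mkS r n act K ps pn pK pps t).r = r := rfl
@[simp] lemma mkS_n : (mkS r n act K ps pn pK pps t).n = n := rfl
@[simp] lemma mkS_act : (mkS r n act K ps pn pK pps t).act = act := rfl
@[simp] lemma mkS_K : (mkS r n act K ps pn pK pps t).K = K := rfl
@[simp] lemma mkS_ps : (mkS r n act K ps pn pK pps t).ps = ps := rfl
@[simp] lemma mkS_pn : (mkS r n act K ps pn pK pps t).pn = pn := rfl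
@[simp] lemma mkS_pK : (mkS r n act K ps pn pK pps t).pK = pK := rfl
@[simp] lemma mkS_pps : (mkS r n act K ps pn pK pps t).pps = pps := rfl
@[simp] lemma mkS_t : (mkS r n act K ps pn pK pps t).t = t := rfl
end

/-- family `S` waits for opponent `m` -/
def Waits (S : FS) (m : ℕ) : Prop := S.r ≠ 0 ∧ S.ps.length = m ∧ m ∈ S.act

instance (S : FS) (m : ℕ) : Decidable (Waits S m) := by unfold Waits; infer_instance

def Blocked (L : List FS) (t m : ℕ) : Prop := ∃ S' ∈ L, Waits S' m ∧ S'.t < t

instance (L : List FS) (t m : ℕ) : Decidable (Blocked L t m) := by unfold Blocked; infer_instance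

/-- candidates for admission -/
def candL (L : List FS) (s e : ℕ) (S : FS) : List ℕ :=
  (List.range (e+1)).filter (fun m => decide (m ∉ S.act ∧ Rsp m s e S.r ≠ [] ∧ ¬ Blocked L S.t m))

/-- consistency of the answer `x` -/
def Cons (S : FS) (x : V) : Prop := x.length = S.n+1 ∧
  (S.pps.length ≤ S.ps.length ∨ xv (x.drop (S.n - S.pn)) (S.pps.getD S.ps.length []) ∈ S.pK)

instance (S : FS) (x : V) : Decidable (Cons S x) := by unfold Cons; infer_instance

/-- answers of the current opponent -/
def respL (s e : ℕ) (S : FS) : List V :=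
  (Rsp S.ps.length s e S.r).filter (fun x => decide (Cons S x))

/-- new marks after the answer `x` -/
def newK (ok : List ℕ → Bool) (S : FS) (x : V) : List V :=
  sp S.K ((Tn ok S.n).map (fun τ => xv x (ev S.ps.length τ)))

def startS (s : ℕ) : FS := mkS 1 0 [] [zv 1] [] 0 [] [] (s+1)

def admitS (s : ℕ) (S : FS) (m : ℕ) : FS :=
  mkS (S.r+1) S.n (m::S.act) [zv (S.n+1)] [] S.n [] [] (s+1)

def skipS (s : ℕ) (S : FS) : FS :=
  mkS S.r S.n S.act S.K (S.ps ++ [[]]) S.pn S.pK S.pps (s+1)

def newN (e s : ℕ) (S : FS) : ℕ := if (gk e (S.n+1) s).isSome = true then S.n+1 else S.n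

def critS (e s : ℕ) (S : FS) (x : V) : FS :=
  mkS (S.r+1) (newN e s S) S.act [zv (newN e s S+1)] [] S.n S.K (S.ps ++ [x]) (s+1)

def procS (ok : List ℕ → Bool) (s : ℕ) (S : FS) (x : V) : FS :=
  mkS S.r S.n S.act (newK ok S x) (S.ps ++ [x]) S.pn S.pK S.pps (s+1)

/-- one step of family `e` at stage `s` -/
def stepF (ok : List ℕ → Bool) (L : List FS) (s e : ℕ) (S : FS) : FS :=
  if S.r = 0 then (if (gk e 0 s).isSome = true then startS s else S)
  else if candL L s e S ≠ [] then admitS s S (candL L s e S).headI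
  else if e < S.ps.length then S
  else if S.ps.length ∉ S.act then skipS s S
  else if respL s e S = [] then S
  else if uv (S.n+1) ∈ newK ok S (respL s e S).headI then critS e s S (respL s e S).headI
  else procS ok s S (respL s e S).headI

def S0 : FS := mkS 0 0 [] [] [] 0 [] [] 0

/-- states of the first `s` families at stage `s` -/
def St (ok : List ℕ → Bool) : ℕ → List FS
  | 0 => []
  | s+1 => (List.range (s+1)).map (fun e => stepF ok (St ok s) s e ((St ok s).getD e S0))

def fs (ok : List ℕ → Bool) (s e : ℕ) : FS := (St ok s).getD e S0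

variable {ok : List ℕ → Bool}

lemma St_length (s : ℕ) : (St ok s).length = s := by cases s <;> simp [St]

lemma fs_succ {s e : ℕ} (h : e ≤ s) : fs ok (s+1) e = stepF ok (St ok s) s e (fs ok s e) := by
  have h2 : e < s+1 := by omega
  unfold fs
  conv_lhs => rw [St]
  simp [List.getD_eq_getElem?_getD, h2]

lemma fs_ge {s e : ℕ} (h : s ≤ e) : fs ok s e = S0 := by
  unfold fs
  rw [List.getD_eq_default]
  rw [St_length]; exact h

lemma mem_St {s : ℕ} {S : FS} : S ∈ St ok s ↔ ∃ e < s, S = fs ok s e := by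
  constructor
  · intro h
    obtain ⟨i, hi, rfl⟩ := List.getElem_of_mem h
    rw [St_length] at hi
    refine ⟨i, hi, ?_⟩
    unfold fs
    rw [List.getD_eq_getElem _ _ (by rw [St_length]; exact hi)]
  · rintro ⟨e, he, rfl⟩
    unfold fs
    rw [List.getD_eq_getElem _ _ (by rw [St_length]; exact he)]
    exact List.getElem_mem _

end Pool.Agent.W2helper50
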