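import Pool.Agent.W2helper50.Inv

set_option autoImplicit false

/-! Dynamics of a family. -/

namespace Pool.Agent.W2helper50

open Nat.Partrec (Code)

variable {ok : List ℕ → Bool}

lemma step_cases (ok : List ℕ → Bool) (s e : ℕ) : fs ok (s+1) e = fs ok s e ∨
    (e ≤ s ∧ fs ok s e = S0 ∧ (gk e 0 s).isSome = true ∧ fs ok (s+1) e = startS s) ∨
    (e ≤ s ∧ Good ok s e (fs ok s e) ∧ Stp ok (St ok s) s e (fs ok s e) (fs ok (s+1) e)) := by
  rcases Nat.lt_or_ge s e with hlt | hge
  · left; rw [fs_ge (show s+1 ≤ e from hlt), fs_ge hlt.le]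
  · rcases fs_good (ok := ok) s e with h | ⟨-, h⟩
    · rw [fs_succ hge, h]
      unfold stepF
      rw [if_pos (by rfl)]
      split_ifs with hg
      · right; left; exact ⟨hge, rfl, hg, rfl⟩
      · left; rfl
    · right; right
      rw [fs_succ hge]
      exact ⟨hge, h, stepF_stp h.rpos⟩

section stp
variable {L : List FS} {s e : ℕ} {S S' : FS}

lemma stp_t (h : Stp ok L s e S S') : S' = S ∨ S'.t = s+1 := by
  cases h with
  | admit m _ _ _ _ => right; rfl
  | same _ _ => left; rfl
  | skip _ _ => right; rfl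
  | crit x _ _ _ _ _ => right; rfl
  | proc x _ _ _ _ _ => right; rfl

lemma stp_r (h : Stp ok L s e S S') : S'.r = S.r ∨ S'.r = S.r+1 := by
  cases h with
  | admit m _ _ _ _ => right; rfl
  | same _ _ => left; rfl
  | skip _ _ => left; rfl
  | crit x _ _ _ _ _ => right; rfl
  | proc x _ _ _ _ _ => left; rfl

lemma stp_n (h : Stp ok L s e S S') : S.n ≤ S'.n := by
  cases h with
  | admit m _ _ _ _ => exact le_rfl
  | same _ _ => exact le_rfl
  | skip _ _ => exact le_rfl
  | crit x _ _ _ _ _ =>
    simp only [critS, mkS_n]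
    rcases newN_cases e s S with h | h <;> omega
  | proc x _ _ _ _ _ => exact le_rfl

lemma stp_act (h : Stp ok L s e S S') : S'.act = S.act ∨ ∃ m, S'.act = m::S.act := by
  cases h with
  | admit m _ _ _ _ => right; exact ⟨m, rfl⟩
  | same _ _ => left; rfl
  | skip _ _ => left; rfl
  | crit x _ _ _ _ _ => left; rfl
  | proc x _ _ _ _ _ => left; rfl

lemma stp_pps (hG : Good ok s e S) (h : Stp ok L s e S S') (ha : S'.act.length = S.act.length) :
    S.pps.length ≤ S'.pps.length := by
  cases h with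
  | admit m _ _ _ _ => simp [admitS] at ha
  | same _ _ => exact le_rfl
  | skip _ _ => exact le_rfl
  | crit x hle hact hx hR hu =>
    simp only [critS, mkS_pps, List.length_append, List.length_cons, List.length_nil]
    exact crit_ge hG hact hx hu
  | proc x _ _ _ _ _ => exact le_rfl

/-- steps that keep the active set and the length of the previous record -/
lemma stp_quiet (h : Stp ok L s e S S') (ha : S'.act.length = S.act.length)
    (hp : S'.pps.length = S.pps.length) (ho : ¬ Outs S) : ¬ Outs S' ∧ S'.n = S.n ∧ S'.r = S.r := by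
  unfold Outs at *
  cases h with
  | admit m _ _ _ _ => simp [admitS] at ha
  | same _ _ => exact ⟨ho, rfl, rfl⟩
  | skip _ _ => simp [skipS] at *; omega
  | crit x hle hact hx hR hu =>
    simp only [critS, mkS_pps, List.length_append, List.length_cons, List.length_nil] at hp
    omega
  | proc x _ _ _ _ _ => simp [procS] at *; omega

end stp

lemma step_t (s e : ℕ) : fs ok (s+1) e = fs ok s e ∨ (fs ok (s+1) e).t = s+1 := by
  rcases step_cases ok s e with h1 | ⟨-, -, -, h1⟩ | ⟨-, -, h1⟩
  · exact Or.inl h1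
  · right; rw [h1]; rfl
  · exact stp_t h1

lemma step_r (s e : ℕ) : (fs ok s e).r ≤ (fs ok (s+1) e).r := by
  rcases step_cases ok s e with h1 | ⟨-, h0, -, h1⟩ | ⟨-, -, h1⟩
  · rw [h1]
  · rw [h0]; exact Nat.zero_le _
  · rcases stp_r h1 with h | h <;> omega

lemma step_n (s e : ℕ) : (fs ok s e).n ≤ (fs ok (s+1) e).n := by
  rcases step_cases ok s e with h1 | ⟨-, h0, -, h1⟩ | ⟨-, -, h1⟩
  · rw [h1]
  · rw [h0]; exact Nat.zero_le _
  · exact stp_n h1

lemma step_act (s e : ℕ) : (fs ok (s+1) e).act = (fs ok s e).act ∨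
    ∃ m, (fs ok (s+1) e).act = m :: (fs ok s e).act := by
  rcases step_cases ok s e with h1 | ⟨-, h0, -, h1⟩ | ⟨-, -, h1⟩
  · rw [h1]; simp
  · rw [h0, h1]; left; rfl
  · exact stp_act h1

lemma step_act_len (s e : ℕ) : (fs ok s e).act.length ≤ (fs ok (s+1) e).act.length := by
  rcases step_act (ok := ok) s e with h | ⟨m, h⟩ <;> rw [h] <;> simp

lemma fs_r_mono (e : ℕ) : Monotone (fun s => (fs ok s e).r) :=
  monotone_nat_of_le_succ (fun s => step_r s e)

lemma fs_n_mono (e : ℕ) : Monotone (fun s => (fs ok s e).n) :=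
  monotone_nat_of_le_succ (fun s => step_n s e)

lemma fs_t_le (s e : ℕ) : (fs ok s e).t ≤ s := by
  rcases fs_good (ok := ok) s e with h | ⟨-, h⟩
  · rw [h]; exact Nat.zero_le _
  · exact h.ts

lemma act_len_le (s e : ℕ) : (fs ok s e).act.length ≤ e+1 := by
  rcases fs_good (ok := ok) s e with h | ⟨-, h⟩
  · rw [h]; exact Nat.zero_le _
  · have h1 : (fs ok s e).act ⊆ List.range (e+1) := by
      intro m hm
      have := h.actle m hm
      simp; omega
    have := (List.subperm_of_subset h.actnd h1).length_le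
    simpa using this

lemma pps_len_le (s e : ℕ) : (fs ok s e).pps.length ≤ e+1 := by
  rcases fs_good (ok := ok) s e with h | ⟨-, h⟩
  · rw [h]; exact Nat.zero_le _
  · exact h.ppsle

lemma ps_len_le (s e : ℕ) : (fs ok s e).ps.length ≤ e+1 := by
  rcases fs_good (ok := ok) s e with h | ⟨-, h⟩
  · rw [h]; exact Nat.zero_le _
  · exact h.psle

/-- bounded eventually monotone sequences are eventually constant -/
lemma ev_const (a : ℕ → ℕ) (N : ℕ) (hN : ∀ s, a s ≤ N) (s1 : ℕ)
    (hm : ∀ s, s1 ≤ s → a s ≤ a (s+1)) : ∃ s0, s1 ≤ s0 ∧ ∀ s, s0 ≤ s → a s = a s0 := by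
  have hmono : ∀ s s', s1 ≤ s → s ≤ s' → a s ≤ a s' := by
    intro s s' h1 h2
    induction s', h2 using Nat.le_induction with
    | base => exact le_rfl
    | succ k hk ih => exact ih.trans (hm k (by omega))
  by_contra hcon
  push Not at hcon
  have key : ∀ k, ∃ s, s1 ≤ s ∧ k ≤ a s := by
    intro k
    induction k with
    | zero => exact ⟨s1, le_rfl, Nat.zero_le _⟩
    | succ k ih =>
      obtain ⟨s, h1, h2⟩ := ih
      obtain ⟨s', h3, h4⟩ := hcon s h1
      have := hmono s s' h1 h3
      exact ⟨s', by omega, by omega⟩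
  obtain ⟨s, -, h⟩ := key (N+1)
  have := hN s
  omega

/-- eventually the active set does not change -/
lemma act_stable (ok : List ℕ → Bool) (e : ℕ) :
    ∃ s0, ∀ s, s0 ≤ s → (fs ok (s+1) e).act.length = (fs ok s e).act.length := by
  obtain ⟨s0, -, h⟩ := ev_const (fun s => (fs ok s e).act.length) (e+1)
    (fun s => act_len_le s e) 0 (fun s _ => step_act_len s e)
  exact ⟨s0, fun s hs => (h (s+1) (by omega)).trans (h s hs).symm⟩

/-- eventually the length of the previous record does not change -/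
lemma pps_stable (ok : List ℕ → Bool) (e : ℕ) :
    ∃ s0, ∀ s, s0 ≤ s → (fs ok (s+1) e).act.length = (fs ok s e).act.length ∧
      (fs ok s e).pps.length = (fs ok s0 e).pps.length := by
  obtain ⟨s1, h1⟩ := act_stable ok e
  obtain ⟨s0, h2, h⟩ := ev_const (fun s => (fs ok s e).pps.length) (e+1)
    (fun s => pps_len_le s e) s1 (fun s hs => by
      rcases step_cases ok s e with h3 | ⟨-, h0, -, h3⟩ | ⟨-, hg, h3⟩
      · rw [h3]
      · rw [h0]; exact Nat.zero_le _
      · exact stp_pps hg h3 (h1 s hs))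
  exact ⟨s0, fun s hs => ⟨h1 s (by omega), h s hs⟩⟩

/-- if the levels are unbounded then eventually the previous label is always outstanding -/
lemma outs_of_unbounded {e : ℕ} (hub : ∀ N, ∃ s, N < (fs ok s e).n) :
    ∃ s0, ∀ s, s0 ≤ s → ((fs ok (s+1) e).act.length = (fs ok s e).act.length ∧
      (fs ok s e).pps.length = (fs ok s0 e).pps.length) ∧ Outs (fs ok s e) := by
  obtain ⟨s0, h⟩ := pps_stable ok e
  refine ⟨s0, fun s hs => ⟨h s hs, ?_⟩⟩
  by_contra hno
  have key : ∀ s', s ≤ s' → ¬ Outs (fs ok s' e) ∧ ((fs ok s' e).r ≠ 0 → (fs ok s' e).n ≤ (fs ok s e).n) := by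
    intro s' hs'
    induction s', hs' using Nat.le_induction with
    | base => exact ⟨hno, fun _ => le_rfl⟩
    | succ k hk ih =>
      rcases step_cases ok k e with h3 | ⟨-, h0, -, h3⟩ | ⟨-, hg, h3⟩
      · rw [h3]; exact ih
      · rw [h3]; exact ⟨by simp [Outs, startS], fun _ => Nat.zero_le _⟩
      · obtain ⟨a1, a2, a3⟩ := stp_quiet h3 (h k (by omega)).1
          (((h (k+1) (by omega)).2).trans ((h k (by omega)).2).symm) ih.1
        rw [a2, a3]
        exact ⟨a1, ih.2⟩
  obtain ⟨s', hs'⟩ := hub (fs ok s e).n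
  have h1 : s ≤ s' := by
    by_contra hlt
    have := fs_n_mono (ok := ok) e (show s' ≤ s by omega)
    simp only at this
    omega
  have h2 := key s' h1
  by_cases hr : (fs ok s' e).r = 0
  · rcases fs_good (ok := ok) s' e with h' | h'
    · rw [h'] at hs'; simp [S0] at hs'
    · exact h'.2.rpos hr
  · have := h2.2 hr; omega

/-- the data of the previous label evolve coherently -/
lemma pv_step {L : List FS} {s e : ℕ} {S S' : FS} (hG : Good ok s e S) (h : Stp ok L s e S S')
    (ha : S'.act.length = S.act.length) (hp : S'.pps.length = S.pps.length) (ho : Outs S) :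
    (S'.pn = S.pn ∧ S'.pK = S.pK ∧ lastX S' = lastX S) ∨
    (S'.pn = S.n ∧ S'.pK = S.K ∧
      xv ((lastX S').drop (S.n - S.pn)) (lastX S) ∈ S.pK) := by
  have Ho := hG.out ho
  cases h with
  | admit m _ _ _ _ => simp [admitS] at ha
  | same _ _ => exact Or.inl ⟨rfl, rfl, rfl⟩
  | skip _ _ => exact Or.inl ⟨rfl, rfl, rfl⟩
  | crit x hle hact hx hR hu =>
    right
    refine ⟨rfl, rfl, ?_⟩
    simp only [critS, mkS_pps, List.length_append, List.length_cons, List.length_nil] at hp
    have e1 : S.ps.length = S.pps.length - 1 := by omega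
    have e2 : lastX (critS e s S x) = x := by
      unfold lastX
      simp only [critS, mkS_pps, List.length_append, List.length_cons, List.length_nil]
      exact getD_concat_eq
    rw [e2]
    rcases hx.2 with h1 | h1
    · omega
    · unfold lastX
      rw [← e1]; exact h1
  | proc x _ _ _ _ _ => exact Or.inl ⟨rfl, rfl, rfl⟩

end Pool.Agent.W2helper50
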