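import Pool.Agent.W2helper50.Lev

set_option autoImplicit false

/-! Final verification of the construction. -/

namespace Pool.Agent.W2helper50

open Nat.Partrec (Code)

variable {ok : List ℕ → Bool}

/-- marks of label `r` in the state `S` -/
def mA (S : FS) (r : ℕ) (v : V) : Prop :=
  (r < S.r ∧ ¬ (Outs S ∧ r+1 = S.r)) ∨ (Outs S ∧ r+1 = S.r ∧ v ∈ S.pK) ∨ (r = S.r ∧ v ∈ S.K)

instance (S : FS) (r : ℕ) (v : V) : Decidable (mA S r v) := by unfold mA; infer_instance

lemma mA_full {S : FS} {r : ℕ} (h : r < S.r) (h2 : ¬ (Outs S ∧ r+1 = S.r)) (v : V) : mA S r v :=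
  Or.inl ⟨h, h2⟩

lemma mA_S0 (r : ℕ) (v : V) : ¬ mA S0 r v := by
  simp [mA, S0, Outs]

lemma mA_cur {S : FS} {v : V} : mA S S.r v ↔ v ∈ S.K := by
  simp [mA]

lemma mA_prev {S : FS} {v : V} (ho : Outs S) (hr : S.r ≠ 0) : mA S (S.r-1) v ↔ v ∈ S.pK := by
  have e1 : S.r - 1 + 1 = S.r := by omega
  have e2 : S.r - 1 ≠ S.r := by omega
  simp [mA, e1, e2, ho]

lemma mA_stp {L : List FS} {s e : ℕ} {S S' : FS} (h : Stp ok L s e S S')
    {r : ℕ} {v : V} (hm : mA S r v) : mA S' r v := by
  cases h with
  | admit m _ _ _ _ =>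
    apply mA_full
    · simp only [admitS, mkS_r]
      rcases hm with h | h | h <;> omega
    · rintro ⟨h, -⟩
      simp [Outs, admitS] at h
  | same _ _ => exact hm
  | skip _ _ =>
    rcases hm with h | ⟨h1, h2, h3⟩ | h
    · left
      refine ⟨h.1, ?_⟩
      rintro ⟨h3, h4⟩
      apply h.2
      refine ⟨?_, h4⟩
      simp [Outs, skipS] at h3 ⊢
      omega
    · by_cases ho : Outs (skipS s S)
      · right; left; exact ⟨ho, h2, h3⟩
      · left
        refine ⟨?_, fun h => ho h.1⟩
        simp only [skipS, mkS_r]; omega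
    · right; right; exact h
  | crit x _ _ _ _ _ =>
    rcases hm with h | ⟨h1, h2, h3⟩ | h
    · left
      refine ⟨by simp only [critS, mkS_r]; omega, ?_⟩
      rintro ⟨-, h4⟩
      simp only [critS, mkS_r] at h4
      omega
    · left
      refine ⟨by simp only [critS, mkS_r]; omega, ?_⟩
      rintro ⟨-, h4⟩
      simp only [critS, mkS_r] at h4
      omega
    · right; left
      refine ⟨by simp [Outs, critS], by simp only [critS, mkS_r]; omega, h.2⟩
  | proc x _ _ _ _ _ =>
    rcases hm with h | ⟨h1, h2, h3⟩ | h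
    · left
      refine ⟨h.1, ?_⟩
      rintro ⟨h3, h4⟩
      apply h.2
      refine ⟨?_, h4⟩
      simp [Outs, procS] at h3 ⊢
      omega
    · by_cases ho : Outs (procS ok s S x)
      · right; left; exact ⟨ho, h2, h3⟩
      · left
        refine ⟨?_, fun h => ho h.1⟩
        simp only [procS, mkS_r]; omega
    · right; right; exact ⟨h.1, subset_sp _ _ h.2⟩

lemma mA_succ {s e r : ℕ} {v : V} (hm : mA (fs ok s e) r v) : mA (fs ok (s+1) e) r v := by
  rcases step_cases ok s e with h1 | ⟨-, h0, -, h1⟩ | ⟨-, -, h1⟩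
  · rw [h1]; exact hm
  · rw [h0] at hm; exact absurd hm (mA_S0 r v)
  · exact mA_stp h1 hm

lemma mA_mono {s s' e r : ℕ} {v : V} (h : s ≤ s') (hm : mA (fs ok s e) r v) :
    mA (fs ok s' e) r v := by
  induction s', h using Nat.le_induction with
  | base => exact hm
  | succ k _ ih => exact mA_succ ih

/-- the marks of the structure -/
def MkA (ok : List ℕ → Bool) (e r : ℕ) (v : V) : Prop := ∃ s, mA (fs ok s e) r v

/-- the family is final from stage `s0` on -/
def Fin' (ok : List ℕ → Bool) (e s0 : ℕ) : Prop := ∀ s, s0 ≤ s → fs ok s e = fs ok s0 e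

lemma Fin'.mkA {e s0 r : ℕ} {v : V} (h : Fin' ok e s0) : MkA ok e r v ↔ mA (fs ok s0 e) r v := by
  constructor
  · rintro ⟨s, hs⟩
    have h1 := mA_mono (le_max_left s s0) hs
    rw [h _ (le_max_right s s0)] at h1
    exact h1
  · intro h1; exact ⟨s0, h1⟩

lemma stab_of_r {e : ℕ} (R : ℕ) (hR : ∀ s, (fs ok s e).r ≤ R) : ∃ s0, Fin' ok e s0 := by
  obtain ⟨s1, -, h1⟩ := ev_const (fun s => (fs ok s e).r) R hR 0 (fun s _ => step_r s e)
  have hstep : ∀ s, s1 ≤ s → fs ok (s+1) e = fs ok s e ∨
      (fs ok s e).ps.length < (fs ok (s+1) e).ps.length := by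
    intro s hs
    have hr : (fs ok (s+1) e).r = (fs ok s e).r := (h1 (s+1) (by omega)).trans (h1 s hs).symm
    rcases step_cases ok s e with h3 | ⟨-, h0, -, h3⟩ | ⟨-, hG, h3⟩
    · exact Or.inl h3
    · rw [h3, h0] at hr
      simp [startS, S0] at hr
    · revert hr h3
      generalize fs ok (s+1) e = S'
      intro hr h3
      cases h3 with
      | admit m _ _ _ _ => simp [admitS] at hr
      | same _ _ => left; rfl
      | skip _ _ => right; simp [skipS]
      | crit x _ _ _ _ _ => simp [critS] at hr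
      | proc x _ _ _ _ _ => right; simp [procS]
  obtain ⟨s2, h2, h4⟩ := ev_const (fun s => (fs ok s e).ps.length) (e+1) (fun s => ps_len_le s e) s1
    (fun s hs => by
      rcases hstep s hs with h | h
      · rw [h]
      · exact h.le)
  refine ⟨s2, ?_⟩
  intro s hs
  induction s, hs using Nat.le_induction with
  | base => rfl
  | succ k hk ih =>
    rcases hstep k (by omega) with h | h
    · rw [h, ih]
    · have a1 : (fs ok k e).ps.length = (fs ok s2 e).ps.length := h4 k hk
      have a2 : (fs ok (k+1) e).ps.length = (fs ok s2 e).ps.length := h4 (k+1) (by omega)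
      omega

lemma full_of_not_fin {e : ℕ} (h : ¬ ∃ s0, Fin' ok e s0) (r : ℕ) (v : V) : MkA ok e r v := by
  have : ∃ s, r+1 < (fs ok s e).r := by
    by_contra hcon
    push Not at hcon
    exact h (stab_of_r (r+1) hcon)
  obtain ⟨s, hs⟩ := this
  exact ⟨s, mA_full (by omega) (by rintro ⟨-, h⟩; omega) v⟩

/-- a family whose function is total becomes final -/
lemma fin_of_total (hok : Primrec ok) (hnp : ∀ f, Computable f → ¬ Path ok f) {e : ℕ}
    (hg : ∀ j, ∃ s, (gk e j s).isSome = true) : ∃ s0, Fin' ok e s0 := by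
  obtain ⟨N, hN⟩ := levels_bounded hok hnp e
  obtain ⟨s1, -, h1⟩ := ev_const (fun s => (fs ok s e).n) N hN 0 (fun s _ => step_n s e)
  obtain ⟨s2, h2⟩ := act_stable ok e
  obtain ⟨s3, h3⟩ := hg ((fs ok s1 e).n + 1)
  set T := max s1 (max s2 s3) with hT
  have hb : ∀ s, T ≤ s → (fs ok s e).r ≤ (fs ok T e).r + 1 ∧
      ((fs ok T e).r ≠ 0 → (fs ok s e).r = (fs ok T e).r) ∧ ((fs ok T e).r = 0 → (fs ok s e).r ≤ 1) := by
    intro s hs
    induction s, hs using Nat.le_induction with
    | base => exact ⟨by omega, fun _ => rfl, fun h => by omega⟩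
    | succ k hk ih =>
      rcases step_cases ok k e with h4 | ⟨-, h0, -, h4⟩ | ⟨-, hG, h4⟩
      · rw [h4]; exact ih
      · have e1 : (fs ok (k+1) e).r = 1 := by rw [h4]; rfl
        have e2 : (fs ok k e).r = 0 := by rw [h0]; rfl
        have e3 := fs_r_mono (ok := ok) e hk
        simp only at e3
        exact ⟨by omega, by omega, by omega⟩
      · have a1 := h2 k (by omega)
        have a2 : (fs ok (k+1) e).n = (fs ok k e).n := (h1 (k+1) (by omega)).trans (h1 k (by omega)).symm
        have a3 : (gk e ((fs ok k e).n+1) k).isSome = true := by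
          have e1 : (fs ok k e).n = (fs ok s1 e).n := h1 k (by omega)
          rw [e1]
          exact gk_isSome_mono (by omega) h3
        have key : (fs ok (k+1) e).r = (fs ok k e).r := by
          revert a1 a2 h4
          generalize fs ok (k+1) e = S'
          intro h4 a1 a2
          cases h4 with
          | admit m _ _ _ _ => simp [admitS] at a1
          | same _ _ => rfl
          | skip _ _ => rfl
          | crit x _ _ _ _ _ =>
            simp only [critS, mkS_n, newN] at a2
            rw [if_pos a3] at a2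
            omega
          | proc x _ _ _ _ _ => rfl
        rw [key]; exact ih
  apply stab_of_r ((fs ok T e).r + 1)
  intro s
  rcases le_total T s with h | h
  · exact (hb s h).1
  · have := fs_r_mono (ok := ok) e h
    simp only at this
    omega

lemma stuck {L : List FS} {s e : ℕ} {S : FS} (hr : S.r ≠ 0) (ht : S.t ≤ s)
    (h : stepF ok L s e S = S) : candL L s e S = [] ∧ (e < S.ps.length ∨
      (S.ps.length ≤ e ∧ S.ps.length ∈ S.act ∧ respL s e S = [])) := by
  have h1 := stepF_stp (ok := ok) (L := L) (s := s) (e := e) hr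
  revert h h1
  generalize stepF ok L s e S = S'
  intro h h1
  cases h1 with
  | admit m _ _ _ _ => have := congrArg FS.t h; simp [admitS] at this; omega
  | same h1 h2 => exact ⟨h1, h2⟩
  | skip _ _ => have := congrArg FS.t h; simp [skipS] at this; omega
  | crit x _ _ _ _ _ => have := congrArg FS.t h; simp [critS] at this; omega
  | proc x _ _ _ _ _ => have := congrArg FS.t h; simp [procS] at this; omega

lemma Fin'.mono {e s0 s1 : ℕ} (h : Fin' ok e s0) (hs : s0 ≤ s1) : Fin' ok e s1 := by
  intro s hs'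
  rw [h s (by omega), h s1 hs]

lemma Fin'.stuck {e s0 : ℕ} (h : Fin' ok e s0) (hr : (fs ok s0 e).r ≠ 0) {s : ℕ} (hs : s0 ≤ s) :
    candL (St ok s) s e (fs ok s0 e) = [] ∧ (e < (fs ok s0 e).ps.length ∨
      ((fs ok s0 e).ps.length ≤ e ∧ (fs ok s0 e).ps.length ∈ (fs ok s0 e).act ∧
        respL s e (fs ok s0 e) = [])) := by
  have hG := fs_good_of_r hr
  have he : e ≤ s := by
    have := hG.te; have := hG.ts; omega
  apply W2helper50.stuck hr (hG.ts.trans hs)
  have h1 := fs_succ (ok := ok) he
  rw [h (s+1) (by omega), h s hs] at h1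
  exact h1.symm

/-- the `m`-th c.e. set is a translate of the marks -/
def Real (ok : List ℕ → Bool) (m : ℕ) (w : ℕ → ℕ → ℕ) : Prop :=
  ∀ e r v, W m e r v ↔ MkA ok e r (xv v (lst (w e) v.length))

lemma real_resp {m : ℕ} {w : ℕ → ℕ → ℕ} (hR : Real ok m w) {e s0 : ℕ} (h : Fin' ok e s0)
    (hr : (fs ok s0 e).r ≠ 0) : ∃ s1, ∀ s, s1 ≤ s →
      lst (w e) ((fs ok s0 e).n+1) ∈ Rsp m s e (fs ok s0 e).r := by
  have hG := fs_good_of_r hr
  have h1 : W m e (fs ok s0 e).r (lst (w e) ((fs ok s0 e).n+1)) := by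
    rw [hR, h.mkA, mA_cur, lst_length, xv_self, lst_length]
    exact hG.grp.zero
  obtain ⟨s1, hs1⟩ := Rsp_complete h1
  exact ⟨s1, fun s hs => Rsp_mono hs hs1⟩

lemma real_pos {m : ℕ} {w : ℕ → ℕ → ℕ} (hR : Real ok m w) {e s0 : ℕ} (h : Fin' ok e s0) {s r : ℕ}
    {x : V} (hx : x ∈ Rsp m s e r) : mA (fs ok s0 e) r (xv x (lst (w e) x.length)) := by
  rw [← h.mkA, ← hR]
  exact Rsp_sound hx

/-- no family waits forever for a real opponent -/
lemma real_resolved {m : ℕ} {w : ℕ → ℕ → ℕ} (hR : Real ok m w) {e s0 : ℕ} (h : Fin' ok e s0)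
    (hw : Waits (fs ok s0 e) m) : False := by
  obtain ⟨hr, hps, hact⟩ := hw
  have hG := fs_good_of_r hr
  obtain ⟨s1, hs1⟩ := real_resp hR h hr
  set S := fs ok s0 e with hS
  have h1 := h.stuck hr (le_max_left s0 s1)
  rw [← hS] at h1
  rcases h1.2 with h2 | ⟨-, -, h2⟩
  · have := hG.actle m hact; omega
  · have hx := hs1 _ (le_max_right s0 s1)
    have : lst (w e) (S.n+1) ∈ respL (max s0 s1) e S := by
      unfold respL
      rw [List.mem_filter]
      refine ⟨by rw [hps]; exact hx, ?_⟩
      simp only [decide_eq_true_eq]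
      refine ⟨by simp, ?_⟩
      rcases Nat.lt_or_ge S.ps.length S.pps.length with ho | ho
      · right
        have Ho := hG.out ho
        obtain ⟨p1, p2⟩ := Ho.pos m (by omega) hact
        have h3 := real_pos hR h p2
        rw [← hS, mA_prev ho hr, p1] at h3
        have e1 : S.n + 1 = S.pn + 1 + (S.n - S.pn) := by rcases Ho.lev with h | h <;> omega
        rw [e1, lst_drop, hps, xv_comm]
        exact h3
      · left; exact ho
    rw [h2] at this
    simp at this

/-- opponents that block forever are admitted to finitely many families -/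
lemma wait_finite (ok : List ℕ → Bool) (i : ℕ) :
    ∃ B, ∀ e s0, Fin' ok e s0 → Waits (fs ok s0 e) i → e ≤ B := by
  by_cases hex : ∃ e' s0', Fin' ok e' s0' ∧ Waits (fs ok s0' e') i
  · obtain ⟨e', s0', hf', hw'⟩ := hex
    refine ⟨max s0' (fs ok s0' e').t, ?_⟩
    intro e s0 hf hw
    -- stage of admission
    have hst : ∃ s, i ∉ (fs ok s e).act ∧ i ∈ (fs ok (s+1) e).act := by
      by_contra hcon
      push Not at hcon
      have : ∀ s, i ∉ (fs ok s e).act := by
        intro s
        induction s with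
        | zero => rw [fs_ge (Nat.zero_le e)]; simp [S0]
        | succ s ih => exact hcon s ih
      exact this s0 hw.2.2
    obtain ⟨s, hs1, hs2⟩ := hst
    rcases step_cases ok s e with h3 | ⟨-, h0, -, h3⟩ | ⟨hes, hG, h3⟩
    · rw [h3] at hs2; exact absurd hs2 hs1
    · rw [h3] at hs2; simp [startS] at hs2
    · have hnb : ¬ Blocked (St ok s) (fs ok s e).t i := by
        revert hs2 h3
        generalize fs ok (s+1) e = S'
        intro hs2 h3
        cases h3 with
        | admit m _ _ _ hb =>
          simp only [admitS, mkS_act, List.mem_cons] at hs2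
          rcases hs2 with h | h
          · rw [h]; exact hb
          · exact absurd h hs1
        | same _ _ => exact absurd hs2 hs1
        | skip _ _ => exact absurd hs2 hs1
        | crit x _ _ _ _ _ => exact absurd hs2 hs1
        | proc x _ _ _ _ _ => exact absurd hs2 hs1
      have hte := hG.te
      have hts := hG.ts
      rcases Nat.lt_or_ge s s0' with hlt | hge
      · exact le_trans (by omega) (le_max_left _ _)
      · have hr' := hw'.1
        have hG' := fs_good_of_r hr'
        have hmem : fs ok s0' e' ∈ St ok s := by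
          rw [mem_St]
          refine ⟨e', ?_, (hf' s hge).symm⟩
          have := hG'.te; have := hG'.ts; omega
        have : ¬ (fs ok s0' e').t < (fs ok s e).t := fun hlt => hnb ⟨_, hmem, hw', hlt⟩
        exact le_trans (by omega) (le_max_right _ _)
  · exact ⟨0, fun e s0 h1 h2 => absurd ⟨e, s0, h1, h2⟩ hex⟩

lemma t_ge {e T s : ℕ} (hs : T ≤ s) (ht : T ≤ (fs ok s e).t) : ∀ s', s ≤ s' → T ≤ (fs ok s' e).t := by
  intro s' hs'
  induction s', hs' using Nat.le_induction with
  | base => exact ht
  | succ k hk ih =>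
    rcases step_t (ok := ok) k e with h | h
    · rw [h]; exact ih
    · rw [h]; omega

/-- real opponents are admitted -/
lemma real_admitted {m : ℕ} {w : ℕ → ℕ → ℕ} (hR : Real ok m w) {e s0 : ℕ} (h : Fin' ok e s0)
    (hr : (fs ok s0 e).r ≠ 0) (hme : m ≤ e) : m ∈ (fs ok s0 e).act := by
  by_contra hna
  have hG := fs_good_of_r hr
  obtain ⟨s1, hs1⟩ := real_resp hR h hr
  set S := fs ok s0 e with hS
  -- each family eventually stops blocking
  have hev : ∀ e', ∃ s', ∀ s, s' ≤ s → ¬ (Waits (fs ok s e') m ∧ (fs ok s e').t < S.t) := by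
    intro e'
    by_contra hcon
    push Not at hcon
    have hlt : ∀ s, S.t ≤ s → (fs ok s e').t < S.t := by
      intro s hs
      by_contra hge
      push Not at hge
      obtain ⟨s', h1, h2, h3⟩ := hcon s
      have := t_ge hs hge s' h1
      omega
    have hfin : Fin' ok e' S.t := by
      intro s hs
      induction s, hs using Nat.le_induction with
      | base => rfl
      | succ k hk ih =>
        rcases step_t (ok := ok) k e' with h4 | h4
        · rw [h4, ih]
        · have := hlt (k+1) (by omega); omega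
    obtain ⟨s', h1, h2, h3⟩ := hcon S.t
    rw [hfin s' h1] at h2
    exact real_resolved hR hfin h2
  obtain ⟨D, hD⟩ := uniform_bound (l := List.range S.t)
    (A := fun e' d => ∀ s, d ≤ s → ¬ (Waits (fs ok s e') m ∧ (fs ok s e').t < S.t))
    (fun t d h s hs => h s (by omega)) (fun e' _ => hev e')
  let s := max (max s0 s1) D
  have h1 := h.stuck hr (s := s) (le_trans (le_max_left s0 s1) (le_max_left _ _))
  rw [← hS] at h1
  have h2 : m ∈ candL (St ok s) s e S := by
    unfold candL
    rw [List.mem_filter, List.mem_range]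
    refine ⟨by omega, ?_⟩
    simp only [decide_eq_true_eq]
    refine ⟨hna, ?_, ?_⟩
    · intro h0
      have := hs1 s (le_trans (le_max_right s0 s1) (le_max_left _ _))
      rw [h0] at this
      simp at this
    · rintro ⟨S', hS', hw, ht⟩
      obtain ⟨e', he', rfl⟩ := mem_St.1 hS'
      have hG' := fs_good_of_r hw.1
      have hlt : e' < S.t := by have := hG'.te; omega
      exact hD e' (List.mem_range.2 hlt) s (le_max_right _ _) ⟨hw, ht⟩
  rw [h1.1] at h2
  simp at h2

lemma real_pointer {m : ℕ} {w : ℕ → ℕ → ℕ} (hR : Real ok m w) :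
    ∃ e0, m ≤ e0 ∧ ∀ e, e0 ≤ e → ∀ s0, Fin' ok e s0 → (fs ok s0 e).r ≠ 0 →
      m ∈ (fs ok s0 e).act ∧ m < (fs ok s0 e).ps.length := by
  choose B hB using wait_finite ok
  obtain ⟨D, hD⟩ := uniform_bound (l := List.range m) (A := fun i d => B i ≤ d)
    (fun t d h => by omega) (fun i _ => ⟨B i, le_rfl⟩)
  refine ⟨max m (D+1), le_max_left _ _, ?_⟩
  intro e he s0 hf hr
  have hme : m ≤ e := le_trans (le_max_left _ _) he
  have hDe : D + 1 ≤ e := le_trans (le_max_right _ _) he
  refine ⟨real_admitted hR hf hr hme, ?_⟩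
  by_contra hcon
  push Not at hcon
  have h1 := (hf.stuck hr le_rfl).2
  rcases h1 with h1 | ⟨h1, h2, -⟩
  · omega
  · have hw : Waits (fs ok s0 e) (fs ok s0 e).ps.length := ⟨hr, rfl, h2⟩
    rcases Nat.lt_or_ge (fs ok s0 e).ps.length m with h3 | h3
    · have h4 := hB _ e s0 hf hw
      have h5 : B (fs ok s0 e).ps.length ≤ D := hD _ (List.mem_range.2 h3)
      omega
    · have : (fs ok s0 e).ps.length = m := by omega
      rw [this] at hw
      exact real_resolved hR hf hw

/-- invariance of marks under the translations given by paths -/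
lemma real_inv {m : ℕ} {w : ℕ → ℕ → ℕ} (hR : Real ok m w) :
    ∃ e0, ∀ e, e0 ≤ e → ∀ f, Path ok f → ∀ r v, MkA ok e r v →
      MkA ok e r (xv v (lst (fun j => w e j ^^^ ec m (lst f j)) v.length)) := by
  obtain ⟨e0, -, he0⟩ := real_pointer hR
  refine ⟨e0, ?_⟩
  intro e he f hf r v hv
  by_cases hfin : ∃ s0, Fin' ok e s0
  · obtain ⟨s0, hs0⟩ := hfin
    rw [hs0.mkA] at hv ⊢
    by_cases hr : (fs ok s0 e).r = 0
    · rcases fs_good (ok := ok) s0 e with h | h
      · rw [h] at hv; exact absurd hv (mA_S0 _ _)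
      · exact absurd hr h.2.rpos
    · obtain ⟨hact, hlt⟩ := he0 e he s0 hs0 hr
      have hG := fs_good_of_r hr
      set S := fs ok s0 e with hS
      rcases hv with h | ⟨h1, h2, h3⟩ | ⟨h1, h2⟩
      · exact mA_full h.1 h.2 _
      · right; left
        refine ⟨h1, h2, ?_⟩
        have Ho := hG.out h1
        have ho := h1
        unfold Outs at ho
        have hlen := Ho.grp.len v h3
        apply Ho.grp.add _ h3
        obtain ⟨p1, p2⟩ := Ho.pos m (by omega) hact
        have h4 := real_pos hR hs0 p2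
        rw [← hS, mA_prev h1 hr, p1] at h4
        have h5 := Ho.gen m (by omega) hact _ (hf S.pn)
        have h6 := Ho.grp.add _ h4 _ h5
        rw [ev_lst, xv_comm (S.pps.getD m []), xv_assoc, xv_cancel (by rw [lst_length, p1]), lst_xv] at h6
        rw [hlen]; exact h6
      · right; right
        refine ⟨h1, ?_⟩
        have hlen := hG.grp.len v h2
        apply hG.grp.add _ h2
        obtain ⟨p1, p2, p3⟩ := hG.pos m hlt hact
        have h4 := real_pos hR hs0 p2
        rw [← hS, mA_cur, p1] at h4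
        have h5 := p3 _ (hf S.n)
        have h6 := hG.grp.add _ h4 _ h5
        rw [ev_lst, xv_comm (S.ps.getD m []), xv_assoc, xv_cancel (by rw [lst_length, p1]), lst_xv] at h6
        rw [hlen]; exact h6
  · exact full_of_not_fin hfin _ _

/-- the labels of a family are full or of bounded length -/
lemma mk_bounded (ok : List ℕ → Bool) (e : ℕ) :
    ∃ N, ∀ r, (∀ v, MkA ok e r v) ∨ (∀ v, MkA ok e r v → v.length ≤ N) := by
  by_cases hfin : ∃ s0, Fin' ok e s0
  · obtain ⟨s0, hs0⟩ := hfin
    rcases fs_good (ok := ok) s0 e with h | ⟨-, hG⟩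
    · refine ⟨0, fun r => Or.inr ?_⟩
      intro v hv
      rw [hs0.mkA, h] at hv
      exact absurd hv (mA_S0 _ _)
    · refine ⟨max ((fs ok s0 e).n+1) ((fs ok s0 e).pn+1), fun r => ?_⟩
      by_cases hful : r < (fs ok s0 e).r ∧ ¬ (Outs (fs ok s0 e) ∧ r+1 = (fs ok s0 e).r)
      · left; intro v; rw [hs0.mkA]; exact Or.inl hful
      · right
        intro v hv
        rw [hs0.mkA] at hv
        rcases hv with h | ⟨h1, h2, h3⟩ | ⟨h1, h2⟩
        · exact absurd h hful
        · rw [(hG.out h1).grp.len v h3]; exact le_max_right _ _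
        · rw [hG.grp.len v h2]; exact le_max_left _ _
  · exact ⟨0, fun r => Or.inl (fun v => full_of_not_fin hfin r v)⟩

end Pool.Agent.W2helper50
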