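import Pool.Agent.W2helper50.Constr

set_option autoImplicit false

/-! Invariants of the construction. -/

namespace Pool.Agent.W2helper50

open Nat.Partrec (Code)

variable {ok : List ℕ → Bool}

/-- the previous label is outstanding -/
def Outs (S : FS) : Prop := S.ps.length < S.pps.length

instance (S : FS) : Decidable (Outs S) := by unfold Outs; infer_instance

/-- last recorded position of the critical opponent -/
def lastX (S : FS) : V := S.pps.getD (S.pps.length-1) []

structure OutInv (ok : List ℕ → Bool) (s e : ℕ) (S : FS) : Prop where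
  grp : Grp (S.pn+1) S.pK
  u : uv (S.pn+1) ∉ S.pK
  lev : S.n = S.pn ∨ S.n = S.pn+1
  proj : ∀ v ∈ S.K, v.drop (S.n - S.pn) ∈ S.pK
  cact : S.pps.length-1 ∈ S.act
  cle : S.pps.length-1 ≤ e
  pos : ∀ m < S.pps.length, m ∈ S.act → (S.pps.getD m []).length = S.pn+1 ∧
    S.pps.getD m [] ∈ Rsp m s e (S.r-1)
  gen : ∀ m < S.pps.length-1, m ∈ S.act → ∀ τ ∈ Tn ok S.pn, xv (S.pps.getD m []) (ev m τ) ∈ S.pK
  crit : uv (S.pn+1) ∈ sp S.pK ((Tn ok S.pn).map (fun τ => xv (lastX S) (ev (S.pps.length-1) τ)))
  bnd : ∀ c, S.pps.length-1 ≤ c → ∃ L : List V, L.length ≤ 2^(S.pps.length-1) ∧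
    ∀ k ∈ S.pK, Ps ok c S.pn k ∈ L
  rge : 2 ≤ S.r

structure Good (ok : List ℕ → Bool) (s e : ℕ) (S : FS) : Prop where
  rpos : S.r ≠ 0
  te : e < S.t
  ts : S.t ≤ s
  actle : ∀ m ∈ S.act, m ≤ e
  actnd : S.act.Nodup
  grp : Grp (S.n+1) S.K
  u : uv (S.n+1) ∉ S.K
  psle : S.ps.length ≤ e+1
  ppsle : S.pps.length ≤ e+1
  pos : ∀ m < S.ps.length, m ∈ S.act → (S.ps.getD m []).length = S.n+1 ∧
    S.ps.getD m [] ∈ Rsp m s e S.r ∧ ∀ τ ∈ Tn ok S.n, xv (S.ps.getD m []) (ev m τ) ∈ S.K
  bnd : ∀ c, S.ps.length ≤ c → ∃ L : List V, L.length ≤ 2^S.ps.length ∧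
    (∀ p ∈ L, p.length = S.n+2) ∧ ∀ k ∈ S.K, Ps ok c S.n k ∈ L
  out : Outs S → OutInv ok s e S
  g : ∀ j ≤ S.n, (gk e j s).isSome = true

lemma OutInv.mono {s s' e : ℕ} {S : FS} (h : s ≤ s') (H : OutInv ok s e S) : OutInv ok s' e S where
  grp := H.grp
  u := H.u
  lev := H.lev
  proj := H.proj
  cact := H.cact
  cle := H.cle
  pos := fun m hm ha => ⟨(H.pos m hm ha).1, Rsp_mono h (H.pos m hm ha).2⟩
  gen := H.gen
  crit := H.crit
  bnd := H.bnd
  rge := H.rge

lemma gk_isSome_mono {e j s s' : ℕ} (h : s ≤ s') (hx : (gk e j s).isSome = true) :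
    (gk e j s').isSome = true := by
  obtain ⟨x, hx⟩ := Option.isSome_iff_exists.1 hx
  rw [gk_mono h hx]; rfl

lemma Good.mono {s s' e : ℕ} {S : FS} (h : s ≤ s') (H : Good ok s e S) : Good ok s' e S where
  rpos := H.rpos
  te := H.te
  ts := H.ts.trans h
  actle := H.actle
  actnd := H.actnd
  grp := H.grp
  u := H.u
  psle := H.psle
  ppsle := H.ppsle
  pos := fun m hm ha => ⟨(H.pos m hm ha).1, Rsp_mono h (H.pos m hm ha).2.1, (H.pos m hm ha).2.2⟩
  bnd := H.bnd
  out := fun ho => (H.out ho).mono h
  g := fun j hj => gk_isSome_mono h (H.g j hj)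

lemma bnd_zero (c n : ℕ) : ∃ L : List V, L.length ≤ 2^0 ∧
    (∀ p ∈ L, p.length = n+2) ∧ ∀ k ∈ [zv (n+1)], Ps ok c n k ∈ L :=
  ⟨[Ps ok c n (zv (n+1))], by simp, by simp [Ps_length], by simp⟩

lemma good_start {s e : ℕ} (he : e ≤ s) (hg : (gk e 0 s).isSome = true) :
    Good ok (s+1) e (startS s) where
  rpos := by simp [startS]
  te := by simp [startS]; omega
  ts := by simp [startS]
  actle := by simp [startS]
  actnd := by simp [startS]
  grp := grp_zero 1
  u := by simp only [startS, mkS_n, mkS_K, List.mem_singleton]; exact uv_ne_zv (by omega)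
  psle := by simp [startS]
  ppsle := by simp [startS]
  pos := by simp [startS]
  bnd := fun c _ => bnd_zero c 0
  out := by simp [startS, Outs]
  g := by
    intro j hj
    simp only [startS, mkS_n, Nat.le_zero] at hj
    subst hj
    exact gk_isSome_mono (Nat.le_succ s) hg

lemma good_admit {s e : ℕ} {S : FS} (he : e ≤ s) (H : Good ok s e S) {m : ℕ} (hm : m ≤ e)
    (hna : m ∉ S.act) : Good ok (s+1) e (admitS s S m) where
  rpos := by simp [admitS]
  te := by simp [admitS]; omega
  ts := by simp [admitS]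
  actle := by
    simp only [admitS, mkS_act, List.mem_cons, forall_eq_or_imp]
    exact ⟨hm, H.actle⟩
  actnd := by simp only [admitS, mkS_act, List.nodup_cons]; exact ⟨hna, H.actnd⟩
  grp := grp_zero _
  u := by simp only [admitS, mkS_n, mkS_K, List.mem_singleton]; exact uv_ne_zv (by omega)
  psle := by simp [admitS]
  ppsle := by simp [admitS]
  pos := by simp [admitS]
  bnd := fun c _ => bnd_zero c _
  out := by simp [admitS, Outs]
  g := fun j hj => gk_isSome_mono (Nat.le_succ s) (H.g j hj)

lemma getD_concat_lt {l : List V} {x : V} {m : ℕ} (h : m < l.length) :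
    (l ++ [x]).getD m [] = l.getD m [] := by
  rw [List.getD_eq_getElem?_getD, List.getD_eq_getElem?_getD, List.getElem?_append_left h]

lemma getD_concat_eq {l : List V} {x : V} : (l ++ [x]).getD l.length [] = x := by
  rw [List.getD_eq_getElem?_getD]; simp

lemma good_skip {s e : ℕ} {S : FS} (he : e ≤ s) (H : Good ok s e S) (hle : S.ps.length ≤ e)
    (hna : S.ps.length ∉ S.act) : Good ok (s+1) e (skipS s S) := by
  have hout : Outs (skipS s S) → Outs S := by
    simp only [skipS, Outs, mkS_ps, mkS_pps, List.length_append, List.length_cons, List.length_nil]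
    omega
  refine ⟨H.rpos, by simp [skipS]; omega, by simp [skipS], H.actle, H.actnd, H.grp, H.u, ?_,
    H.ppsle, ?_, ?_, ?_, fun j hj => gk_isSome_mono (Nat.le_succ s) (H.g j hj)⟩
  · simp [skipS]; omega
  · intro m hm ha
    simp only [skipS, mkS_ps, List.length_append, List.length_cons, List.length_nil, mkS_act] at hm ha
    have hlt : m < S.ps.length := by
      rcases Nat.lt_or_ge m S.ps.length with h | h
      · exact h
      · have : m = S.ps.length := by omega
        subst this; exact absurd ha hna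
    obtain ⟨h1, h2, h3⟩ := H.pos m hlt ha
    simp only [skipS, mkS_ps, mkS_n, mkS_r, mkS_K]
    rw [getD_concat_lt hlt]
    exact ⟨h1, Rsp_mono (Nat.le_succ s) h2, h3⟩
  · intro c hc
    simp only [skipS, mkS_ps, List.length_append, List.length_cons, List.length_nil] at hc ⊢
    obtain ⟨L, hL1, hL2⟩ := H.bnd c (by omega)
    exact ⟨L, hL1.trans (Nat.pow_le_pow_right (by omega) (by omega)), hL2⟩
  · intro ho
    have Ho := (H.out (hout ho)).mono (Nat.le_succ s)
    exact ⟨Ho.grp, Ho.u, Ho.lev, Ho.proj, Ho.cact, Ho.cle, Ho.pos, Ho.gen, Ho.crit, Ho.bnd, Ho.rge⟩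

/-- when the previous label is outstanding, opponents below the critical one cannot be critical -/
lemma newK_proj {s e : ℕ} {S : FS} (Ho : OutInv ok s e S)
    (hlt : S.ps.length < S.pps.length - 1) (ha : S.ps.length ∈ S.act) {x : V} (hx : Cons S x) :
    ∀ v ∈ newK ok S x, v.drop (S.n - S.pn) ∈ S.pK := by
  unfold newK
  apply sp_induction
  · exact Ho.proj
  · intro y hy v hv
    rw [List.mem_map] at hy
    obtain ⟨τ, hτ, rfl⟩ := hy
    rw [xv_drop]
    apply Ho.grp.add _ _ _ hv
    rw [xv_drop]
    obtain ⟨hxl, hx2⟩ := hx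
    have hx3 : xv (x.drop (S.n - S.pn)) (S.pps.getD S.ps.length []) ∈ S.pK := by
      rcases hx2 with h | h
      · omega
      · exact h
    have hτl := Tn_length hτ
    have hd : S.n - S.pn ≤ τ.length := by omega
    rw [ev_drop _ _ _ hd]
    have hτ' : τ.drop (S.n - S.pn) ∈ Tn ok S.pn := by
      apply Tn_drop
      have : S.pn + (S.n - S.pn) = S.n := by rcases Ho.lev with h | h <;> omega
      rw [this]; exact hτ
    have hg := Ho.gen S.ps.length hlt ha _ hτ'
    have h4 := Ho.grp.add _ hx3 _ hg
    obtain ⟨h5, -⟩ := Ho.pos S.ps.length (by omega) ha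
    have h6 : (ev S.ps.length (τ.drop (S.n - S.pn))).length = S.pn + 1 := by
      rw [ev_length, Tn_length hτ']
    rw [xv_assoc, xv_cancel (by rw [h5, h6])] at h4
    exact h4

lemma newK_grp {s e : ℕ} {S : FS} (H : Good ok s e S) {x : V} (hx : x.length = S.n+1) :
    Grp (S.n+1) (newK ok S x) := by
  apply grp_sp H.grp
  intro y hy
  rw [List.mem_map] at hy
  obtain ⟨τ, hτ, rfl⟩ := hy
  simp [hx, Tn_length hτ]

lemma newK_gen {s e : ℕ} {S : FS} (H : Good ok s e S) {x : V} (hx : x.length = S.n+1) :
    ∀ τ ∈ Tn ok S.n, xv x (ev S.ps.length τ) ∈ newK ok S x := by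
  intro τ hτ
  apply gen_mem_sp H.grp
  · intro y hy
    rw [List.mem_map] at hy
    obtain ⟨τ, hτ, rfl⟩ := hy
    simp [hx, Tn_length hτ]
  · exact List.mem_map_of_mem (f := fun τ => xv x (ev S.ps.length τ)) hτ

lemma good_proc {s e : ℕ} {S : FS} (he : e ≤ s) (H : Good ok s e S) (hle : S.ps.length ≤ e)
    (ha : S.ps.length ∈ S.act) {x : V} (hx : Cons S x) (hR : x ∈ Rsp S.ps.length s e S.r)
    (hu : uv (S.n+1) ∉ newK ok S x) : Good ok (s+1) e (procS ok s S x) := by
  have hxl := hx.1
  have hgrp := newK_grp H hxl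
  have hgen := newK_gen H hxl
  refine ⟨H.rpos, by simp [procS]; omega, by simp [procS], H.actle, H.actnd, hgrp, hu, ?_,
    H.ppsle, ?_, ?_, ?_, fun j hj => gk_isSome_mono (Nat.le_succ s) (H.g j hj)⟩
  · simp [procS]; omega
  · intro m hm hma
    simp only [procS, mkS_ps, List.length_append, List.length_cons, List.length_nil, mkS_act] at hm hma
    simp only [procS, mkS_ps, mkS_n, mkS_r, mkS_K]
    rcases Nat.lt_or_ge m S.ps.length with hlt | hge
    · obtain ⟨h1, h2, h3⟩ := H.pos m hlt hma
      rw [getD_concat_lt hlt]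
      exact ⟨h1, Rsp_mono (Nat.le_succ s) h2, fun τ hτ => subset_sp _ _ (h3 τ hτ)⟩
    · have : m = S.ps.length := by omega
      subst this
      rw [getD_concat_eq]
      exact ⟨hxl, Rsp_mono (Nat.le_succ s) hR, hgen⟩
  · intro c hc
    simp only [procS, mkS_ps, List.length_append, List.length_cons, List.length_nil, mkS_n,
      mkS_K] at hc ⊢
    obtain ⟨L, hL1, hL3, hL2⟩ := H.bnd c (by omega)
    refine ⟨L ++ L.map (xv (Ps ok c S.n x)), ?_, ?_, ?_⟩
    · simp only [List.length_append, List.length_map, zero_add, pow_succ]; omega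
    · intro p hp
      simp only [List.mem_append, List.mem_map] at hp
      rcases hp with hp | ⟨p', hp', rfl⟩
      · exact hL3 p hp
      · rw [xv_length, Ps_length, hL3 p' hp']; simp
    · have key : ∀ k ∈ newK ok S x, (k ≠ [] ∧ k.length = S.n + 1 ∧ ∃ p ∈ L,
          Ps ok c S.n k = p ∨ Ps ok c S.n k = xv (Ps ok c S.n x) p) := by
        unfold newK
        apply sp_induction
        · intro v hv
          have hvl := H.grp.len v hv
          exact ⟨by intro h0; rw [h0] at hvl; simp at hvl, hvl, _, hL2 v hv, Or.inl rfl⟩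
        · intro y hy v hv
          rw [List.mem_map] at hy
          obtain ⟨τ, hτ, rfl⟩ := hy
          obtain ⟨hv1, hv2, p, hp, hv3⟩ := hv
          have hxne : x ≠ [] := by intro h0; rw [h0] at hxl; simp at hxl
          have hlen : (xv (xv x (ev S.ps.length τ)) v).length = S.n+1 := by
            simp [hxl, Tn_length hτ, hv2]
          have hne : xv x (ev S.ps.length τ) ≠ [] := by
            intro h0
            have := congrArg List.length h0
            simp [hxl] at this
          refine ⟨by intro h0; rw [h0] at hlen; simp at hlen, hlen, p, hp, ?_⟩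
          rw [Ps_xv hne hv1, Ps_xv hxne (ev_ne_nil _ _), Ps_ev_ne (by omega)]
          have hpl : p.length = S.n + 2 := hL3 p hp
          rw [xv_zv (by rw [Ps_length])]
          rcases hv3 with h | h
          · right; rw [h]
          · left; rw [h, xv_cancel]; rw [Ps_length, hpl]
      intro k hk
      obtain ⟨-, -, p, hp, h⟩ := key k hk
      rcases h with h | h
      · rw [h]; simp [hp]
      · rw [h]; simp only [List.mem_append, List.mem_map]; right; exact ⟨p, hp, rfl⟩
  · intro ho
    have ho' : S.ps.length + 1 < S.pps.length := by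
      simpa [procS, Outs] using ho
    have Ho := (H.out (by unfold Outs; omega))
    have Ho' := Ho.mono (Nat.le_succ s)
    exact ⟨Ho.grp, Ho.u, Ho.lev, newK_proj Ho (by omega) ha hx, Ho.cact, Ho.cle, Ho'.pos, Ho.gen,
      Ho.crit, Ho.bnd, Ho.rge⟩

/-- the critical opponent is not below the previous critical one -/
lemma crit_ge {s e : ℕ} {S : FS} (H : Good ok s e S) (ha : S.ps.length ∈ S.act) {x : V}
    (hx : Cons S x) (hu : uv (S.n+1) ∈ newK ok S x) : S.pps.length ≤ S.ps.length + 1 := by
  by_contra hcon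
  push Not at hcon
  have Ho := H.out (by unfold Outs; omega)
  have h1 := newK_proj Ho (by omega) ha hx _ hu
  apply Ho.u
  rw [uv_drop] at h1
  have : S.n + 1 - (S.n - S.pn) = S.pn + 1 := by rcases Ho.lev with h | h <;> omega
  rw [this] at h1
  exact h1

lemma newN_cases (e s : ℕ) (S : FS) : newN e s S = S.n ∨ newN e s S = S.n+1 := by
  unfold newN; split_ifs <;> simp

lemma good_crit {s e : ℕ} {S : FS} (he : e ≤ s) (H : Good ok s e S) (hle : S.ps.length ≤ e)
    (ha : S.ps.length ∈ S.act) {x : V} (hx : Cons S x) (hR : x ∈ Rsp S.ps.length s e S.r)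
    (hu : uv (S.n+1) ∈ newK ok S x) : Good ok (s+1) e (critS e s S x) := by
  have hxl := hx.1
  refine ⟨by simp [critS], by simp [critS]; omega, by simp [critS], H.actle, H.actnd, grp_zero _,
    ?_, ?_, ?_, ?_, fun c _ => bnd_zero c _, ?_, ?_⟩
  · simp only [critS, mkS_n, mkS_K, List.mem_singleton]; exact uv_ne_zv (by omega)
  · simp [critS]
  · simp [critS]; omega
  · simp [critS]
  · intro _
    have hl : (critS e s S x).pps.length - 1 = S.ps.length := by simp [critS]
    have hlast : lastX (critS e s S x) = x := by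
      unfold lastX
      rw [hl]
      simp only [critS, mkS_pps]
      exact getD_concat_eq
    refine ⟨H.grp, H.u, newN_cases e s S, ?_, ?_, ?_, ?_, ?_, ?_, ?_, ?_⟩
    · intro v hv
      simp only [critS, mkS_K, List.mem_singleton] at hv
      subst hv
      rw [zv_drop]
      have : newN e s S + 1 - ((critS e s S x).n - (critS e s S x).pn) = S.n + 1 := by
        simp only [critS, mkS_n, mkS_pn]
        rcases newN_cases e s S with h | h <;> omega
      rw [this]
      exact H.grp.zero
    · rw [hl]; exact ha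
    · rw [hl]; exact hle
    · intro m hm hma
      simp only [critS, mkS_pps, List.length_append, List.length_cons, List.length_nil,
        mkS_act] at hm hma
      simp only [critS, mkS_pps, mkS_pn, mkS_r, Nat.add_sub_cancel]
      rcases Nat.lt_or_ge m S.ps.length with hlt | hge
      · obtain ⟨h1, h2, h3⟩ := H.pos m hlt hma
        rw [getD_concat_lt hlt]
        exact ⟨h1, Rsp_mono (Nat.le_succ s) h2⟩
      · have : m = S.ps.length := by omega
        subst this
        rw [getD_concat_eq]
        exact ⟨hxl, Rsp_mono (Nat.le_succ s) hR⟩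
    · intro m hm hma
      rw [hl] at hm
      simp only [critS, mkS_pps, mkS_pn, mkS_pK]
      rw [getD_concat_lt hm]
      exact (H.pos m hm hma).2.2
    · rw [hlast, hl]
      exact hu
    · intro c hc
      rw [hl] at hc ⊢
      obtain ⟨L, hL1, -, hL2⟩ := H.bnd c hc
      exact ⟨L, hL1, hL2⟩
    · have := H.rpos
      simp only [critS, mkS_r]; omega
  · intro j hj
    simp only [critS, mkS_n] at hj
    unfold newN at hj
    split_ifs at hj with hg
    · rcases Nat.lt_or_ge j (S.n+1) with h | h
      · exact gk_isSome_mono (Nat.le_succ s) (H.g j (by omega))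
      · have : j = S.n+1 := by omega
        subst this
        exact gk_isSome_mono (Nat.le_succ s) hg
    · exact gk_isSome_mono (Nat.le_succ s) (H.g j hj)

lemma headI_mem {α : Type*} [Inhabited α] {l : List α} (h : l ≠ []) : l.headI ∈ l := by
  cases l with
  | nil => exact absurd rfl h
  | cons a l => simp

/-- possible steps of a started family -/
inductive Stp (ok : List ℕ → Bool) (L : List FS) (s e : ℕ) (S : FS) : FS → Prop
  | admit (m : ℕ) (hm : m ≤ e) (hna : m ∉ S.act) (hR : Rsp m s e S.r ≠ [])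
      (hb : ¬ Blocked L S.t m) : Stp ok L s e S (admitS s S m)
  | same (hc : candL L s e S = []) (h : e < S.ps.length ∨
      (S.ps.length ≤ e ∧ S.ps.length ∈ S.act ∧ respL s e S = [])) : Stp ok L s e S S
  | skip (hle : S.ps.length ≤ e) (hna : S.ps.length ∉ S.act) : Stp ok L s e S (skipS s S)
  | crit (x : V) (hle : S.ps.length ≤ e) (ha : S.ps.length ∈ S.act) (hx : Cons S x)
      (hR : x ∈ Rsp S.ps.length s e S.r) (hu : uv (S.n+1) ∈ newK ok S x) :
      Stp ok L s e S (critS e s S x)
  | proc (x : V) (hle : S.ps.length ≤ e) (ha : S.ps.length ∈ S.act) (hx : Cons S x)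
      (hR : x ∈ Rsp S.ps.length s e S.r) (hu : uv (S.n+1) ∉ newK ok S x) :
      Stp ok L s e S (procS ok s S x)

lemma candL_mem {L : List FS} {s e m : ℕ} {S : FS} (h : m ∈ candL L s e S) :
    m ≤ e ∧ m ∉ S.act ∧ Rsp m s e S.r ≠ [] ∧ ¬ Blocked L S.t m := by
  unfold candL at h
  rw [List.mem_filter, List.mem_range] at h
  simp only [decide_eq_true_eq] at h
  exact ⟨by omega, h.2⟩

lemma respL_mem {s e : ℕ} {S : FS} {x : V} (h : x ∈ respL s e S) :
    x ∈ Rsp S.ps.length s e S.r ∧ Cons S x := by
  unfold respL at h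
  rw [List.mem_filter] at h
  simp only [decide_eq_true_eq] at h
  exact h

lemma stepF_stp {L : List FS} {s e : ℕ} {S : FS} (hr : S.r ≠ 0) :
    Stp ok L s e S (stepF ok L s e S) := by
  unfold stepF
  rw [if_neg hr]
  by_cases h1 : candL L s e S = []
  · rw [if_neg (by simpa using h1)]
    by_cases h2 : e < S.ps.length
    · rw [if_pos h2]
      exact Stp.same h1 (Or.inl h2)
    · rw [if_neg h2]
      by_cases h3 : S.ps.length ∈ S.act
      · rw [if_neg (by simpa using h3)]
        by_cases h4 : respL s e S = []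
        · rw [if_pos h4]
          exact Stp.same h1 (Or.inr ⟨by omega, h3, h4⟩)
        · rw [if_neg h4]
          obtain ⟨a1, a2⟩ := respL_mem (headI_mem h4)
          by_cases h5 : uv (S.n+1) ∈ newK ok S (respL s e S).headI
          · rw [if_pos h5]
            exact Stp.crit _ (by omega) h3 a2 a1 h5
          · rw [if_neg h5]
            exact Stp.proc _ (by omega) h3 a2 a1 h5
      · rw [if_pos h3]
        exact Stp.skip (by omega) h3
  · rw [if_pos h1]
    obtain ⟨a1, a2, a3, a4⟩ := candL_mem (headI_mem h1)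
    exact Stp.admit _ a1 a2 a3 a4

lemma good_stp {L : List FS} {s e : ℕ} {S S' : FS} (he : e ≤ s) (H : Good ok s e S)
    (h : Stp ok L s e S S') : Good ok (s+1) e S' := by
  cases h with
  | admit m hm hna _ _ => exact good_admit he H hm hna
  | same _ _ => exact H.mono (Nat.le_succ s)
  | skip hle hna => exact good_skip he H hle hna
  | crit x hle ha hx hR hu => exact good_crit he H hle ha hx hR hu
  | proc x hle ha hx hR hu => exact good_proc he H hle ha hx hR hu

/-- every state is either the initial one or good -/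
lemma fs_good (s e : ℕ) : fs ok s e = S0 ∨ (e < s ∧ Good ok s e (fs ok s e)) := by
  induction s with
  | zero => left; exact fs_ge (Nat.zero_le e)
  | succ s ih =>
    rcases Nat.lt_or_ge s e with hlt | hge
    · left; exact fs_ge hlt
    · rw [fs_succ hge]
      rcases ih with h | ⟨-, h⟩
      · rw [h]
        unfold stepF
        rw [if_pos (by rfl)]
        split_ifs with hg
        · right; exact ⟨by omega, good_start hge hg⟩
        · left; rfl
      · right
        exact ⟨by omega, good_stp hge h (stepF_stp h.rpos)⟩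

lemma fs_good_of_r {s e : ℕ} (h : (fs ok s e).r ≠ 0) : Good ok s e (fs ok s e) := by
  rcases fs_good (ok := ok) s e with h' | h'
  · rw [h'] at h; exact absurd rfl h
  · exact h'.2

end Pool.Agent.W2helper50
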