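import Pool.Agent.W2helper50.Main1
import Pool.Agent.Helper743.Oracle

set_option autoImplicit false

/-! From trees in Baire space to ternary trees without computable paths. -/

namespace Pool.Agent.W2helper50

open Nat.Partrec (Code)
open Pool.Agent.Helper743 (RecT TR pre cert)

/-- limit of a computable growing sequence of lists -/
lemma limit_of_lists {τ : ℕ → List ℕ} (hτ : Computable τ)
    (hstep : ∀ j, τ (j+1) = τ j ∨ ∃ a, τ (j+1) = a :: τ j) (hub : ∀ N, ∃ j, N < (τ j).length) :
    ∃ f : ℕ → ℕ, Computable f ∧ ∀ j, τ j = lst f (τ j).length := by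
  have hstab : ∀ j j' i, j ≤ j' → i < (τ j).length → i < (τ j').length ∧
      (τ j').reverse.getD i 0 = (τ j).reverse.getD i 0 := by
    intro j j' i hj hi
    induction j', hj using Nat.le_induction with
    | base => exact ⟨hi, rfl⟩
    | succ k _ ih =>
      rcases hstep k with h | ⟨a, h⟩
      · rw [h]; exact ih
      · rw [h, reverse_getD_step ih.1]
        exact ⟨by simp; omega, ih.2⟩
  have hdec : Computable₂ (fun i j => decide (i < (τ j).length)) := by
    have h1 : Primrec₂ (fun (i : ℕ) (l : List ℕ) => decide (i < l.length)) :=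
      (pr_lt Primrec.fst (pr_len Primrec.snd)).decide
    exact Computable₂.comp h1.to_comp Computable.fst (hτ.comp Computable.snd)
  obtain ⟨d, hd1, hd2⟩ := search hdec (fun i => by
    obtain ⟨j, hj⟩ := hub i
    exact ⟨j, by simpa using hj⟩)
  refine ⟨fun i => (τ (d i)).reverse.getD i 0, ?_, ?_⟩
  · have h1 : Primrec (fun p : ℕ × List ℕ => p.2.reverse.getD p.1 0) :=
      pr_getD 0 (Primrec.list_reverse.comp Primrec.snd) Primrec.fst
    exact h1.to_comp.comp (Computable.id.pair (hτ.comp hd1))
  · intro j
    apply eq_lst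
    intro i hi
    have hdi : i < (τ (d i)).length := by simpa using hd2 i
    rcases le_total j (d i) with h | h
    · exact (hstab j (d i) i h hi).2.symm
    · exact (hstab (d i) j i h hdi).2

/-- block decomposition: length of the current block, lengths of the completed blocks -/
def blk (σ : List ℕ) : ℕ × List ℕ :=
  σ.foldr (fun a p => if a = 2 then (0, p.1 :: p.2) else (p.1+1, p.2)) (0, [])

lemma blk_nil : blk [] = (0, []) := rfl
lemma blk_cons (a : ℕ) (σ : List ℕ) : blk (a::σ) =
    if a = 2 then (0, (blk σ).1 :: (blk σ).2) else ((blk σ).1+1, (blk σ).2) := rfl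

/-- the admissibility test of a ternary string -/
def okK (Tok : List ℕ → Bool) (σ : List ℕ) : Prop :=
  Tok (blk σ).2 = true ∧ ∀ j < (blk σ).1,
    Code.evaln (blk σ).1 (Denumerable.ofNat Code j) j ≠ some (σ.getD ((blk σ).1 - 1 - j) 0)

instance (Tok : List ℕ → Bool) (σ : List ℕ) : Decidable (okK Tok σ) := by
  unfold okK; infer_instance

def okB (Tok : List ℕ → Bool) (σ : List ℕ) : Bool := decide (okK Tok σ)

variable {Tok : List ℕ → Bool}

lemma pr_blk {α : Type} [Primcodable α] {σ : α → List ℕ} (hσ : Primrec σ) :
    Primrec fun a => blk (σ a) := by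
  unfold blk
  refine pr_foldr (h := fun _ (b : ℕ) (p : ℕ × List ℕ) => if b = 2 then ((0, p.1 :: p.2) : ℕ × List ℕ)
    else (p.1+1, p.2)) hσ (Primrec.const _) ?_
  have h1 : Primrec (fun q : α × ℕ × ℕ × List ℕ => q.2.2.1) :=
    Primrec.fst.comp (Primrec.snd.comp Primrec.snd)
  have h2 : Primrec (fun q : α × ℕ × ℕ × List ℕ => q.2.2.2) :=
    Primrec.snd.comp (Primrec.snd.comp Primrec.snd)
  exact pr_ite (pr_eq (Primrec.fst.comp Primrec.snd) (Primrec.const 2))
    ((Primrec.const 0).pair (pr_cons h1 h2)) ((pr_succ h1).pair h2)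

lemma pr_okB (hT : Primrec Tok) : Primrec (okB Tok) := by
  unfold okB
  have h : PrimrecPred (fun σ : List ℕ => okK Tok σ) := by
    unfold okK
    have hb : Primrec (fun σ : List ℕ => blk σ) := pr_blk Primrec.id
    refine pr_and (pr_eq (hT.comp (Primrec.snd.comp hb)) (Primrec.const true)) ?_
    refine pr_forall_lt (p := fun σ j => Code.evaln (blk σ).1 (Denumerable.ofNat Code j) j ≠
      some (σ.getD ((blk σ).1 - 1 - j) 0)) (Primrec.fst.comp hb) ?_
    have hb' : Primrec (fun q : List ℕ × ℕ => (blk q.1).1) := (Primrec.fst.comp hb).comp Primrec.fst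
    exact pr_ne (pr_evaln hb' (pr_code Primrec.snd) Primrec.snd) (Primrec.option_some.comp
      (pr_getD 0 Primrec.fst (pr_sub (pr_sub hb' (Primrec.const 1)) Primrec.snd)))
  exact h.decide

lemma lst_getD {f : ℕ → ℕ} {n i : ℕ} (h : i < n) : (lst f n).getD i 0 = f (n-1-i) := by
  induction n generalizing i with
  | zero => omega
  | succ n ih =>
    rw [lst_succ]
    cases i with
    | zero => simp
    | succ i =>
      rw [List.getD_cons_succ, ih (by omega)]
      congr 1
      omega

lemma path_ok {ok : List ℕ → Bool} {f : ℕ → ℕ} (h : Path ok f) {n : ℕ} (hn : 0 < n) :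
    ok (lst f n) = true := by
  obtain ⟨m, rfl⟩ : ∃ m, n = m+1 := ⟨n-1, by omega⟩
  obtain ⟨a, σ, -, -, -, h2⟩ := mem_Tn_succ.1 (h (m+1))
  exact h2

lemma path_of_ok {ok : List ℕ → Bool} {f : ℕ → ℕ} (h3 : ∀ i, f i < 3)
    (h : ∀ n, 0 < n → ok (lst f n) = true) : Path ok f := by
  intro n
  induction n with
  | zero => simp [Tn]
  | succ n ih => exact mem_Tn_succ.2 ⟨f n, lst f n, h3 n, rfl, ih, h (n+1) (by omega)⟩

lemma comp_lst {f : ℕ → ℕ} (hf : Computable f) : Computable (fun n => lst f n) := by
  have h3 : Computable (fun n : ℕ => (Nat.rec [] (fun i acc => f i :: acc) n : List ℕ)) := by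
    refine Computable.nat_rec (f := fun n : ℕ => n) (g := fun _ => ([] : List ℕ))
      (h := fun _ p => f p.1 :: p.2) Computable.id (Computable.const _) ?_
    exact Computable.list_cons.comp (hf.comp (Computable.fst.comp Computable.snd))
      (Computable.snd.comp Computable.snd)
  refine h3.of_eq ?_
  intro n
  induction n with
  | zero => rfl
  | succ n ih => simp only [ih]; rfl

lemma blk_fst_le (σ : List ℕ) : (blk σ).1 ≤ σ.length := by
  induction σ with
  | nil => exact le_rfl
  | cons a σ ih =>
    rw [blk_cons]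
    split_ifs
    · exact Nat.zero_le _
    · simp; omega

/-- no computable path -/
theorem kleene_no_path (hN : ∀ p : ℕ → ℕ, Computable p → ¬ ∀ k, 0 < k → Tok (lst p k) = true) :
    ∀ f, Computable f → ¬ Path (okB Tok) f := by
  intro f hf hpath
  have hok : ∀ n, 0 < n → okK Tok (lst f n) := fun n hn => by simpa [okB] using path_ok hpath hn
  by_cases hinf : ∀ N, ∃ n, N ≤ n ∧ f n = 2
  · -- infinitely many separators
    have hτ : Computable (fun n => (blk (lst f n)).2) := by
      have h2 : Primrec (fun σ : List ℕ => (blk σ).2) := Primrec.snd.comp (pr_blk Primrec.id)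
      exact h2.to_comp.comp (comp_lst hf)
    have hstep : ∀ n, (blk (lst f (n+1))).2 = (blk (lst f n)).2 ∨
        ∃ a, (blk (lst f (n+1))).2 = a :: (blk (lst f n)).2 := by
      intro n
      rw [lst_succ, blk_cons]
      split_ifs
      · right; exact ⟨_, rfl⟩
      · left; rfl
    have hmono : ∀ n m, n ≤ m → (blk (lst f n)).2.length ≤ (blk (lst f m)).2.length := by
      intro n m hm
      induction m, hm using Nat.le_induction with
      | base => exact le_rfl
      | succ k _ ih =>
        rcases hstep k with h | ⟨a, h⟩ <;> rw [h]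
        · exact ih
        · simp; omega
    have hub : ∀ N, ∃ n, N < (blk (lst f n)).2.length := by
      intro N
      induction N with
      | zero =>
        obtain ⟨n, -, hn⟩ := hinf 0
        refine ⟨n+1, ?_⟩
        rw [lst_succ, blk_cons, if_pos hn]; simp
      | succ N ih =>
        obtain ⟨n, hn⟩ := ih
        obtain ⟨m, h1, h2⟩ := hinf n
        refine ⟨m+1, ?_⟩
        rw [lst_succ, blk_cons, if_pos h2]
        have := hmono n m h1
        simp; omega
    obtain ⟨p, hp1, hp2⟩ := limit_of_lists hτ hstep hub
    apply hN p hp1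
    intro k hk
    have hex : ∃ n, (blk (lst f n)).2.length = k := by
      by_contra hcon
      push Not at hcon
      have hlt : ∀ n, (blk (lst f n)).2.length < k := by
        intro n
        induction n with
        | zero => exact hk
        | succ n ih =>
          have h0 := hcon (n+1)
          rcases hstep n with h1 | ⟨a, h1⟩
          · rw [h1]; exact ih
          · rw [h1, List.length_cons] at h0 ⊢; omega
      obtain ⟨n, hn⟩ := hub k
      have := hlt n
      omega
    obtain ⟨n, hk2⟩ := hex
    have hn : 0 < n := by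
      rcases n with _ | n
      · have h0 : (blk (lst f 0)).2.length = 0 := rfl
        omega
      · omega
    have h1 := (hok n hn).1
    rw [hp2 n, hk2] at h1
    exact h1
  · -- an infinite last block
    push Not at hinf
    obtain ⟨N, hN2⟩ := hinf
    have hcur : ∀ i, (blk (lst f (N+i))).1 = (blk (lst f N)).1 + i := by
      intro i
      induction i with
      | zero => rfl
      | succ i ih =>
        rw [← Nat.add_assoc, lst_succ, blk_cons, if_neg (hN2 (N+i) (by omega)), ih]
        omega
    have hle : (blk (lst f N)).1 ≤ N := by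
      have := blk_fst_le (lst f N); simpa using this
    set c := (blk (lst f N)).1 with hc
    have hg : Computable (fun x => f (N - c + x)) :=
      hf.comp (Primrec.nat_add.to_comp.comp (Computable.const (N-c)) Computable.id)
    obtain ⟨code, hcode⟩ := Code.exists_code.1 (Partrec.nat_iff.1 hg)
    let i := Encodable.encode code
    have hi : Denumerable.ofNat Code i = code := Denumerable.ofNat_encode code
    have hev : f (N - c + i) ∈ Code.eval (Denumerable.ofNat Code i) i := by
      rw [hi, hcode]; exact Part.mem_some _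
    obtain ⟨t, ht⟩ := Code.evaln_complete.1 hev
    have h1 := (hok (N + (i + t + 1)) (by omega)).2 i (by rw [hcur]; omega)
    apply h1
    rw [hcur, lst_getD (by omega)]
    have e1 : N + (i + t + 1) - 1 - (c + (i + t + 1) - 1 - i) = N - c + i := by omega
    rw [e1]
    exact Code.evaln_mono (by omega) ht

/-! a path computed from a path of the given tree -/

def nd (L j : ℕ) : ℕ := if Code.evaln L (Denumerable.ofNat Code j) j = some 0 then 1 else 0

/-- concatenation of the blocks -/
def cat (q : List ℕ) : List ℕ := q.foldl (fun S L => 2 :: (lst (nd L) L ++ S)) []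

lemma cat_snoc (q : List ℕ) (L : ℕ) : cat (q ++ [L]) = 2 :: (lst (nd L) L ++ cat q) := by
  simp [cat]

lemma nd_lt (L j : ℕ) : nd L j < 2 := by unfold nd; split_ifs <;> omega

lemma nd_ne {L t j y : ℕ} (ht : t ≤ L) (h : Code.evaln t (Denumerable.ofNat Code j) j = some y) :
    nd L j ≠ y := by
  have h2 : Code.evaln L (Denumerable.ofNat Code j) j = some y := Code.evaln_mono ht h
  unfold nd
  rw [h2]
  split_ifs with h3
  · rw [Option.some_inj] at h3; omega
  · intro h4; exact h3 (by rw [h4])

lemma blk_lst_append {g : ℕ → ℕ} (hg : ∀ j, g j < 2) (c : ℕ) {S : List ℕ} {d : List ℕ}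
    (hS : blk S = (0, d)) : blk (lst g c ++ S) = (c, d) := by
  induction c with
  | zero => simpa using hS
  | succ c ih =>
    rw [lst_succ, List.cons_append, blk_cons, if_neg (by have := hg c; omega), ih]

lemma blk_cat (q : List ℕ) : blk (cat q) = (0, q.reverse) := by
  induction q using List.reverseRecOn with
  | nil => rfl
  | append_singleton q L ih =>
    rw [cat_snoc, blk_cons, if_pos rfl, blk_lst_append (nd_lt L) L ih]
    simp

lemma pre_eq (p : ℕ → ℕ) (n : ℕ) : (pre p n).reverse = lst p n := by
  unfold pre
  rw [← List.map_reverse, lst_eq]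

lemma cat_length_ge (p : ℕ → ℕ) (n : ℕ) : n ≤ (cat (pre p n)).length := by
  induction n with
  | zero => exact Nat.zero_le _
  | succ n ih =>
    rw [Helper743.pre_succ, cat_snoc]
    simp only [List.length_cons, List.length_append, lst_length]
    omega

lemma cat_stab (p : ℕ → ℕ) {n m : ℕ} (h : n ≤ m) {i : ℕ} (hi : i < (cat (pre p n)).length) :
    i < (cat (pre p m)).length ∧
      (cat (pre p m)).reverse.getD i 0 = (cat (pre p n)).reverse.getD i 0 := by
  induction m, h using Nat.le_induction with
  | base => exact ⟨hi, rfl⟩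
  | succ k _ ih =>
    rw [Helper743.pre_succ, cat_snoc]
    refine ⟨by simp only [List.length_cons, List.length_append, lst_length]; omega, ?_⟩
    rw [← ih.2, List.reverse_cons, List.reverse_append, List.append_assoc,
      List.getD_eq_getElem?_getD, List.getD_eq_getElem?_getD, List.getElem?_append_left (by simpa using ih.1)]

/-- the path built from `p` -/
def kp (p : ℕ → ℕ) (i : ℕ) : ℕ := (cat (pre p (i+1))).reverse.getD i 0

lemma cat_eq_lst (p : ℕ → ℕ) (n : ℕ) : cat (pre p n) = lst (kp p) (cat (pre p n)).length := by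
  apply eq_lst
  intro i hi
  unfold kp
  have hi2 : i < (cat (pre p (i+1))).length := by have := cat_length_ge p (i+1); omega
  rcases le_total n (i+1) with h | h
  · exact (cat_stab p h hi).2.symm
  · exact (cat_stab p h hi2).2

lemma cat_lt (q : List ℕ) : ∀ x ∈ cat q, x < 3 := by
  induction q using List.reverseRecOn with
  | nil => simp [cat]
  | append_singleton q L ih =>
    rw [cat_snoc]
    intro x hx
    simp only [List.mem_cons, List.mem_append] at hx
    rcases hx with rfl | hx | hx
    · omega
    · rw [lst_eq, List.mem_map] at hx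
      obtain ⟨j, -, rfl⟩ := hx
      have := nd_lt L j; omega
    · exact ih x hx

lemma kp_lt (p : ℕ → ℕ) (i : ℕ) : kp p i < 3 := by
  unfold kp
  have hi2 : i < (cat (pre p (i+1))).reverse.length := by
    have := cat_length_ge p (i+1); simp; omega
  rw [List.getD_eq_getElem _ _ hi2]
  exact cat_lt _ _ (List.mem_reverse.1 (List.getElem_mem _))

theorem kp_path {p : ℕ → ℕ} (hp : ∀ k, Tok (lst p k) = true) : Path (okB Tok) (kp p) := by
  apply path_of_ok (kp_lt p)
  intro n hn
  -- the block containing position n
  have hex : ∃ k, n ≤ (cat (pre p k)).length := ⟨n, cat_length_ge p n⟩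
  classical
  obtain ⟨k, hk⟩ : ∃ k, (cat (pre p k)).length < n ∧ n ≤ (cat (pre p (k+1))).length := by
    have h1 := Nat.find_spec hex
    have h2 : Nat.find hex ≠ 0 := by
      intro h0
      rw [h0] at h1
      have : (cat (pre p 0)).length = 0 := rfl
      omega
    obtain ⟨k, hk⟩ : ∃ k, Nat.find hex = k+1 := ⟨Nat.find hex - 1, by omega⟩
    refine ⟨k, ?_, by rw [← hk]; exact h1⟩
    have := Nat.find_min hex (m := k) (by omega)
    omega
  obtain ⟨hk1, hk2⟩ := hk
  have hS := cat_eq_lst p (k+1)
  have hlen : (cat (pre p (k+1))).length = p k + 1 + (cat (pre p k)).length := by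
    rw [Helper743.pre_succ, cat_snoc]; simp; omega
  have hbk : blk (cat (pre p k)) = (0, lst p k) := by rw [blk_cat, pre_eq]
  have hbk1 : blk (cat (pre p (k+1))) = (0, lst p (k+1)) := by rw [blk_cat, pre_eq]
  unfold okB
  rw [decide_eq_true_eq]
  rcases Nat.lt_or_ge n (cat (pre p (k+1))).length with hlt | hge
  · obtain ⟨c, hc⟩ : ∃ c, n = c + (cat (pre p k)).length := ⟨n - (cat (pre p k)).length, by omega⟩
    have hcL : c ≤ p k := by omega
    have e1 : lst (kp p) n = lst (nd (p k)) c ++ cat (pre p k) := by
      obtain ⟨d, hd⟩ : ∃ d, (cat (pre p (k+1))).length = n + d := ⟨_, (Nat.add_sub_of_le hk2).symm⟩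
      rw [hd] at hS
      have h1 : (cat (pre p (k+1))).drop d = lst (kp p) n := by
        rw [hS, lst_drop]
      rw [← h1, Helper743.pre_succ, cat_snoc]
      have hd' : d = (p k - c) + 1 := by omega
      rw [hd', List.drop_succ_cons, List.drop_append_of_le_length (by simp)]
      congr 1
      have : p k = c + (p k - c) := by omega
      conv_lhs => rw [this]
      have h2 := lst_drop (nd (p k)) c (p k - c)
      rw [← this] at h2 ⊢
      exact h2
    rw [e1]
    have hb := blk_lst_append (nd_lt (p k)) c hbk
    unfold okK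
    rw [hb]
    refine ⟨hp k, ?_⟩
    intro j hj hev
    simp only at hj hev
    have e2 : (lst (nd (p k)) c ++ cat (pre p k)).getD (c-1-j) 0 = nd (p k) j := by
      rw [List.getD_eq_getElem?_getD, List.getElem?_append_left (by simp; omega),
        ← List.getD_eq_getElem?_getD, lst_getD (by omega)]
      congr 1; omega
    rw [e2] at hev
    exact nd_ne hcL hev rfl
  · have e1 : lst (kp p) n = cat (pre p (k+1)) := by
      have : n = (cat (pre p (k+1))).length := by omega
      rw [this, ← hS]
    rw [e1]
    unfold okK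
    rw [hbk1]
    exact ⟨hp (k+1), fun j hj => absurd hj (by simp)⟩

lemma pr_cat {α : Type} [Primcodable α] {q : α → List ℕ} (hq : Primrec q) :
    Primrec fun a => cat (q a) := by
  unfold cat
  refine pr_foldl (h := fun _ S L => 2 :: (lst (nd L) L ++ S)) hq (Primrec.const []) ?_
  have hL : Primrec (fun p : α × List ℕ × ℕ => p.2.2) := Primrec.snd.comp Primrec.snd
  refine pr_cons (Primrec.const 2) (pr_app (pr_lst (w := fun (p : α × List ℕ × ℕ) => nd p.2.2) ?_ hL)
    (Primrec.fst.comp Primrec.snd))
  unfold nd
  have hL' : Primrec (fun p : (α × List ℕ × ℕ) × ℕ => p.1.2.2) := hL.comp Primrec.fst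
  exact pr_ite (pr_eq (pr_evaln hL' (pr_code Primrec.snd) Primrec.snd) (Primrec.const (some 0)))
    (Primrec.const 1) (Primrec.const 0)

theorem kp_TR (p : ℕ → ℕ) : TR (kp p) p := by
  refine cert (TR.refl p) (fun σ x _ => if x+1 ≤ σ.length then
    some ((cat (σ.take (x+1))).reverse.getD x 0) else none) ?_ _ ?_ ?_
  · have hx : Primrec (fun q : (List ℕ × ℕ) × ℕ => q.1.2) := Primrec.snd.comp Primrec.fst
    have hσ : Primrec (fun q : (List ℕ × ℕ) × ℕ => q.1.1) := Primrec.fst.comp Primrec.fst
    have h1 : Primrec (fun q : (List ℕ × ℕ) × ℕ => if q.1.2+1 ≤ q.1.1.length then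
        some ((cat (q.1.1.take (q.1.2+1))).reverse.getD q.1.2 0) else none) :=
      pr_ite (pr_le (pr_succ hx) (pr_len hσ)) (Primrec.option_some.comp (pr_getD 0
        (Primrec.list_reverse.comp (pr_cat (Primrec.list_take.comp (pr_succ hx) hσ))) hx))
        (Primrec.const none)
    exact h1.to_comp
  · intro x
    exact ⟨x+1, 0, by rw [if_pos (by simp)]; rfl⟩
  · intro x n w y hy
    split_ifs at hy with h
    rw [Option.some_inj] at hy
    rw [← hy]
    unfold kp
    have : (pre p n).take (x+1) = pre p (x+1) := by
      unfold pre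
      rw [← List.map_take, List.take_range, min_eq_left (by simpa using h)]
    rw [this]

end Pool.Agent.W2helper50
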