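import Pool.Agent.W2helper50.Pr

set_option autoImplicit false

/-! Inverse systems of bounded width have computable threads. -/

namespace Pool.Agent.W2helper50

section thr
variable {α : Type} (pr : ℕ → α → α)

/-- projection from level `k+d` to level `k` -/
def down (k d : ℕ) (q : α) : α := Nat.rec q (fun i y => pr (k+d-i-1) y) d

lemma down_zero (k : ℕ) (q : α) : down pr k 0 q = q := rfl

lemma down_succ (k d : ℕ) (q : α) : down pr k (d+1) q = pr k (down pr (k+1) d q) := by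
  unfold down
  have e1 : ∀ i, k + (d+1) - i - 1 = (k+1) + d - i - 1 := by intro i; omega
  simp only [e1]
  have : k + 1 + d - d - 1 = k := by omega
  rw [this]

lemma down_add (k a b : ℕ) (q : α) : down pr k (a+b) q = down pr k a (down pr (k+a) b q) := by
  induction a generalizing k with
  | zero => simp [down_zero]
  | succ a ih =>
    have e1 : a + 1 + b = (a+b)+1 := by omega
    have e2 : k + (a+1) = k+1+a := by omega
    rw [e1, down_succ, down_succ, ih, e2]

lemma down_succ' (k d : ℕ) (q : α) : down pr k (d+1) q = down pr k d (pr (k+d) q) := by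
  rw [down_add, down_succ, down_zero]

variable [DecidableEq α] (Vf : ℕ → List α)

def sub (k0 : ℕ) (t0 : α) (d : ℕ) : List α := (Vf (k0+d)).filter (fun q => decide (down pr k0 d q = t0))

variable {pr Vf}

lemma mem_sub {k0 d : ℕ} {t0 q : α} : q ∈ sub pr Vf k0 t0 d ↔ q ∈ Vf (k0+d) ∧ down pr k0 d q = t0 := by
  simp [sub]

lemma down_mem (hp : ∀ k, ∀ q ∈ Vf (k+1), pr k q ∈ Vf k) {k d : ℕ} {q : α} (hq : q ∈ Vf (k+d)) :
    down pr k d q ∈ Vf k := by
  induction d generalizing k with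
  | zero => exact hq
  | succ d ih =>
    rw [down_succ]
    apply hp
    apply ih
    have : k + 1 + d = k + (d+1) := by omega
    rw [this]; exact hq

lemma sub_down (hp : ∀ k, ∀ q ∈ Vf (k+1), pr k q ∈ Vf k) {k0 j d : ℕ} {t0 q : α}
    (hq : q ∈ sub pr Vf k0 t0 (j+d)) : down pr (k0+j) d q ∈ sub pr Vf k0 t0 j := by
  rw [mem_sub] at hq ⊢
  refine ⟨down_mem hp (by rw [Nat.add_assoc]; exact hq.1), ?_⟩
  rw [← down_add]; exact hq.2

lemma sub_nil_mono (hp : ∀ k, ∀ q ∈ Vf (k+1), pr k q ∈ Vf k) {k0 d : ℕ} {t0 : α}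
    (h : sub pr Vf k0 t0 d = []) : sub pr Vf k0 t0 (d+1) = [] := by
  rw [List.eq_nil_iff_forall_not_mem] at h ⊢
  intro q hq
  exact h _ (sub_down hp hq)

lemma uniform_bound {l : List α} {A : α → ℕ → Prop} (hA : ∀ t d, A t d → A t (d+1))
    (h : ∀ t ∈ l, ∃ d, A t d) : ∃ D, ∀ t ∈ l, A t D := by
  have hmono : ∀ t d d', d ≤ d' → A t d → A t d' := by
    intro t d d' hd h
    induction d', hd using Nat.le_induction with
    | base => exact h
    | succ k _ ih => exact hA _ _ ih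
  induction l with
  | nil => exact ⟨0, by simp⟩
  | cons a l ih =>
    obtain ⟨D, hD⟩ := ih (fun t ht => h t (by simp [ht]))
    obtain ⟨d, hd⟩ := h a (by simp)
    refine ⟨max D d, ?_⟩
    intro t ht
    rcases List.mem_cons.1 ht with rfl | ht
    · exact hmono _ _ _ (le_max_right _ _) hd
    · exact hmono _ _ _ (le_max_left _ _) (hD t ht)

/-- an infinite subsystem has surviving elements at every level -/
lemma exists_surviving (hp : ∀ k, ∀ q ∈ Vf (k+1), pr k q ∈ Vf k) {k0 : ℕ} {t0 : α}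
    (h : ∀ d, sub pr Vf k0 t0 d ≠ []) (j : ℕ) :
    ∃ t ∈ sub pr Vf k0 t0 j, ∀ d, sub pr Vf (k0+j) t d ≠ [] := by
  by_contra hcon
  push Not at hcon
  obtain ⟨D, hD⟩ := uniform_bound (l := sub pr Vf k0 t0 j)
    (A := fun t d => sub pr Vf (k0+j) t d = []) (fun t d h => sub_nil_mono hp h) hcon
  obtain ⟨q, hq⟩ := List.exists_mem_of_ne_nil _ (h (j+D))
  have h1 := hD _ (sub_down hp hq)
  have h2 : q ∈ sub pr Vf (k0+j) (down pr (k0+j) D q) D := by
    rw [mem_sub]
    exact ⟨by rw [Nat.add_assoc]; exact (mem_sub.1 hq).1, rfl⟩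
  rw [h1] at h2
  simp at h2

/-- a narrowest infinite subsystem: every survivor eventually is the only value -/
lemma exists_narrow (N : ℕ) (hN : ∀ k, ∃ L : List α, L.length ≤ N ∧ ∀ q ∈ Vf k, q ∈ L)
    (hne : ∀ k, Vf k ≠ []) (hp : ∀ k, ∀ q ∈ Vf (k+1), pr k q ∈ Vf k) :
    ∃ k0 t0, (∀ d, sub pr Vf k0 t0 d ≠ []) ∧
      ∀ j t, (∀ d, sub pr Vf (k0+j) t d ≠ []) → t ∈ sub pr Vf k0 t0 j →
        ∃ d, ∀ q ∈ sub pr Vf k0 t0 (j+d), down pr (k0+j) d q = t := by
  classical
  let P : ℕ → Prop := fun M => ∃ k0 t0, (∀ d, sub pr Vf k0 t0 d ≠ []) ∧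
    ∀ d, ∃ L : List α, L.length ≤ M ∧ ∀ q ∈ sub pr Vf k0 t0 d, q ∈ L
  have hPN : ∃ M, P M := by
    refine ⟨N, ?_⟩
    have h0 : ∃ t0 ∈ Vf 0, ∀ d, sub pr Vf 0 t0 d ≠ [] := by
      by_contra hcon
      push Not at hcon
      obtain ⟨D, hD⟩ := uniform_bound (l := Vf 0)
        (A := fun t d => sub pr Vf 0 t d = []) (fun t d h => sub_nil_mono hp h) hcon
      obtain ⟨q, hq⟩ := List.exists_mem_of_ne_nil _ (hne D)
      have hq' : q ∈ Vf (0+D) := by rw [Nat.zero_add]; exact hq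
      have h1 := hD _ (down_mem hp hq')
      have h2 : q ∈ sub pr Vf 0 (down pr 0 D q) D := mem_sub.2 ⟨hq', rfl⟩
      rw [h1] at h2
      simp at h2
    obtain ⟨t0, -, h0⟩ := h0
    refine ⟨0, t0, h0, fun d => ?_⟩
    obtain ⟨L, hL1, hL2⟩ := hN (0+d)
    exact ⟨L, hL1, fun q hq => hL2 q (mem_sub.1 hq).1⟩
  obtain ⟨k0, t0, h1, h2⟩ := Nat.find_spec hPN
  refine ⟨k0, t0, h1, ?_⟩
  intro j t ht htm
  by_contra hcon
  push Not at hcon
  set M := Nat.find hPN with hM
  have hM0 : 0 < M := by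
    obtain ⟨L, hL1, hL2⟩ := h2 0
    obtain ⟨q, hq⟩ := List.exists_mem_of_ne_nil _ (h1 0)
    have := List.length_pos_of_mem (hL2 q hq)
    omega
  have : P (M-1) := by
    refine ⟨k0+j, t, ht, fun d => ?_⟩
    obtain ⟨q, hq1, hq2⟩ := hcon d
    obtain ⟨L, hL1, hL2⟩ := h2 (j+d)
    refine ⟨L.erase q, ?_, ?_⟩
    · rw [List.length_erase_of_mem (hL2 q hq1)]; omega
    · intro q' hq'
      rw [mem_sub] at hq'
      have hne : q' ≠ q := by rintro rfl; exact hq2 hq'.2
      rw [List.mem_erase_of_ne hne]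
      apply hL2
      rw [mem_sub]
      refine ⟨by rw [← Nat.add_assoc]; exact hq'.1, ?_⟩
      rw [down_add, hq'.2]
      exact (mem_sub.1 htm).2
  have := Nat.find_min' hPN this
  omega

end thr

/-- inverse systems of bounded width have computable threads -/
theorem thread {α : Type} [Primcodable α] [DecidableEq α] [Inhabited α] (Vf : ℕ → List α)
    (hV : Primrec Vf) (pr : ℕ → α → α) (hpr : Primrec₂ pr) (N : ℕ)
    (hN : ∀ k, ∃ L : List α, L.length ≤ N ∧ ∀ q ∈ Vf k, q ∈ L)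
    (hne : ∀ k, Vf k ≠ []) (hp : ∀ k, ∀ q ∈ Vf (k+1), pr k q ∈ Vf k) :
    ∃ (k0 : ℕ) (σ : ℕ → α), Computable σ ∧ (∀ j, σ j ∈ Vf (k0+j)) ∧
      ∀ j, pr (k0+j) (σ (j+1)) = σ j := by
  obtain ⟨k0, t0, h1, h2⟩ := exists_narrow N hN hne hp
  -- the test
  have hdown : Primrec (fun p : (ℕ × ℕ) × α => down pr p.1.1 p.1.2 p.2) := by
    unfold down
    refine pr_natrec (h := fun (p : (ℕ × ℕ) × α) i y => pr (p.1.1+p.1.2-i-1) y)
      (Primrec.snd.comp Primrec.fst) Primrec.snd ?_
    refine hpr.comp ?_ (Primrec.snd.comp Primrec.snd)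
    exact Primrec.nat_sub.comp (Primrec.nat_sub.comp (Primrec.nat_add.comp
      (Primrec.fst.comp (Primrec.fst.comp Primrec.fst))
      (Primrec.snd.comp (Primrec.fst.comp Primrec.fst)))
      (Primrec.fst.comp Primrec.snd)) (Primrec.const 1)
  have hdown' : ∀ {β : Type} [Primcodable β] {f g : β → ℕ} {h : β → α}, Primrec f → Primrec g →
      Primrec h → Primrec (fun b => down pr (f b) (g b) (h b)) := by
    intro β _ f g h hf hg hh
    exact hdown.comp ((hf.pair hg).pair hh)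
  have hsub : ∀ {β : Type} [Primcodable β] {f : β → ℕ}, Primrec f →
      Primrec (fun b => sub pr Vf k0 t0 (f b)) := by
    intro β _ f hf
    unfold sub
    refine pr_filter (p := fun b q => down pr k0 (f b) q = t0)
      (hV.comp (Primrec.nat_add.comp (Primrec.const k0) hf)) ?_
    exact pr_eq (hdown' (Primrec.const k0) (hf.comp Primrec.fst) Primrec.snd) (Primrec.const t0)
  let Q : ℕ → ℕ → Prop := fun j d => ∀ q ∈ sub pr Vf k0 t0 (j+d),
    down pr (k0+j) d q = down pr (k0+j) d (sub pr Vf k0 t0 (j+d)).headI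
  have hadd1 : Primrec (fun p : ℕ × ℕ => p.1 + p.2) := Primrec.nat_add.comp Primrec.fst Primrec.snd
  have hQ : PrimrecPred (fun p : ℕ × ℕ => Q p.1 p.2) := by
    refine pr_forall (p := fun (p : ℕ × ℕ) q => down pr (k0+p.1) p.2 q =
      down pr (k0+p.1) p.2 (sub pr Vf k0 t0 (p.1+p.2)).headI) (hsub hadd1) ?_
    refine pr_eq (hdown' (Primrec.nat_add.comp (Primrec.const k0) (Primrec.fst.comp Primrec.fst))
      (Primrec.snd.comp Primrec.fst) Primrec.snd)
      (hdown' (Primrec.nat_add.comp (Primrec.const k0) (Primrec.fst.comp Primrec.fst))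
      (Primrec.snd.comp Primrec.fst) ?_)
    exact Primrec.list_headI.comp (hsub (hadd1.comp Primrec.fst))
  have surv : ∀ j, ∃ t ∈ sub pr Vf k0 t0 j, ∀ d, sub pr Vf (k0+j) t d ≠ [] :=
    fun j => exists_surviving hp h1 j
  choose t ht1 ht2 using surv
  have hhead : ∀ d, (sub pr Vf k0 t0 d).headI ∈ sub pr Vf k0 t0 d := by
    intro d
    have := h1 d
    cases h : sub pr Vf k0 t0 d with
    | nil => exact absurd h this
    | cons a l => simp
  have hex : ∀ j, ∃ d, Q j d := by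
    intro j
    obtain ⟨d, hd⟩ := h2 j (t j) (ht2 j) (ht1 j)
    exact ⟨d, fun q hq => by rw [hd q hq, hd _ (hhead _)]⟩
  -- any value found by the search is the surviving one
  have huniq : ∀ j t', (∀ d, sub pr Vf (k0+j) t' d ≠ []) → t' ∈ sub pr Vf k0 t0 j → t' = t j := by
    intro j t' h3 h4
    obtain ⟨d, hd⟩ := h2 j (t j) (ht2 j) (ht1 j)
    obtain ⟨q, hq⟩ := List.exists_mem_of_ne_nil _ (h3 d)
    rw [mem_sub] at hq
    have hq' : q ∈ sub pr Vf k0 t0 (j+d) := by
      rw [mem_sub]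
      refine ⟨by rw [← Nat.add_assoc]; exact hq.1, ?_⟩
      rw [down_add, hq.2]; exact (mem_sub.1 h4).2
    rw [← hd q hq', hq.2]
  have hval : ∀ j d, Q j d → down pr (k0+j) d (sub pr Vf k0 t0 (j+d)).headI = t j := by
    intro j d hQd
    obtain ⟨q, hq⟩ := List.exists_mem_of_ne_nil _ (ht2 j d)
    rw [mem_sub] at hq
    have hq' : q ∈ sub pr Vf k0 t0 (j+d) := by
      rw [mem_sub]
      refine ⟨by rw [← Nat.add_assoc]; exact hq.1, ?_⟩
      rw [down_add, hq.2]; exact (mem_sub.1 (ht1 j)).2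
    rw [← hQd q hq', hq.2]
  obtain ⟨ds, hds, hds2⟩ := search_pr hQ hex
  refine ⟨k0, t, ?_, ?_, ?_⟩
  · have h5 : Primrec₂ (fun j d : ℕ => down pr (k0+j) d (sub pr Vf k0 t0 (j+d)).headI) := by
      refine hdown' (Primrec.nat_add.comp (Primrec.const k0) Primrec.fst) Primrec.snd ?_
      exact Primrec.list_headI.comp (hsub hadd1)
    refine (Computable₂.comp h5.to_comp Computable.id hds).of_eq ?_
    intro j
    exact hval j _ (hds2 j)
  · intro j; exact (mem_sub.1 (ht1 j)).1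
  · intro j
    apply huniq
    · intro d hnil
      apply ht2 (j+1) d
      rw [List.eq_nil_iff_forall_not_mem]
      intro q hq
      have : q ∈ sub pr Vf (k0+j) (pr (k0+j) (t (j+1))) (d+1) := by
        rw [mem_sub] at hq ⊢
        refine ⟨?_, ?_⟩
        · have e : k0 + j + (d+1) = k0 + (j+1) + d := by omega
          rw [e]; exact hq.1
        · rw [down_succ]
          have e : k0 + j + 1 = k0 + (j+1) := by omega
          rw [e, hq.2]
      rw [sub_nil_mono hp hnil] at this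
      simp at this
    · have := sub_down hp (k0 := k0) (t0 := t0) (j := j) (d := 1) (ht1 (j+1))
      rw [down_succ, down_zero] at this
      exact this

end Pool.Agent.W2helper50
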