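import Pool.Agent.W2helper50.Prim
import Pool.Agent.W2helper50.Thread
import Pool.Agent.W2helper50.Dyn

set_option autoImplicit false

/-! The levels of a family are bounded. -/

namespace Pool.Agent.W2helper50

variable {ok : List ℕ → Bool}

lemma reverse_getD_step {a : ℕ} {l : List ℕ} {i : ℕ} (hi : i < l.length) :
    (a::l).reverse.getD i 0 = l.reverse.getD i 0 := by
  rw [List.reverse_cons, List.getD_eq_getElem?_getD, List.getD_eq_getElem?_getD,
    List.getElem?_append_left (by simpa using hi)]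

lemma eq_lst {l : List ℕ} {f : ℕ → ℕ} (h : ∀ i < l.length, l.reverse.getD i 0 = f i) :
    l = lst f l.length := by
  induction l with
  | nil => rfl
  | cons a l ih =>
    rw [List.length_cons, lst_succ, ← ih]
    · have := h l.length (by simp)
      rw [← this, List.reverse_cons, List.getD_eq_getElem?_getD,
        List.getElem?_append_right (by simp)]
      simp
    · intro i hi
      rw [← h i (by simp; omega), reverse_getD_step hi]

/-- a computable growing sequence of nodes yields a computable path -/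
lemma path_of_nodes {τ : ℕ → List ℕ} (hτ : Computable τ)
    (hstep : ∀ j, τ (j+1) = τ j ∨ ∃ a, τ (j+1) = a :: τ j)
    (hT : ∀ j, τ j ∈ Tn ok (τ j).length) (hub : ∀ N, ∃ j, N < (τ j).length) :
    ∃ f : ℕ → ℕ, Computable f ∧ Path ok f := by
  have hstab : ∀ j j' i, j ≤ j' → i < (τ j).length → i < (τ j').length ∧
      (τ j').reverse.getD i 0 = (τ j).reverse.getD i 0 := by
    intro j j' i hj hi
    induction j', hj using Nat.le_induction with
    | base => exact ⟨hi, rfl⟩
    | succ k _ ih =>
      rcases hstep k with h | ⟨a, h⟩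
      · rw [h]; exact ih
      · rw [h, reverse_getD_step ih.1]
        exact ⟨by simp; omega, ih.2⟩
  have hdec : Computable₂ (fun i j => decide (i < (τ j).length)) := by
    have h1 : Primrec₂ (fun (i : ℕ) (l : List ℕ) => decide (i < l.length)) :=
      (pr_lt Primrec.fst (pr_len Primrec.snd)).decide
    exact Computable₂.comp h1.to_comp Computable.fst (hτ.comp Computable.snd)
  obtain ⟨d, hd1, hd2⟩ := search hdec (fun i => by
    obtain ⟨j, hj⟩ := hub i
    exact ⟨j, by simpa using hj⟩)
  let f : ℕ → ℕ := fun i => (τ (d i)).reverse.getD i 0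
  have hf : ∀ j i, i < (τ j).length → (τ j).reverse.getD i 0 = f i := by
    intro j i hi
    have hdi : i < (τ (d i)).length := by simpa using hd2 i
    rcases le_total j (d i) with h | h
    · exact (hstab j (d i) i h hi).2.symm
    · exact (hstab (d i) j i h hdi).2
  refine ⟨f, ?_, ?_⟩
  · have h1 : Primrec (fun p : ℕ × List ℕ => p.2.reverse.getD p.1 0) :=
      pr_getD 0 (Primrec.list_reverse.comp Primrec.snd) Primrec.fst
    exact h1.to_comp.comp (Computable.id.pair (hτ.comp hd1))
  · intro n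
    obtain ⟨j, hj⟩ := hub n
    have h1 : τ j = lst f (τ j).length := eq_lst (hf j)
    obtain ⟨m, hm⟩ := Nat.exists_eq_add_of_le hj.le
    have h2 := hT j
    rw [h1, lst_length, hm] at h2
    have h3 := Tn_drop h2
    rw [lst_drop] at h3
    exact h3

/-- coherent system of certificates yields a computable path -/
lemma path_of_thread (hok : Primrec ok) {c : ℕ} {lev : ℕ → ℕ} (hlev : Primrec lev)
    {σ : ℕ → V} (hσ : Computable σ) (hmem : ∀ j, σ j ∈ Lq ok c (lev j))
    (hcases : ∀ j, (lev (j+1) = lev j ∧ σ (j+1) = σ j) ∨ (lev (j+1) = lev j + 1 ∧ pj (σ (j+1)) = σ j))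
    (hne : σ 0 ≠ zv (lev 0 + 2)) (hub : ∀ N, ∃ j, N < lev j) :
    ∃ f : ℕ → ℕ, Computable f ∧ Path ok f := by
  classical
  obtain ⟨τ0, hτ0, hb0⟩ := Lq_start (hmem 0) hne
  let tst : V → ℕ → List ℕ → Prop := fun q n ρ => ρ ∈ Tn ok n ∧ q.tail.headI.testBit (bi c ρ) = true
  let nx : ℕ → V → List ℕ → List ℕ := fun j q τ => if lev (j+1) = lev j then τ else
    if tst q (lev (j+1)) (0::τ) then 0::τ else if tst q (lev (j+1)) (1::τ) then 1::τ else 2::τ
  let τ : ℕ → List ℕ := fun j => Nat.rec τ0 (fun i y => nx i (σ (i+1)) y) j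
  have hτs : ∀ j, τ (j+1) = nx j (σ (j+1)) (τ j) := fun j => rfl
  have hnx : Primrec (fun p : (ℕ × V) × List ℕ => nx p.1.1 p.1.2 p.2) := by
    have hj : Primrec (fun p : (ℕ × V) × List ℕ => p.1.1) := Primrec.fst.comp Primrec.fst
    have hq : Primrec (fun p : (ℕ × V) × List ℕ => p.1.2) := Primrec.snd.comp Primrec.fst
    have hl : Primrec (fun p : (ℕ × V) × List ℕ => lev (p.1.1+1)) := hlev.comp (pr_succ hj)
    have hc : ∀ a : ℕ, Primrec (fun p : (ℕ × V) × List ℕ => a :: p.2) := fun a =>
      pr_cons (Primrec.const a) Primrec.snd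
    have ht : ∀ a : ℕ, PrimrecPred (fun p : (ℕ × V) × List ℕ => tst p.1.2 (lev (p.1.1+1)) (a::p.2)) := by
      intro a
      refine pr_and (pr_mem (hc a) (pr_Tn hok hl)) (pr_testBit (Primrec.list_headI.comp
        (Primrec.list_tail.comp hq)) (pr_bi (Primrec.const c) (hc a)))
    exact pr_ite (pr_eq hl (hlev.comp hj)) Primrec.snd (pr_ite (ht 0) (hc 0) (pr_ite (ht 1) (hc 1) (hc 2)))
  have hτc : Computable τ := by
    refine Computable.nat_rec (f := fun j : ℕ => j) (g := fun _ => τ0)
      (h := fun _ p => nx p.1 (σ (p.1+1)) p.2) Computable.id (Computable.const τ0) ?_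
    have h1 : Computable (fun q : ℕ × ℕ × List ℕ => ((q.2.1, σ (q.2.1+1)), q.2.2)) :=
      ((Computable.fst.comp Computable.snd).pair (hσ.comp (Computable.succ.comp
        (Computable.fst.comp Computable.snd)))).pair (Computable.snd.comp Computable.snd)
    exact hnx.to_comp.comp h1
  have hinv : ∀ j, τ j ∈ Tn ok (lev j) ∧ (σ j).tail.headI.testBit (bi c (τ j)) = true := by
    intro j
    induction j with
    | zero => exact ⟨hτ0, hb0⟩
    | succ j ih =>
      rw [hτs]
      rcases hcases j with ⟨h1, h2⟩ | ⟨h1, h2⟩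
      · have : nx j (σ (j+1)) (τ j) = τ j := if_pos h1
        rw [this, h1, h2]; exact ih
      · have h3 : lev (j+1) ≠ lev j := by omega
        have h4 := hmem (j+1)
        rw [h1] at h4
        have h5 := ih.2
        rw [← h2] at h5
        obtain ⟨ρ, hρ1, hρ2, hρ3⟩ := Lq_extend h4 h5
        obtain ⟨a, ρ', ha, rfl, -, -⟩ := mem_Tn_succ.1 hρ1
        have hρ2' : ρ' = τ j := hρ2
        subst hρ2'
        have hta : tst (σ (j+1)) (lev (j+1)) (a::τ j) := ⟨by rw [h1]; exact hρ1, hρ3⟩
        have : tst (σ (j+1)) (lev (j+1)) (nx j (σ (j+1)) (τ j)) := by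
          show tst _ _ (if lev (j+1) = lev j then τ j else
            if tst (σ (j+1)) (lev (j+1)) (0::τ j) then 0::τ j else
              if tst (σ (j+1)) (lev (j+1)) (1::τ j) then 1::τ j else 2::τ j)
          rw [if_neg h3]
          split_ifs with g0 g1
          · exact g0
          · exact g1
          · interval_cases a
            · exact absurd hta g0
            · exact absurd hta g1
            · exact hta
        exact this
  have hlen : ∀ j, (τ j).length = lev j := fun j => Tn_length (hinv j).1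
  refine path_of_nodes hτc ?_ ?_ ?_
  · intro j
    rw [hτs]
    simp only [nx]
    split_ifs
    · left; rfl
    · right; exact ⟨0, rfl⟩
    · right; exact ⟨1, rfl⟩
    · right; exact ⟨2, rfl⟩
  · intro j; rw [hlen]; exact (hinv j).1
  · intro N
    obtain ⟨j, hj⟩ := hub N
    exact ⟨j, by rw [hlen]; exact hj⟩

/-- along a family with unbounded levels -/
lemma sx_xv {q x d : V} :
    sx q (xv x d) = sx q x ∨ sx q (xv x d) = xv d (sx q x) := by
  unfold sx
  split_ifs with h
  · left; rfl
  · right; rw [xv_comm x d, xv_assoc]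

lemma sx_length {c n : ℕ} {q x : V} (hq : q ∈ Lq ok c n) (hx : x.length = n+1) :
    (sx q x).length = n+1 := by
  have := (Lq_grp c n).len q hq
  unfold sx
  split_ifs with h
  · simp [this]
  · simp [this, hx]

lemma sx_pj {q x : V} : (sx q x).tail = sx (pj q) x.tail := by
  unfold sx pj
  by_cases h : q.headI = 0
  · simp [h]
  · simp [h, xv_tail]

/-- the certificates at a stage -/
def Vs (ok : List ℕ → Bool) (c : ℕ) (S : FS) : List V :=
  (Lq ok c S.pn).filter (fun q => decide (xv (uv (S.pn+1)) (sx q (lastX S)) ∈ S.pK))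

lemma mem_Vs {c : ℕ} {S : FS} {q : V} : q ∈ Vs ok c S ↔
    q ∈ Lq ok c S.pn ∧ xv (uv (S.pn+1)) (sx q (lastX S)) ∈ S.pK := by
  simp [Vs]

lemma pr_Lq (hok : Primrec ok) {α : Type} [Primcodable α] {c n : α → ℕ} (hc : Primrec c)
    (hn : Primrec n) : Primrec fun a => Lq ok (c a) (n a) := by
  unfold Lq
  refine pr_sp (pr_cons (pr_zv (pr_succ (pr_succ hn))) (Primrec.const [])) ?_
  refine pr_map (g := fun a τ => eh (c a) τ) (pr_Tn hok hn) ?_
  exact pr_cons (Primrec.const 1) (pr_ev (hc.comp Primrec.fst) Primrec.snd)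

lemma pr_sx {α : Type} [Primcodable α] {q x : α → V} (hq : Primrec q) (hx : Primrec x) :
    Primrec fun a => sx (q a) (x a) := by
  unfold sx
  exact pr_ite (pr_eq (Primrec.list_headI.comp hq) (Primrec.const 0)) (Primrec.list_tail.comp hq)
    (pr_xv hx (Primrec.list_tail.comp hq))

lemma pr_lastX {α : Type} [Primcodable α] {S : α → FS} (hS : Primrec S) :
    Primrec fun a => lastX (S a) := by
  unfold lastX
  exact pr_getD [] (pr_pps hS) (pr_sub (pr_len (pr_pps hS)) (Primrec.const 1))

lemma pr_Vs (hok : Primrec ok) {α : Type} [Primcodable α] {c : α → ℕ} {S : α → FS} (hc : Primrec c)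
    (hS : Primrec S) : Primrec fun a => Vs ok (c a) (S a) := by
  unfold Vs
  refine pr_filter (p := fun a q => xv (uv ((S a).pn+1)) (sx q (lastX (S a))) ∈ (S a).pK)
    (pr_Lq hok hc (pr_pn hS)) ?_
  have hS' : Primrec (fun q : α × V => S q.1) := hS.comp Primrec.fst
  exact pr_mem (pr_xv (pr_uv (pr_succ (pr_pn hS'))) (pr_sx Primrec.snd (pr_lastX hS'))) (pr_pK hS')

lemma pr_pj {α : Type} [Primcodable α] {q : α → V} (hq : Primrec q) :
    Primrec fun a => pj (q a) := by
  unfold pj
  exact pr_cons (Primrec.list_headI.comp hq) (Primrec.list_tail.comp (Primrec.list_tail.comp hq))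

lemma Vs_ne {s e c : ℕ} {S : FS} (Ho : OutInv ok s e S) (hc : c = S.pps.length - 1) :
    Vs ok c S ≠ [] := by
  subst hc
  have hcrit := Ho.crit
  have hpos : 0 < S.pps.length ∨ S.pps.length = 0 := by omega
  have hX : (lastX S).length = S.pn+1 ∨ S.pps.length = 0 := by
    rcases hpos with h | h
    · left
      exact (Ho.pos (S.pps.length-1) (by omega) Ho.cact).1
    · exact Or.inr h
  rcases hX with hX | hX
  · obtain ⟨q, hq1, hq2⟩ := cert_exists (c := S.pps.length-1) Ho.grp.len hX hcrit
    have : q ∈ Vs ok (S.pps.length-1) S := mem_Vs.2 ⟨hq1, hq2⟩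
    intro h0
    rw [h0] at this
    simp at this
  · exfalso
    have h0 : lastX S = [] := by
      unfold lastX
      have : S.pps = [] := List.length_eq_zero_iff.1 hX
      rw [this]; rfl
    rw [h0] at hcrit
    have key : ∀ v ∈ sp S.pK ((Tn ok S.pn).map (fun τ => xv [] (ev (S.pps.length-1) τ))),
        v ∈ S.pK ∨ v = [] := by
      apply sp_induction
      · intro v hv; exact Or.inl hv
      · intro y hy v _
        rw [List.mem_map] at hy
        obtain ⟨τ, -, rfl⟩ := hy
        right; simp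
    rcases key _ hcrit with h | h
    · exact Ho.u h
    · have := congrArg List.length h
      simp at this

lemma Vs_bound {s e c : ℕ} {S : FS} (Ho : OutInv ok s e S) (hc : c = S.pps.length - 1)
    (hpos : 0 < S.pps.length) :
    ∃ L : List V, L.length ≤ 2 * 2^c ∧ ∀ q ∈ Vs ok c S, q ∈ L := by
  subst hc
  obtain ⟨L, hL1, hL2⟩ := Ho.bnd (S.pps.length-1) le_rfl
  have hX : (lastX S).length = S.pn+1 := (Ho.pos (S.pps.length-1) (by omega) Ho.cact).1
  refine ⟨L ++ L.map (xv (Ps ok (S.pps.length-1) S.pn (lastX S))), by simp; omega, ?_⟩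
  intro q hq
  obtain ⟨hq1, hq2⟩ := mem_Vs.1 hq
  have hk := hL2 _ hq2
  have hlen := sx_length hq1 hX
  have hqt : q.tail.length = S.pn+1 := by
    have := (Lq_grp _ _).len q hq1; simp [this]
  have hne1 : uv (S.pn+1) ≠ [] := by intro h0; have := congrArg List.length h0; simp at this
  have hne2 : sx q (lastX S) ≠ [] := by intro h0; rw [h0] at hlen; simp at hlen
  rw [Ps_xv hne1 hne2, Ps_uv, zv_xv (by rw [Ps_length])] at hk
  have hrec := Lq_recover hq1
  unfold sx at hk
  split_ifs at hk with h0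
  · rw [hrec] at hk
    simp [hk]
  · have hXne : lastX S ≠ [] := by intro h0; rw [h0] at hX; simp at hX
    have hqne : q.tail ≠ [] := by intro h0; rw [h0] at hqt; simp at hqt
    rw [Ps_xv hXne hqne, hrec] at hk
    simp only [List.mem_append, List.mem_map]
    right
    refine ⟨_, hk, ?_⟩
    rw [xv_cancel]
    rw [Ps_length, (Lq_grp _ _).len q hq1]

lemma Vs_nonzero {s e c : ℕ} {S : FS} (Ho : OutInv ok s e S) {q : V} (hq : q ∈ Vs ok c S) :
    q ≠ zv (S.pn+2) := by
  rintro rfl
  obtain ⟨-, h⟩ := mem_Vs.1 hq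
  have e1 : sx (zv (S.pn+2)) (lastX S) = zv (S.pn+1) := by simp [sx, zv, List.replicate_succ]
  rw [e1, xv_zv (by simp)] at h
  exact Ho.u h

lemma Vs_step {L : List FS} {s e c : ℕ} {S S' : FS} (hG : Good ok s e S) (h : Stp ok L s e S S')
    (hG' : Good ok (s+1) e S') (hc : c = S.pps.length - 1)
    (ha : S'.act.length = S.act.length) (hp : S'.pps.length = S.pps.length)
    (ho : Outs S) (ho' : Outs S') : ∀ q ∈ Vs ok c S',
      (S'.pn = S.pn ∧ q ∈ Vs ok c S) ∨ (S'.pn = S.pn+1 ∧ pj q ∈ Vs ok c S) := by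
  subst hc
  intro q hq
  have Ho := hG.out ho
  have Ho' := hG'.out ho'
  have hpos : 0 < S.pps.length := by unfold Outs at ho; omega
  have hX : (lastX S).length = S.pn+1 := (Ho.pos (S.pps.length-1) (by omega) Ho.cact).1
  have hX' : (lastX S').length = S'.pn+1 := (Ho'.pos (S'.pps.length-1) (by omega) Ho'.cact).1
  obtain ⟨hq1, hq2⟩ := mem_Vs.1 hq
  rcases pv_step hG h ha hp ho with ⟨h1, h2, h3⟩ | ⟨h1, h2, h3⟩
  · left
    refine ⟨h1, mem_Vs.2 ?_⟩
    rw [← h1, ← h2, ← h3]; exact ⟨hq1, hq2⟩
  · have hlenx := sx_length hq1 hX'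
    rcases Ho.lev with hl | hl
    · left
      have hpn : S'.pn = S.pn := by omega
      refine ⟨hpn, mem_Vs.2 ⟨by rw [← hpn]; exact hq1, ?_⟩⟩
      rw [h2] at hq2
      have h4 := Ho.proj _ hq2
      have e0 : S.n - S.pn = 0 := by omega
      rw [e0, List.drop_zero] at h3 h4
      rw [hpn] at h4 hX' hq1
      have e1 : lastX S = xv (lastX S') (xv (lastX S') (lastX S)) := by
        rw [xv_cancel (by rw [hX, hX'])]
      rw [e1]
      rcases sx_xv (x := lastX S') (q := q) (d := xv (lastX S') (lastX S)) with h5 | h5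
      · rw [h5]; exact h4
      · rw [h5, xv_left_comm]
        exact Ho.grp.add _ h3 _ h4
    · right
      have hpn : S'.pn = S.pn + 1 := by omega
      refine ⟨hpn, mem_Vs.2 ?_⟩
      rw [hpn] at hq1 hq2 hX'
      have hpj := pj_mem hq1
      refine ⟨hpj, ?_⟩
      rw [h2] at hq2
      have h4 := Ho.proj _ hq2
      have e0 : S.n - S.pn = 1 := by omega
      rw [e0, List.drop_one] at h3 h4
      rw [xv_tail, sx_pj] at h4
      have e2 : (uv (S.pn+1+1)).tail = uv (S.pn+1) := by simp [uv, List.replicate_succ]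
      rw [e2] at h4
      have hX't : (lastX S').tail.length = S.pn+1 := by simp [hX']
      have e1 : lastX S = xv (lastX S').tail (xv (lastX S').tail (lastX S)) := by
        rw [xv_cancel (by rw [hX, hX't])]
      rw [e1]
      rcases sx_xv (x := (lastX S').tail) (q := pj q) (d := xv (lastX S').tail (lastX S)) with h5 | h5
      · rw [h5]; exact h4
      · rw [h5, xv_left_comm]
        exact Ho.grp.add _ h3 _ h4

theorem levels_bounded (hok : Primrec ok) (hnp : ∀ f, Computable f → ¬ Path ok f) (e : ℕ) :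
    ∃ N, ∀ s, (fs ok s e).n ≤ N := by
  by_contra hcon
  push Not at hcon
  obtain ⟨s0, hs0⟩ := outs_of_unbounded hcon
  let S : ℕ → FS := fun k => fs ok (s0+k) e
  have hSO : ∀ k, Outs (S k) := fun k => (hs0 (s0+k) (by omega)).2
  have hSG : ∀ k, Good ok (s0+k) e (S k) := by
    intro k
    rcases fs_good (ok := ok) (s0+k) e with h | h
    · have := hSO k
      simp only [S] at this
      rw [h] at this
      simp [Outs, S0] at this
    · exact h.2
  have hlenc : ∀ k, (S k).pps.length = (fs ok s0 e).pps.length := fun k => (hs0 (s0+k) (by omega)).1.2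
  have hpos : 0 < (fs ok s0 e).pps.length := by
    have := hSO 0; unfold Outs at this; rw [hlenc 0] at this; omega
  set c := (fs ok s0 e).pps.length - 1 with hc
  have hcS : ∀ k, c = (S k).pps.length - 1 := fun k => by rw [hlenc]
  have hSpr : Primrec S := pr_fs hok (pr_add (Primrec.const s0) Primrec.id) (Primrec.const e)
  have hlev : Primrec (fun k => (S k).pn) := pr_pn hSpr
  -- steps
  have hstp : ∀ k, ∀ q ∈ Vs ok c (S (k+1)), ((S (k+1)).pn = (S k).pn ∧ q ∈ Vs ok c (S k)) ∨
      ((S (k+1)).pn = (S k).pn + 1 ∧ pj q ∈ Vs ok c (S k)) := by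
    intro k q hq
    rcases step_cases ok (s0+k) e with h1 | ⟨-, h0, -, -⟩ | ⟨-, hG, h1⟩
    · left
      have : S (k+1) = S k := h1
      rw [this] at hq ⊢
      exact ⟨rfl, hq⟩
    · exfalso
      have h2 := (hSG k).rpos
      simp only [S] at h2
      rw [h0] at h2
      exact h2 rfl
    · exact Vs_step hG h1 (hSG (k+1)) (hcS k) (hs0 (s0+k) (by omega)).1.1
        ((hlenc (k+1)).trans (hlenc k).symm) (hSO k) (hSO (k+1)) q hq
  let pr : ℕ → V → V := fun k q => if (S (k+1)).pn = (S k).pn then q else pj q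
  have hpr : Primrec₂ pr := by
    have h1 : Primrec (fun p : ℕ × V => (S (p.1+1)).pn) := hlev.comp (pr_succ Primrec.fst)
    have h2 : Primrec (fun p : ℕ × V => (S p.1).pn) := hlev.comp Primrec.fst
    exact pr_ite (pr_eq h1 h2) Primrec.snd (pr_pj Primrec.snd)
  obtain ⟨k0, σ, hσ1, hσ2, hσ3⟩ := thread (fun k => Vs ok c (S k)) (pr_Vs hok (Primrec.const c) hSpr)
    pr hpr (2 * 2^c) (fun k => Vs_bound ((hSG k).out (hSO k)) (hcS k) (by rw [hlenc]; exact hpos))
    (fun k => Vs_ne ((hSG k).out (hSO k)) (hcS k))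
    (fun k q hq => by
      rcases hstp k q hq with ⟨h1, h2⟩ | ⟨h1, h2⟩
      · simp only [pr]; rw [if_pos h1]; exact h2
      · simp only [pr]; rw [if_neg (by omega)]; exact h2)
  obtain ⟨f, hf1, hf2⟩ := path_of_thread (ok := ok) (c := c) (lev := fun j => (S (k0+j)).pn) hok
    (hlev.comp (pr_add (Primrec.const k0) Primrec.id)) hσ1 (fun j => (mem_Vs.1 (hσ2 j)).1)
    (fun j => by
      have h1 := hσ3 j
      rcases hstp (k0+j) _ (hσ2 (j+1)) with ⟨h2, -⟩ | ⟨h2, -⟩
      · left
        refine ⟨h2, ?_⟩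
        simp only [pr] at h1
        rw [if_pos h2] at h1
        exact h1
      · right
        refine ⟨h2, ?_⟩
        simp only [pr] at h1
        rw [if_neg (by omega)] at h1
        exact h1)
    (Vs_nonzero ((hSG k0).out (hSO k0)) (hσ2 0))
    (fun N => by
      obtain ⟨s, hs⟩ := hcon (max (N+1) (S k0).n)
      have hle : s0 + k0 ≤ s := by
        by_contra hlt
        have := fs_n_mono (ok := ok) e (show s ≤ s0 + k0 by omega)
        simp only [S] at this hs
        omega
      obtain ⟨j, rfl⟩ := Nat.exists_eq_add_of_le hle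
      refine ⟨j, ?_⟩
      have h1 := ((hSG (k0+j)).out (hSO (k0+j))).lev
      have h2 : S (k0+j) = fs ok (s0+k0+j) e := by simp only [S, Nat.add_assoc]
      rw [← h2] at hs
      omega)
  exact hnp f hf1 hf2

end Pool.Agent.W2helper50
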