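import Pool.Agent.W2helper50.Fin

set_option autoImplicit false

/-! The second structure, and the packaged combinatorial theorem. -/

namespace Pool.Agent.W2helper50

open Nat.Partrec (Code)

variable {ok : List ℕ → Bool}

/-- approximations to the translation of the second structure -/
def xB (e s j : ℕ) : ℕ := ((gk e j s).map (fun y => y ^^^ 1)).getD 0

lemma xB_stab {e s s' j : ℕ} (h : s ≤ s') (hj : (gk e j s).isSome = true) : xB e s' j = xB e s j := by
  obtain ⟨x, hx⟩ := Option.isSome_iff_exists.1 hj
  unfold xB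
  rw [gk_mono h hx, hx]

def mB (ok : List ℕ → Bool) (e s r : ℕ) (v : V) : Prop :=
  mA (fs ok s e) r (xv v (lst (xB e s) v.length))

instance (e s r : ℕ) (v : V) : Decidable (mB ok e s r v) := by unfold mB; infer_instance

lemma mB_mono {e s s' r : ℕ} {v : V} (h : s ≤ s') (hm : mB ok e s r v) : mB ok e s' r v := by
  unfold mB at hm ⊢
  by_cases hful : r < (fs ok s e).r ∧ ¬ (Outs (fs ok s e) ∧ r+1 = (fs ok s e).r)
  · exact mA_mono h (Or.inl hful)
  · rcases fs_good (ok := ok) s e with h0 | ⟨-, hG⟩
    · rw [h0] at hm; exact absurd hm (mA_S0 _ _)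
    · have hlen : v.length ≤ (fs ok s e).n + 1 := by
        rcases hm with h1 | ⟨h1, h2, h3⟩ | ⟨h1, h2⟩
        · exact absurd h1 hful
        · have := (hG.out h1).grp.len _ h3
          have h5 := (hG.out h1).lev
          simp at this
          omega
        · have := hG.grp.len _ h2
          simp at this
          omega
      have e1 : lst (xB e s') v.length = lst (xB e s) v.length := by
        apply lst_congr
        intro j hj
        exact xB_stab h (hG.g j (by omega))
      rw [e1]
      exact mA_mono h hm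

def MkB (ok : List ℕ → Bool) (e r : ℕ) (v : V) : Prop := ∃ s, mB ok e s r v

/-- the second structure is a translate of the first -/
lemma mkB_translate (ok : List ℕ → Bool) (e : ℕ) :
    ∃ x : ℕ → ℕ, ∀ r v, MkB ok e r v ↔ MkA ok e r (xv v (lst x v.length)) := by
  classical
  let x : ℕ → ℕ := fun j => if h : ∃ s, (gk e j s).isSome = true then xB e h.choose j else 0
  have hx : ∀ j, ∃ s, ∀ s', s ≤ s' → xB e s' j = x j := by
    intro j
    by_cases h : ∃ s, (gk e j s).isSome = true
    · refine ⟨h.choose, fun s' hs' => ?_⟩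
      simp only [x]
      rw [dif_pos h]
      exact xB_stab hs' h.choose_spec
    · refine ⟨0, fun s' _ => ?_⟩
      simp only [x]
      rw [dif_neg h]
      unfold xB
      have : gk e j s' = none := by
        by_contra hne
        exact h ⟨s', Option.isSome_iff_ne_none.2 hne⟩
      rw [this]; rfl
  have hx' : ∀ k, ∃ s, ∀ s', s ≤ s' → lst (xB e s') k = lst x k := by
    intro k
    choose D hD using hx
    obtain ⟨M, hM⟩ := uniform_bound (l := List.range k) (A := fun j d => D j ≤ d)
      (fun t d h => by omega) (fun j _ => ⟨D j, le_rfl⟩)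
    refine ⟨M, fun s' hs' => lst_congr (fun j hj => hD j s' ?_)⟩
    have : D j ≤ M := hM j (List.mem_range.2 hj)
    omega
  refine ⟨x, fun r v => ?_⟩
  obtain ⟨s1, hs1⟩ := hx' v.length
  constructor
  · rintro ⟨s, hs⟩
    have h1 := mB_mono (le_max_left s s1) hs
    unfold mB at h1
    rw [hs1 _ (le_max_right s s1)] at h1
    exact ⟨_, h1⟩
  · rintro ⟨s, hs⟩
    refine ⟨max s s1, ?_⟩
    unfold mB
    rw [hs1 _ (le_max_right s s1)]
    exact mA_mono (le_max_left s s1) hs

/-- computable translations do not match the two structures -/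
lemma diag (hok : Primrec ok) (hnp : ∀ f, Computable f → ¬ Path ok f) {γ : ℕ → ℕ → ℕ}
    (hγ : Computable₂ γ) : ∃ e r v, MkA ok e r v ∧ ¬ MkB ok e r (xv v (lst (γ e) v.length)) := by
  have h1 : Computable (fun z : ℕ => γ z.unpair.1 z.unpair.2) :=
    Computable₂.comp hγ (Computable.fst.comp Computable.unpair) (Computable.snd.comp Computable.unpair)
  have h2 : Nat.Partrec (fun z : ℕ => Part.some (γ z.unpair.1 z.unpair.2)) := Partrec.nat_iff.1 h1
  obtain ⟨c, hc⟩ := Code.exists_code.1 h2
  let e := Encodable.encode c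
  have hec : Denumerable.ofNat Code e = c := Denumerable.ofNat_encode c
  have hev : ∀ j, Code.eval (Denumerable.ofNat Code e) (Nat.pair e j) = Part.some (γ e j) := by
    intro j
    rw [hec, hc]
    simp
  have hg1 : ∀ j, ∃ s, gk e j s = some (γ e j) := by
    intro j
    have : γ e j ∈ Code.eval (Denumerable.ofNat Code e) (Nat.pair e j) := by
      rw [hev]; exact Part.mem_some _
    obtain ⟨k, hk⟩ := Code.evaln_complete.1 this
    exact ⟨k, hk⟩
  have hg2 : ∀ j s y, gk e j s = some y → y = γ e j := by
    intro j s y hy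
    have : y ∈ Code.eval (Denumerable.ofNat Code e) (Nat.pair e j) := Code.evaln_sound hy
    rw [hev] at this
    exact Part.mem_some_iff.1 this
  obtain ⟨s0, hs0⟩ := fin_of_total hok hnp (e := e) (fun j => by
    obtain ⟨s, hs⟩ := hg1 j
    exact ⟨s, by rw [hs]; rfl⟩)
  have hr : (fs ok s0 e).r ≠ 0 := by
    intro h0
    rcases fs_good (ok := ok) s0 e with h | h
    · obtain ⟨s1, hs1⟩ := hg1 0
      let s := max (max s0 s1) e
      have a1 := fs_succ (ok := ok) (show e ≤ s from le_max_right _ _)
      have hs : s0 ≤ s := le_trans (le_max_left _ _) (le_max_left _ _)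
      rw [hs0 (s+1) (by omega), hs0 s hs, h] at a1
      unfold stepF at a1
      rw [if_pos (by rfl), if_pos] at a1
      · have := congrArg FS.r a1
        simp [startS, S0] at this
      · rw [gk_mono (le_trans (le_max_right s0 s1) (le_max_left _ _)) hs1]; rfl
    · exact h.2.rpos h0
  have hG := fs_good_of_r hr
  set S := fs ok s0 e with hS
  refine ⟨e, S.r, zv (S.n+1), ⟨s0, mA_cur.2 hG.grp.zero⟩, ?_⟩
  rintro ⟨s, hs⟩
  have hs' := mB_mono (le_max_left s s0) hs
  unfold mB at hs'
  have hG' := hG.mono (le_max_right s s0)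
  rw [hs0 _ (le_max_right s s0), ← hS, mA_cur, xv_length, zv_length, lst_length, min_self,
    zv_xv (by simp), lst_xv] at hs'
  have e1 : lst (fun j => γ e j ^^^ xB e (max s s0) j) (S.n+1) = uv (S.n+1) := by
    rw [← lst_const_one]
    apply lst_congr
    intro j hj
    obtain ⟨y, hy⟩ := Option.isSome_iff_exists.1 (hG'.g j (by omega))
    unfold xB
    rw [hy]
    simp only [Option.map_some, Option.getD_some]
    rw [hg2 j _ y hy, ← Nat.xor_assoc, Nat.xor_self, Nat.zero_xor]
  rw [e1] at hs'
  exact hG.u hs'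

/-! packaged theorem -/

lemma pr_Outs {α : Type} [Primcodable α] {S : α → FS} (hS : Primrec S) :
    PrimrecPred fun a => Outs (S a) := pr_lt (pr_len (pr_ps hS)) (pr_len (pr_pps hS))

lemma pr_mA {α : Type} [Primcodable α] {S : α → FS} {r : α → ℕ} {v : α → V} (hS : Primrec S)
    (hr : Primrec r) (hv : Primrec v) : PrimrecPred fun a => mA (S a) (r a) (v a) := by
  unfold mA
  exact pr_or (pr_and (pr_lt hr (pr_r hS)) (pr_not (pr_and (pr_Outs hS) (pr_eq (pr_succ hr) (pr_r hS)))))
    (pr_or (pr_and (pr_Outs hS) (pr_and (pr_eq (pr_succ hr) (pr_r hS)) (pr_mem hv (pr_pK hS))))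
      (pr_and (pr_eq hr (pr_r hS)) (pr_mem hv (pr_K hS))))

lemma lst_eq (w : ℕ → ℕ) (n : ℕ) : lst w n = (List.range n).reverse.map w := by
  induction n with
  | zero => rfl
  | succ n ih => rw [lst_succ, ih, List.range_succ]; simp

lemma pr_lst {α : Type} [Primcodable α] {w : α → ℕ → ℕ} {n : α → ℕ}
    (hw : Primrec fun p : α × ℕ => w p.1 p.2) (hn : Primrec n) : Primrec fun a => lst (w a) (n a) := by
  have h : Primrec fun a => (List.range (n a)).reverse.map (w a) :=
    pr_map (Primrec.list_reverse.comp (Primrec.list_range.comp hn)) hw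
  exact h.of_eq (fun a => (lst_eq _ _).symm)

lemma pr_mB (hok : Primrec ok) {α : Type} [Primcodable α] {e s r : α → ℕ} {v : α → V}
    (he : Primrec e) (hs : Primrec s) (hr : Primrec r) (hv : Primrec v) :
    PrimrecPred fun a => mB ok (e a) (s a) (r a) (v a) := by
  unfold mB
  refine pr_mA (pr_fs hok hs he) hr (pr_xv hv (pr_lst ?_ (pr_len hv)))
  unfold xB
  refine pr_oGetD (Primrec.option_map (pr_gk (he.comp Primrec.fst) Primrec.snd (hs.comp Primrec.fst))
    (g := fun _ y => y ^^^ 1) ?_) (Primrec.const 0)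
  exact pr_xor Primrec.snd (Primrec.const 1)

end Pool.Agent.W2helper50
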