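import Pool.Agent.W2helper50.StructComp

set_option autoImplicit false

/-! The two structures are not computably isomorphic. -/

namespace Pool.Agent.W2helper50

variable {ok : List ℕ → Bool}

/-- marks of the first structure -/
def mka (ok : List ℕ → Bool) (e r : ℕ) (v : V) (s : ℕ) : Prop := mA (fs ok s e) r v

/-- marks of the second structure -/
def mkb (ok : List ℕ → Bool) (e r : ℕ) (v : V) (s : ℕ) : Prop := mB ok e s r v

lemma prmk_a (hok : Primrec ok) : PrMk (mka ok) := by
  unfold PrMk mka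
  have h : Primrec (fun p : ℕ × ℕ × V × ℕ => p) := Primrec.id
  exact pr_mA (pr_fs hok (Primrec.snd.comp (Primrec.snd.comp (Primrec.snd.comp h))) (Primrec.fst.comp h))
    (Primrec.fst.comp (Primrec.snd.comp h)) (Primrec.fst.comp (Primrec.snd.comp (Primrec.snd.comp h)))

lemma prmk_b (hok : Primrec ok) : PrMk (mkb ok) := by
  unfold PrMk mkb
  have h : Primrec (fun p : ℕ × ℕ × V × ℕ => p) := Primrec.id
  exact pr_mB hok (Primrec.fst.comp h) (Primrec.snd.comp (Primrec.snd.comp (Primrec.snd.comp h)))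
    (Primrec.fst.comp (Primrec.snd.comp h)) (Primrec.fst.comp (Primrec.snd.comp (Primrec.snd.comp h)))

lemma mkab_iso (ok : List ℕ → Bool) : ∃ f, Iso (strOf (mka ok)) (strOf (mkb ok)) f := by
  choose x hx using mkB_translate ok
  refine ⟨_, iso_translate (a := x) ?_⟩
  intro e r v
  have h1 := hx e r (xv v (lst (x e) v.length))
  rw [xv_lst_cancel] at h1
  exact h1.symm

lemma iso_rel {mk : ℕ → ℕ → V → ℕ → Prop} {C : ℕ → List ℕ → Bool} {h : ℕ → ℕ}
    (hh : Iso (strOf mk) C h) {ρ : Rel} {xs : List Elt} :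
    RelOf mk ρ xs ↔ C (Encodable.encode ρ) (xs.map (fun x => h (Encodable.encode x))) = true := by
  have h1 := hh.2 (Encodable.encode ρ) (xs.map Encodable.encode)
  rw [List.map_map] at h1
  have h2 : (h ∘ Encodable.encode : Elt → ℕ) = fun x => h (Encodable.encode x) := rfl
  rw [h2] at h1
  rw [← h1, strOf_iff, decR_encode, List.map_map]
  have : (dec ∘ Encodable.encode : Elt → Elt) = id := by funext x; simp
  rw [this, List.map_id]

lemma iso_rel' {mk mk' : ℕ → ℕ → V → ℕ → Prop} {h : ℕ → ℕ}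
    (hh : Iso (strOf mk) (strOf mk') h) {ρ : Rel} {xs : List Elt} :
    RelOf mk ρ xs ↔ RelOf mk' ρ (xs.map (fun x => dec (h (Encodable.encode x)))) := by
  rw [iso_rel hh, strOf_iff, decR_encode, List.map_map]
  rfl

theorem no_comp_iso (hok : Primrec ok) (hnp : ∀ f, Computable f → ¬ Path ok f) {φ : ℕ → ℕ}
    (hφ : Iso (strOf (mka ok)) (strOf (mkb ok)) φ) (hc : Computable φ) : False := by
  let F : Elt → Elt := fun x => dec (φ (Encodable.encode x))
  let γ : ℕ → ℕ → ℕ := fun e j => cof (F (tor e j 0))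
  have hF : ∀ e j v, F (tor e j v) = tor e j (v ^^^ γ e j) := by
    intro e j v
    have h1 : RelOf (mka ok) (rTr e j v) [tor e j 0, tor e j v] := ⟨0, by simp⟩
    rw [iso_rel' hφ] at h1
    obtain ⟨u, hu⟩ := h1
    simp only [List.map_cons, List.map_nil, List.cons.injEq, and_true] at hu
    obtain ⟨h2, h3⟩ := hu
    have e1 : γ e j = u := by
      show cof (dec (φ (Encodable.encode (tor e j 0)))) = u
      rw [h2]; rfl
    show dec (φ (Encodable.encode (tor e j v))) = _
    rw [h3, e1, Nat.xor_comm]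
  have hγ : Computable₂ γ := by
    have h1 : Computable (fun p : ℕ × ℕ => Encodable.encode (tor p.1 p.2 0)) := by
      have : Primrec (fun p : ℕ × ℕ => Encodable.encode (tor p.1 p.2 0)) :=
        pr_encode (Primrec.sumInl.comp (Primrec.fst.pair (Primrec.snd.pair (Primrec.const 0))))
      exact this.to_comp
    have h2 : Primrec (fun n : ℕ => cof (dec n)) := pr_cof (pr_dec Primrec.id)
    exact h2.to_comp.comp (hc.comp h1)
  obtain ⟨e, r, v, hv1, hv2⟩ := diag hok hnp hγ
  apply hv2
  obtain ⟨s, hs⟩ := valid_exists (mk := mka ok) (e := e) (r := r) (v := v) hv1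
  have h1 : RelOf (mka ok) (rM e r) (mrk e r v s :: tup e v) := ⟨v, s, hs, rfl⟩
  rw [iso_rel' hφ] at h1
  obtain ⟨v', s', hs', h2⟩ := h1
  rw [List.map_cons, tup_map (a := γ) e v (fun j u => hF e j u)] at h2
  rw [List.cons.injEq] at h2
  rw [tup_inj h2.2]
  exact ⟨s', hs'.1⟩

end Pool.Agent.W2helper50
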