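import Mathlib

set_option autoImplicit false

/-! Combinators for primitive recursive functions, in pointwise form. -/

namespace Pool.Agent.W2helper50

open Nat.Partrec (Code)

section comb
variable {α β γ σ : Type*} [Primcodable α] [Primcodable β] [Primcodable γ] [Primcodable σ]

lemma pr_map {f : α → List β} {g : α → β → σ} (hf : Primrec f)
    (hg : Primrec fun q : α × β => g q.1 q.2) : Primrec fun a => (f a).map (g a) :=
  Primrec.list_map hf hg

lemma pr_filterMap {f : α → List β} {g : α → β → Option σ} (hf : Primrec f)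
    (hg : Primrec fun q : α × β => g q.1 q.2) : Primrec fun a => (f a).filterMap (g a) :=
  Primrec.listFilterMap hf hg

lemma pr_flatMap {f : α → List β} {g : α → β → List σ} (hf : Primrec f)
    (hg : Primrec fun q : α × β => g q.1 q.2) : Primrec fun a => (f a).flatMap (g a) :=
  Primrec.list_flatMap hf hg

lemma pr_filter {f : α → List β} {p : α → β → Prop} [∀ a b, Decidable (p a b)] (hf : Primrec f)
    (hp : PrimrecPred fun q : α × β => p q.1 q.2) :
    Primrec fun a => (f a).filter (fun b => decide (p a b)) := by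
  have h : PrimrecRel (fun (b : β) (a : α) => p a b) := hp.comp (Primrec.snd.pair Primrec.fst)
  exact (PrimrecRel.listFilter h).comp hf Primrec.id

lemma pr_forall {f : α → List β} {p : α → β → Prop} (hf : Primrec f)
    (hp : PrimrecPred fun q : α × β => p q.1 q.2) :
    PrimrecPred fun a => ∀ b ∈ f a, p a b := by
  have h : PrimrecRel (fun (b : β) (a : α) => p a b) := hp.comp (Primrec.snd.pair Primrec.fst)
  exact (PrimrecRel.forall_mem_list h).comp hf Primrec.id

lemma pr_exists {f : α → List β} {p : α → β → Prop} (hf : Primrec f)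
    (hp : PrimrecPred fun q : α × β => p q.1 q.2) :
    PrimrecPred fun a => ∃ b ∈ f a, p a b := by
  have h : PrimrecRel (fun (b : β) (a : α) => p a b) := hp.comp (Primrec.snd.pair Primrec.fst)
  exact (PrimrecRel.exists_mem_list h).comp hf Primrec.id

lemma pr_forall_lt {f : α → ℕ} {p : α → ℕ → Prop} (hf : Primrec f)
    (hp : PrimrecPred fun q : α × ℕ => p q.1 q.2) :
    PrimrecPred fun a => ∀ b < f a, p a b :=
  (pr_forall (Primrec.list_range.comp hf) hp).of_eq (by simp)

lemma pr_exists_lt {f : α → ℕ} {p : α → ℕ → Prop} (hf : Primrec f)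
    (hp : PrimrecPred fun q : α × ℕ => p q.1 q.2) :
    PrimrecPred fun a => ∃ b < f a, p a b :=
  (pr_exists (Primrec.list_range.comp hf) hp).of_eq (by simp)

lemma pr_eq {f g : α → β} (hf : Primrec f) (hg : Primrec g) : PrimrecPred fun a => f a = g a :=
  Primrec.eq.comp hf hg

lemma pr_mem {f : α → β} {g : α → List β} (hf : Primrec f) (hg : Primrec g) :
    PrimrecPred fun a => f a ∈ g a := by
  have h : PrimrecPred fun a => ∃ b ∈ g a, b = f a :=
    pr_exists (p := fun a b => b = f a) hg (pr_eq Primrec.snd (hf.comp Primrec.fst))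
  exact h.of_eq (by intro a; simp)

lemma pr_and {p q : α → Prop} (hp : PrimrecPred p) (hq : PrimrecPred q) :
    PrimrecPred fun a => p a ∧ q a := hp.and hq

lemma pr_or {p q : α → Prop} (hp : PrimrecPred p) (hq : PrimrecPred q) :
    PrimrecPred fun a => p a ∨ q a := hp.or hq

lemma pr_not {p : α → Prop} (hp : PrimrecPred p) : PrimrecPred fun a => ¬ p a := hp.not

lemma pr_imp {p q : α → Prop} (hp : PrimrecPred p) (hq : PrimrecPred q) :
    PrimrecPred fun a => p a → q a := by
  refine (pr_or (pr_not hp) hq).of_eq ?_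
  intro a
  constructor
  · rintro (h | h) hp
    · exact absurd hp h
    · exact h
  · intro h
    by_cases hp : p a
    · exact Or.inr (h hp)
    · exact Or.inl hp

lemma pr_lt {f g : α → ℕ} (hf : Primrec f) (hg : Primrec g) : PrimrecPred fun a => f a < g a :=
  Primrec.nat_lt.comp hf hg

lemma pr_le {f g : α → ℕ} (hf : Primrec f) (hg : Primrec g) : PrimrecPred fun a => f a ≤ g a :=
  Primrec.nat_le.comp hf hg

lemma pr_ite {p : α → Prop} [DecidablePred p] {f g : α → σ} (hp : PrimrecPred p) (hf : Primrec f)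
    (hg : Primrec g) : Primrec fun a => if p a then f a else g a := Primrec.ite hp hf hg

lemma pr_isSome {f : α → Option β} (hf : Primrec f) : PrimrecPred fun a => (f a).isSome = true :=
  pr_eq (Primrec.option_isSome.comp hf) (Primrec.const true)

lemma pr_getD {f : α → List β} {g : α → ℕ} (d : β) (hf : Primrec f) (hg : Primrec g) :
    Primrec fun a => (f a).getD (g a) d := (Primrec.list_getD d).comp hf hg

lemma pr_evaln {k : α → ℕ} {c : α → Code} {x : α → ℕ} (hk : Primrec k) (hc : Primrec c)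
    (hx : Primrec x) : Primrec fun a => Code.evaln (k a) (c a) (x a) :=
  Code.primrec_evaln.comp ((hk.pair hc).pair hx)

lemma pr_decode {f : α → ℕ} (hf : Primrec f) : Primrec fun a => (Encodable.decode (f a) : Option β) :=
  Primrec.decode.comp hf

lemma pr_encode {f : α → β} (hf : Primrec f) : Primrec fun a => Encodable.encode (f a) :=
  Primrec.encode.comp hf

lemma pr_oGetD {f : α → Option β} {g : α → β} (hf : Primrec f) (hg : Primrec g) :
    Primrec fun a => (f a).getD (g a) := Primrec.option_getD.comp hf hg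

lemma pr_code {f : α → ℕ} (hf : Primrec f) : Primrec fun a => Denumerable.ofNat Code (f a) :=
  (Primrec.ofNat Code).comp hf

lemma pr_foldl {f : α → List β} {g : α → σ} {h : α → σ → β → σ} (hf : Primrec f) (hg : Primrec g)
    (hh : Primrec fun q : α × σ × β => h q.1 q.2.1 q.2.2) :
    Primrec fun a => (f a).foldl (fun s b => h a s b) (g a) :=
  Primrec.list_foldl hf hg (h := fun a sb => h a sb.1 sb.2) hh

lemma pr_foldr {f : α → List β} {g : α → σ} {h : α → β → σ → σ} (hf : Primrec f) (hg : Primrec g)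
    (hh : Primrec fun q : α × β × σ => h q.1 q.2.1 q.2.2) :
    Primrec fun a => (f a).foldr (fun b s => h a b s) (g a) :=
  Primrec.list_foldr hf hg (h := fun a sb => h a sb.1 sb.2) hh

lemma pr_natrec {f : α → ℕ} {g : α → σ} {h : α → ℕ → σ → σ} (hf : Primrec f) (hg : Primrec g)
    (hh : Primrec fun q : α × ℕ × σ => h q.1 q.2.1 q.2.2) :
    Primrec fun a => (Nat.rec (g a) (fun i y => h a i y) (f a) : σ) :=
  Primrec.nat_rec' hf hg (h := fun a sb => h a sb.1 sb.2) hh

end comb

/-! exclusive or -/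

def xorF (a b N : ℕ) : ℕ → ℕ :=
  fun j => Nat.rec 0 (fun i y => 2 * y + (a / 2^(N-i-1) + b / 2^(N-i-1)) % 2) j

lemma xor_step (x y : ℕ) : x ^^^ y = 2 * ((x/2) ^^^ (y/2)) + (x + y) % 2 := by
  apply Nat.eq_of_testBit_eq
  intro i
  cases i with
  | zero =>
    simp only [Nat.testBit_zero]
    rcases Nat.mod_two_eq_zero_or_one x with h1 | h1 <;> rcases Nat.mod_two_eq_zero_or_one y with h2 | h2 <;>
      simp [h1, h2, Nat.add_mod]
  | succ i =>
    rw [Nat.testBit_xor, Nat.testBit_succ, Nat.testBit_succ, Nat.testBit_succ]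
    have : (2 * ((x/2) ^^^ (y/2)) + (x + y) % 2) / 2 = (x/2) ^^^ (y/2) := by omega
    rw [this, Nat.testBit_xor]

lemma xorF_eq (a b N j : ℕ) (hj : j ≤ N) (ha : a / 2^N = 0) (hb : b / 2^N = 0) :
    xorF a b N j = (a / 2^(N-j)) ^^^ (b / 2^(N-j)) := by
  induction j with
  | zero => simp [xorF, ha, hb]
  | succ j ih =>
    have ih' := ih (by omega)
    have e : xorF a b N (j+1) = 2 * xorF a b N j + (a / 2^(N-j-1) + b / 2^(N-j-1)) % 2 := rfl
    rw [e, ih', xor_step (a / 2^(N-(j+1)))]
    have e2 : N - j = N - (j+1) + 1 := by omega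
    have e3 : N - j - 1 = N - (j+1) := by omega
    rw [e3, e2, pow_succ, ← Nat.div_div_eq_div_mul, ← Nat.div_div_eq_div_mul]

lemma div_pow_zero (a b : ℕ) : a / 2^(a+b) = 0 := by
  apply Nat.div_eq_of_lt
  exact lt_of_lt_of_le Nat.lt_two_pow_self (Nat.pow_le_pow_right (by omega) (by omega))

lemma primrec_pow {α : Type*} [Primcodable α] {f : α → ℕ} (hf : Primrec f) :
    Primrec fun a => 2 ^ (f a) := by
  have h : Primrec fun a => (Nat.rec 1 (fun _ y => 2 * y) (f a) : ℕ) :=
    pr_natrec (h := fun _ _ y => 2 * y) hf (Primrec.const 1)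
      (Primrec.nat_mul.comp (Primrec.const 2) (Primrec.snd.comp Primrec.snd))
  refine h.of_eq ?_
  intro a
  induction f a with
  | zero => rfl
  | succ n ih => simp only [ih]; rw [pow_succ]; ring

lemma primrec_xor : Primrec₂ (fun a b : ℕ => a ^^^ b) := by
  have h : Primrec (fun p : ℕ × ℕ => xorF p.1 p.2 (p.1+p.2) (p.1+p.2)) := by
    unfold xorF
    have hN : Primrec (fun p : ℕ × ℕ => p.1 + p.2) := Primrec.nat_add.comp Primrec.fst Primrec.snd
    refine pr_natrec (h := fun (p : ℕ × ℕ) i y => 2 * y + (p.1 / 2^(p.1+p.2-i-1)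
      + p.2 / 2^(p.1+p.2-i-1)) % 2) hN (Primrec.const 0) ?_
    have hpow : Primrec (fun q : (ℕ × ℕ) × ℕ × ℕ => 2^(q.1.1+q.1.2-q.2.1-1)) := by
      apply primrec_pow
      exact Primrec.nat_sub.comp (Primrec.nat_sub.comp (hN.comp Primrec.fst)
        (Primrec.fst.comp Primrec.snd)) (Primrec.const 1)
    refine Primrec.nat_add.comp (Primrec.nat_mul.comp (Primrec.const 2)
      (Primrec.snd.comp Primrec.snd)) (Primrec.nat_mod.comp (Primrec.nat_add.comp ?_ ?_)
        (Primrec.const 2))
    · exact Primrec.nat_div.comp (Primrec.fst.comp Primrec.fst) hpow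
    · exact Primrec.nat_div.comp (Primrec.snd.comp Primrec.fst) hpow
  refine Primrec₂.of_eq (f := fun a b => xorF a b (a+b) (a+b)) h ?_
  intro a b
  rw [xorF_eq a b (a+b) (a+b) le_rfl (div_pow_zero a b)]
  · simp
  · rw [Nat.add_comm]; exact div_pow_zero b a

lemma pr_xor {α : Type*} [Primcodable α] {f g : α → ℕ} (hf : Primrec f) (hg : Primrec g) :
    Primrec fun a => f a ^^^ g a := primrec_xor.comp hf hg

lemma pr_testBit {α : Type*} [Primcodable α] {f g : α → ℕ} (hf : Primrec f) (hg : Primrec g) :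
    PrimrecPred fun a => (f a).testBit (g a) = true := by
  have h : PrimrecPred fun a => (f a / 2^(g a)) % 2 = 1 :=
    pr_eq (Primrec.nat_mod.comp (Primrec.nat_div.comp hf (primrec_pow hg)) (Primrec.const 2))
      (Primrec.const 1)
  refine h.of_eq ?_
  intro a
  rw [Nat.testBit_eq_decide_div_mod_eq]
  simp

/-- unbounded search -/
lemma search {α : Type*} [Primcodable α] {Q : α → ℕ → Bool} (hQ : Computable₂ Q)
    (hex : ∀ a, ∃ d, Q a d = true) : ∃ ds : α → ℕ, Computable ds ∧ ∀ a, Q a (ds a) = true := by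
  refine ⟨fun a => Nat.find (hex a), ?_, fun a => Nat.find_spec (hex a)⟩
  have hp1 : Partrec (fun a : α => Nat.rfind ((fun d => Part.some (Q a d) : ℕ →. Bool))) :=
    Partrec.rfind hQ.partrec₂
  refine hp1.of_eq ?_
  intro a
  refine Part.eq_some_iff.2 (Nat.mem_rfind.2 ⟨?_, ?_⟩)
  · simp [Nat.find_spec (hex a)]
  · intro m hm
    have := Nat.find_min (hex a) hm
    simpa using this

lemma search_pr {α : Type*} [Primcodable α] {Q : α → ℕ → Prop}
    (hQ : PrimrecPred fun p : α × ℕ => Q p.1 p.2)
    (hex : ∀ a, ∃ d, Q a d) : ∃ ds : α → ℕ, Computable ds ∧ ∀ a, Q a (ds a) := by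
  classical
  have h1 : Primrec fun p : α × ℕ => decide (Q p.1 p.2) := hQ.decide
  have h2 : Computable₂ (fun a d => decide (Q a d)) := h1.to_comp
  obtain ⟨ds, h3, h4⟩ := search h2 (fun a => by
    obtain ⟨d, hd⟩ := hex a
    exact ⟨d, by simpa using hd⟩)
  exact ⟨ds, h3, fun a => by simpa using h4 a⟩

end Pool.Agent.W2helper50
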