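import Pool.Agent.W2helper50.Pr
import Pool.Agent.W2helper50.Constr

set_option autoImplicit false

/-! The construction is primitive recursive. -/

namespace Pool.Agent.W2helper50

open Nat.Partrec (Code)

variable {α : Type} [Primcodable α]

lemma xv_eq (a b : V) : xv a b =
    (List.range (min a.length b.length)).map (fun i => a.getD i 0 ^^^ b.getD i 0) := by
  apply List.ext_getElem
  · simp
  · intro i h1 h2
    simp only [xv_length] at h1
    have ha : i < a.length := by omega
    have hb : i < b.length := by omega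
    simp only [xv, List.getElem_zipWith, List.getElem_map, List.getElem_range]
    rw [List.getD_eq_getElem _ _ ha, List.getD_eq_getElem _ _ hb]

lemma pr_xv {f g : α → V} (hf : Primrec f) (hg : Primrec g) : Primrec fun a => xv (f a) (g a) := by
  have h : Primrec fun a => (List.range (min (f a).length (g a).length)).map
      (fun i => (f a).getD i 0 ^^^ (g a).getD i 0) := by
    refine pr_map (g := fun a i => (f a).getD i 0 ^^^ (g a).getD i 0)
      (Primrec.list_range.comp (Primrec.nat_min.comp (Primrec.list_length.comp hf)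
      (Primrec.list_length.comp hg))) ?_
    exact pr_xor (pr_getD 0 (hf.comp Primrec.fst) Primrec.snd) (pr_getD 0 (hg.comp Primrec.fst) Primrec.snd)
  exact h.of_eq (fun a => (xv_eq _ _).symm)

lemma pr_zv {f : α → ℕ} (hf : Primrec f) : Primrec fun a => zv (f a) := by
  have h : Primrec fun a => (List.range (f a)).map (fun _ => 0) :=
    pr_map (g := fun _ _ => 0) (Primrec.list_range.comp hf) (Primrec.const 0)
  exact h.of_eq (fun a => by simp [zv])

lemma pr_uv {f : α → ℕ} (hf : Primrec f) : Primrec fun a => uv (f a) := by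
  have h : Primrec fun a => (List.range (f a)).map (fun _ => 1) :=
    pr_map (g := fun _ _ => 1) (Primrec.list_range.comp hf) (Primrec.const 1)
  exact h.of_eq (fun a => by simp [uv])

lemma pr_pair {f g : α → ℕ} (hf : Primrec f) (hg : Primrec g) :
    Primrec fun a => Nat.pair (f a) (g a) := Primrec₂.natPair.comp hf hg

lemma pr_bi {f : α → ℕ} {g : α → List ℕ} (hf : Primrec f) (hg : Primrec g) :
    Primrec fun a => bi (f a) (g a) :=
  Primrec.succ.comp (pr_pair hf (pr_encode hg))

lemma pr_ec {f : α → ℕ} {g : α → List ℕ} (hf : Primrec f) (hg : Primrec g) :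
    Primrec fun a => ec (f a) (g a) := primrec_pow (pr_bi hf hg)

lemma ev_eq (m : ℕ) (τ : List ℕ) : ev m τ = (List.range (τ.length+1)).map (fun i => ec m (τ.drop i)) := by
  induction τ with
  | nil => rfl
  | cons a τ ih =>
    rw [List.length_cons, List.range_succ_eq_map, List.map_cons, List.map_map]
    simp only [ev, ih]
    rfl

lemma pr_ev {f : α → ℕ} {g : α → List ℕ} (hf : Primrec f) (hg : Primrec g) :
    Primrec fun a => ev (f a) (g a) := by
  have h : Primrec fun a => (List.range ((g a).length+1)).map (fun i => ec (f a) ((g a).drop i)) := by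
    refine pr_map (g := fun a i => ec (f a) ((g a).drop i))
      (Primrec.list_range.comp (Primrec.succ.comp (Primrec.list_length.comp hg))) ?_
    exact pr_ec (hf.comp Primrec.fst) (Primrec.list_drop.comp Primrec.snd (hg.comp Primrec.fst))
  exact h.of_eq (fun a => (ev_eq _ _).symm)

lemma pr_sp {f g : α → List V} (hf : Primrec f) (hg : Primrec g) :
    Primrec fun a => sp (f a) (g a) := by
  unfold sp
  refine pr_foldl (h := fun _ K y => K ++ K.map (xv y)) hg hf ?_
  refine Primrec.list_append.comp (Primrec.fst.comp Primrec.snd) ?_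
  refine pr_map (g := fun (q : α × List V × V) v => xv q.2.2 v) (Primrec.fst.comp Primrec.snd) ?_
  exact pr_xv (Primrec.snd.comp (Primrec.snd.comp Primrec.fst)) Primrec.snd

variable {ok : List ℕ → Bool}

lemma Tn_eq (ok : List ℕ → Bool) (n : ℕ) : Tn ok n = Nat.rec [[]] (fun _ (y : List (List ℕ)) =>
    (y.flatMap (fun τ => [0::τ, 1::τ, 2::τ])).filter (fun τ => decide (ok τ = true))) n := by
  induction n with
  | zero => rfl
  | succ n ih =>
    simp only [Tn]
    rw [ih]
    congr 1
    funext τ
    simp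

lemma pr_Tn (hok : Primrec ok) {f : α → ℕ} (hf : Primrec f) : Primrec fun a => Tn ok (f a) := by
  have h : Primrec fun a => (Nat.rec [[]] (fun _ (y : List (List ℕ)) =>
    (y.flatMap (fun τ => [0::τ, 1::τ, 2::τ])).filter (fun τ => decide (ok τ = true))) (f a) :
      List (List ℕ)) := by
    refine pr_natrec (h := fun _ _ (y : List (List ℕ)) =>
      (y.flatMap (fun τ => [0::τ, 1::τ, 2::τ])).filter
      (fun τ => decide (ok τ = true))) hf (Primrec.const _) ?_
    refine pr_filter (p := fun _ τ => ok τ = true) ?_ (pr_eq (hok.comp Primrec.snd) (Primrec.const true))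
    refine pr_flatMap (g := fun _ (τ : List ℕ) => [0::τ, 1::τ, 2::τ])
      (Primrec.snd.comp Primrec.snd) ?_
    refine Primrec.list_cons.comp (Primrec.list_cons.comp (Primrec.const 0) Primrec.snd) ?_
    refine Primrec.list_cons.comp (Primrec.list_cons.comp (Primrec.const 1) Primrec.snd) ?_
    exact Primrec.list_cons.comp (Primrec.list_cons.comp (Primrec.const 2) Primrec.snd) (Primrec.const [])
  exact h.of_eq (fun a => (Tn_eq ok _).symm)

lemma pr_hit {m e r k : α → ℕ} (hm : Primrec m) (he : Primrec e) (hr : Primrec r) (hk : Primrec k) :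
    Primrec fun a => hit (m a) (e a) (r a) (k a) := by
  unfold hit
  have h1 : Primrec fun a => (Encodable.decode (α := V) (k a).unpair.2).getD [] :=
    pr_oGetD (pr_decode (Primrec.snd.comp (Primrec.unpair.comp hk))) (Primrec.const [])
  refine pr_ite (pr_isSome (pr_evaln (Primrec.fst.comp (Primrec.unpair.comp hk)) (pr_code hm) ?_))
    (Primrec.option_some.comp h1) (Primrec.const none)
  exact pr_encode (he.pair (hr.pair h1))

lemma pr_Rsp {m s e r : α → ℕ} (hm : Primrec m) (hs : Primrec s) (he : Primrec e) (hr : Primrec r) :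
    Primrec fun a => Rsp (m a) (s a) (e a) (r a) := by
  unfold Rsp
  refine pr_filterMap (g := fun a k => hit (m a) (e a) (r a) k) (Primrec.list_range.comp hs) ?_
  exact pr_hit (hm.comp Primrec.fst) (he.comp Primrec.fst) (hr.comp Primrec.fst) Primrec.snd

lemma pr_gk {e j s : α → ℕ} (he : Primrec e) (hj : Primrec j) (hs : Primrec s) :
    Primrec fun a => gk (e a) (j a) (s a) := by
  unfold gk
  exact pr_evaln hs (pr_code he) (pr_pair he hj)

section acc
variable {S : α → FS} (hS : Primrec S)
include hS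
lemma pr_r : Primrec fun a => (S a).r := Primrec.fst.comp hS
lemma pr_n : Primrec fun a => (S a).n := Primrec.fst.comp (Primrec.snd.comp hS)
lemma pr_act : Primrec fun a => (S a).act :=
  Primrec.fst.comp (Primrec.snd.comp (Primrec.snd.comp hS))
lemma pr_K : Primrec fun a => (S a).K :=
  Primrec.fst.comp (Primrec.snd.comp (Primrec.snd.comp (Primrec.snd.comp hS)))
lemma pr_ps : Primrec fun a => (S a).ps :=
  Primrec.fst.comp (Primrec.snd.comp (Primrec.snd.comp (Primrec.snd.comp (Primrec.snd.comp hS))))
lemma pr_pn : Primrec fun a => (S a).pn :=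
  Primrec.fst.comp (Primrec.snd.comp (Primrec.snd.comp (Primrec.snd.comp (Primrec.snd.comp
    (Primrec.snd.comp hS)))))
lemma pr_pK : Primrec fun a => (S a).pK :=
  Primrec.fst.comp (Primrec.snd.comp (Primrec.snd.comp (Primrec.snd.comp (Primrec.snd.comp
    (Primrec.snd.comp (Primrec.snd.comp hS))))))
lemma pr_pps : Primrec fun a => (S a).pps :=
  Primrec.fst.comp (Primrec.snd.comp (Primrec.snd.comp (Primrec.snd.comp (Primrec.snd.comp
    (Primrec.snd.comp (Primrec.snd.comp (Primrec.snd.comp hS)))))))
lemma pr_t : Primrec fun a => (S a).t :=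
  Primrec.snd.comp (Primrec.snd.comp (Primrec.snd.comp (Primrec.snd.comp (Primrec.snd.comp
    (Primrec.snd.comp (Primrec.snd.comp (Primrec.snd.comp hS)))))))
end acc

lemma pr_mkS {r n : α → ℕ} {act : α → List ℕ} {K ps : α → List V} {pn : α → ℕ}
    {pK pps : α → List V} {t : α → ℕ} (h1 : Primrec r) (h2 : Primrec n) (h3 : Primrec act)
    (h4 : Primrec K) (h5 : Primrec ps) (h6 : Primrec pn) (h7 : Primrec pK) (h8 : Primrec pps)
    (h9 : Primrec t) :
    Primrec fun a => mkS (r a) (n a) (act a) (K a) (ps a) (pn a) (pK a) (pps a) (t a) :=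
  h1.pair (h2.pair (h3.pair (h4.pair (h5.pair (h6.pair (h7.pair (h8.pair h9)))))))

lemma pr_len {β : Type} [Primcodable β] {f : α → List β} (hf : Primrec f) :
    Primrec fun a => (f a).length := Primrec.list_length.comp hf

lemma pr_add {f g : α → ℕ} (hf : Primrec f) (hg : Primrec g) : Primrec fun a => f a + g a :=
  Primrec.nat_add.comp hf hg

lemma pr_sub {f g : α → ℕ} (hf : Primrec f) (hg : Primrec g) : Primrec fun a => f a - g a :=
  Primrec.nat_sub.comp hf hg

lemma pr_succ {f : α → ℕ} (hf : Primrec f) : Primrec fun a => f a + 1 := Primrec.succ.comp hf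

lemma pr_app {β : Type} [Primcodable β] {f g : α → List β} (hf : Primrec f) (hg : Primrec g) :
    Primrec fun a => f a ++ g a := Primrec.list_append.comp hf hg

lemma pr_cons {β : Type} [Primcodable β] {f : α → β} {g : α → List β} (hf : Primrec f)
    (hg : Primrec g) : Primrec fun a => f a :: g a := Primrec.list_cons.comp hf hg

lemma pr_ne {β : Type} [Primcodable β] {f g : α → β} (hf : Primrec f) (hg : Primrec g) :
    PrimrecPred fun a => f a ≠ g a := pr_not (pr_eq hf hg)

lemma pr_nmem {β : Type} [Primcodable β] {f : α → β} {g : α → List β} (hf : Primrec f)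
    (hg : Primrec g) : PrimrecPred fun a => f a ∉ g a := pr_not (pr_mem hf hg)

lemma pr_Waits {S : α → FS} {m : α → ℕ} (hS : Primrec S) (hm : Primrec m) :
    PrimrecPred fun a => Waits (S a) (m a) :=
  pr_and (pr_ne (pr_r hS) (Primrec.const 0)) (pr_and (pr_eq (pr_len (pr_ps hS)) hm)
    (pr_mem hm (pr_act hS)))

lemma pr_Blocked {L : α → List FS} {t m : α → ℕ} (hL : Primrec L) (ht : Primrec t)
    (hm : Primrec m) : PrimrecPred fun a => Blocked (L a) (t a) (m a) := by
  unfold Blocked
  refine pr_exists (p := fun a S' => Waits S' (m a) ∧ S'.t < t a) hL ?_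
  exact pr_and (pr_Waits Primrec.snd (hm.comp Primrec.fst))
    (pr_lt (pr_t Primrec.snd) (ht.comp Primrec.fst))

lemma pr_candL {L : α → List FS} {s e : α → ℕ} {S : α → FS} (hL : Primrec L) (hs : Primrec s)
    (he : Primrec e) (hS : Primrec S) : Primrec fun a => candL (L a) (s a) (e a) (S a) := by
  unfold candL
  refine pr_filter (p := fun a m => m ∉ (S a).act ∧ Rsp m (s a) (e a) (S a).r ≠ [] ∧
    ¬ Blocked (L a) (S a).t m) (Primrec.list_range.comp (pr_succ he)) ?_
  have hS' : Primrec (fun q : α × ℕ => S q.1) := hS.comp Primrec.fst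
  refine pr_and (pr_nmem Primrec.snd (pr_act hS')) (pr_and (pr_ne ?_ (Primrec.const [])) (pr_not ?_))
  · exact pr_Rsp Primrec.snd (hs.comp Primrec.fst) (he.comp Primrec.fst) (pr_r hS')
  · exact pr_Blocked (hL.comp Primrec.fst) (pr_t hS') Primrec.snd

lemma pr_Cons {S : α → FS} {x : α → V} (hS : Primrec S) (hx : Primrec x) :
    PrimrecPred fun a => Cons (S a) (x a) := by
  unfold Cons
  refine pr_and (pr_eq (pr_len hx) (pr_succ (pr_n hS))) (pr_or (pr_le (pr_len (pr_pps hS))
    (pr_len (pr_ps hS))) (pr_mem (pr_xv ?_ ?_) (pr_pK hS)))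
  · exact Primrec.list_drop.comp (pr_sub (pr_n hS) (pr_pn hS)) hx
  · exact pr_getD [] (pr_pps hS) (pr_len (pr_ps hS))

lemma pr_respL {s e : α → ℕ} {S : α → FS} (hs : Primrec s) (he : Primrec e) (hS : Primrec S) :
    Primrec fun a => respL (s a) (e a) (S a) := by
  unfold respL
  refine pr_filter (p := fun a x => Cons (S a) x) (pr_Rsp (pr_len (pr_ps hS)) hs he (pr_r hS)) ?_
  exact pr_Cons (hS.comp Primrec.fst) Primrec.snd

lemma pr_newK (hok : Primrec ok) {S : α → FS} {x : α → V} (hS : Primrec S) (hx : Primrec x) :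
    Primrec fun a => newK ok (S a) (x a) := by
  unfold newK
  refine pr_sp (pr_K hS) ?_
  refine pr_map (g := fun a τ => xv (x a) (ev (S a).ps.length τ)) (pr_Tn hok (pr_n hS)) ?_
  exact pr_xv (hx.comp Primrec.fst) (pr_ev (pr_len (pr_ps (hS.comp Primrec.fst))) Primrec.snd)

lemma pr_newN {s e : α → ℕ} {S : α → FS} (hs : Primrec s) (he : Primrec e) (hS : Primrec S) :
    Primrec fun a => newN (e a) (s a) (S a) := by
  unfold newN
  exact pr_ite (pr_isSome (pr_gk he (pr_succ (pr_n hS)) hs)) (pr_succ (pr_n hS)) (pr_n hS)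

lemma pr_stepF (hok : Primrec ok) {L : α → List FS} {s e : α → ℕ} {S : α → FS} (hL : Primrec L)
    (hs : Primrec s) (he : Primrec e) (hS : Primrec S) :
    Primrec fun a => stepF ok (L a) (s a) (e a) (S a) := by
  unfold stepF
  have hc := pr_candL hL hs he hS
  have hr := pr_respL hs he hS
  have hx : Primrec fun a => (respL (s a) (e a) (S a)).headI := Primrec.list_headI.comp hr
  have hnil : Primrec fun _ : α => ([] : List V) := Primrec.const []
  refine pr_ite (pr_eq (pr_r hS) (Primrec.const 0)) ?_ ?_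
  · refine pr_ite (pr_isSome (pr_gk he (Primrec.const 0) hs)) ?_ hS
    unfold startS
    exact pr_mkS (Primrec.const 1) (Primrec.const 0) (Primrec.const []) (Primrec.const _) hnil
      (Primrec.const 0) hnil hnil (pr_succ hs)
  refine pr_ite (pr_ne hc (Primrec.const [])) ?_ ?_
  · unfold admitS
    exact pr_mkS (pr_succ (pr_r hS)) (pr_n hS) (pr_cons (Primrec.list_headI.comp hc) (pr_act hS))
      (pr_cons (pr_zv (pr_succ (pr_n hS))) hnil) hnil (pr_n hS) hnil hnil (pr_succ hs)
  refine pr_ite (pr_lt he (pr_len (pr_ps hS))) hS ?_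
  refine pr_ite (pr_nmem (pr_len (pr_ps hS)) (pr_act hS)) ?_ ?_
  · unfold skipS
    exact pr_mkS (pr_r hS) (pr_n hS) (pr_act hS) (pr_K hS) (pr_app (pr_ps hS) (Primrec.const [[]]))
      (pr_pn hS) (pr_pK hS) (pr_pps hS) (pr_succ hs)
  refine pr_ite (pr_eq hr (Primrec.const [])) hS ?_
  refine pr_ite (pr_mem (pr_uv (pr_succ (pr_n hS))) (pr_newK hok hS hx)) ?_ ?_
  · unfold critS
    have hN := pr_newN hs he hS
    exact pr_mkS (pr_succ (pr_r hS)) hN (pr_act hS) (pr_cons (pr_zv (pr_succ hN)) hnil) hnil
      (pr_n hS) (pr_K hS) (pr_app (pr_ps hS) (pr_cons hx hnil)) (pr_succ hs)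
  · unfold procS
    exact pr_mkS (pr_r hS) (pr_n hS) (pr_act hS) (pr_newK hok hS hx) (pr_app (pr_ps hS)
      (pr_cons hx hnil)) (pr_pn hS) (pr_pK hS) (pr_pps hS) (pr_succ hs)

lemma St_eq (ok : List ℕ → Bool) (s : ℕ) : St ok s = Nat.rec [] (fun s (L : List FS) =>
    (List.range (s+1)).map (fun e => stepF ok L s e (L.getD e S0))) s := by
  induction s with
  | zero => rfl
  | succ s ih => simp only [St]; rw [ih]

lemma pr_St (hok : Primrec ok) {f : α → ℕ} (hf : Primrec f) : Primrec fun a => St ok (f a) := by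
  have h : Primrec fun a => (Nat.rec [] (fun s (L : List FS) =>
    (List.range (s+1)).map (fun e => stepF ok L s e (L.getD e S0))) (f a) : List FS) := by
    refine pr_natrec (h := fun _ s L => (List.range (s+1)).map
      (fun e => stepF ok L s e (L.getD e S0))) hf (Primrec.const []) ?_
    refine pr_map (g := fun (q : α × ℕ × List FS) e => stepF ok q.2.2 q.2.1 e (q.2.2.getD e S0))
      (Primrec.list_range.comp (pr_succ (Primrec.fst.comp Primrec.snd))) ?_
    have hL : Primrec (fun p : (α × ℕ × List FS) × ℕ => p.1.2.2) :=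
      Primrec.snd.comp (Primrec.snd.comp Primrec.fst)
    exact pr_stepF hok hL (Primrec.fst.comp (Primrec.snd.comp Primrec.fst)) Primrec.snd
      (pr_getD S0 hL Primrec.snd)
  exact h.of_eq (fun a => (St_eq ok _).symm)

lemma pr_fs (hok : Primrec ok) {s e : α → ℕ} (hs : Primrec s) (he : Primrec e) :
    Primrec fun a => fs ok (s a) (e a) := pr_getD S0 (pr_St hok hs) he

end Pool.Agent.W2helper50
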