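import Pool.Agent.W2helper50.Main1

set_option autoImplicit false

/-! Coding marks in structures. -/

namespace Pool.Agent.W2helper50

/-- elements: torsor elements, candidate marks, junk -/
abbrev Elt := (ℕ × ℕ × ℕ) ⊕ ((ℕ × ℕ × List ℕ × ℕ) ⊕ ℕ)

/-- relations: translations in a block, marks, names of junk elements -/
abbrev Rel := (ℕ × ℕ × ℕ) ⊕ ((ℕ × ℕ) ⊕ ℕ)

abbrev tor (e j v : ℕ) : Elt := Sum.inl (e, j, v)
abbrev mrk (e r : ℕ) (v : V) (s : ℕ) : Elt := Sum.inr (Sum.inl (e, r, v, s))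
abbrev jk (k : ℕ) : Elt := Sum.inr (Sum.inr k)

abbrev rTr (e j g : ℕ) : Rel := Sum.inl (e, j, g)
abbrev rM (e r : ℕ) : Rel := Sum.inr (Sum.inl (e, r))
abbrev rJ (k : ℕ) : Rel := Sum.inr (Sum.inr k)

def dec (n : ℕ) : Elt := (Encodable.decode (α := Elt) n).getD (jk 0)
def decR (n : ℕ) : Rel := (Encodable.decode (α := Rel) n).getD (rJ 0)

@[simp] lemma dec_encode (x : Elt) : dec (Encodable.encode x) = x := by simp [dec]
@[simp] lemma decR_encode (x : Rel) : decR (Encodable.encode x) = x := by simp [decR]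

@[simp] lemma encode_dec (n : ℕ) : Encodable.encode (dec n) = n := by
  have h : Encodable.decode (α := Elt) n = some (Denumerable.ofNat Elt n) :=
    Denumerable.decode_eq_ofNat Elt n
  unfold dec
  rw [h]
  exact Denumerable.encode_ofNat n

lemma dec_bij : Function.Bijective dec :=
  ⟨fun a b h => by rw [← encode_dec a, ← encode_dec b, h], fun x => ⟨_, dec_encode x⟩⟩

/-- coordinates of a tuple -/
def tupc (e : ℕ) : V → List (ℕ × ℕ × ℕ)
  | [] => []
  | a::v => (e, v.length, a) :: tupc e v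

def tup (e : ℕ) (v : V) : List Elt := (tupc e v).map Sum.inl

lemma tupc_inj {e : ℕ} {v v' : V} (h : tupc e v = tupc e v') : v = v' := by
  induction v generalizing v' with
  | nil => cases v' with
    | nil => rfl
    | cons a v' => simp [tupc] at h
  | cons a v ih => cases v' with
    | nil => simp [tupc] at h
    | cons a' v' =>
      simp only [tupc, List.cons.injEq, Prod.mk.injEq] at h
      rw [ih h.2, h.1.2.2]

lemma tup_inj {e : ℕ} {v v' : V} (h : tup e v = tup e v') : v = v' :=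
  tupc_inj (List.map_injective_iff.2 Sum.inl_injective h)

lemma tup_nil (e : ℕ) : tup e [] = [] := rfl
lemma tup_cons (e a : ℕ) (v : V) : tup e (a::v) = tor e v.length a :: tup e v := rfl

/-- a mark becomes valid at the least stage -/
def Valid (mk : ℕ → ℕ → V → ℕ → Prop) (e r : ℕ) (v : V) (s : ℕ) : Prop :=
  mk e r v s ∧ ∀ s' < s, ¬ mk e r v s'

lemma valid_unique {mk : ℕ → ℕ → V → ℕ → Prop} {e r : ℕ} {v : V} {s s' : ℕ}
    (h : Valid mk e r v s) (h' : Valid mk e r v s') : s = s' := by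
  rcases lt_trichotomy s s' with hlt | heq | hgt
  · exact absurd h.1 (h'.2 s hlt)
  · exact heq
  · exact absurd h'.1 (h.2 s' hgt)

lemma valid_exists {mk : ℕ → ℕ → V → ℕ → Prop} {e r : ℕ} {v : V} (h : ∃ s, mk e r v s) :
    ∃ s, Valid mk e r v s := by
  classical
  exact ⟨Nat.find h, Nat.find_spec h, fun s' hs' => Nat.find_min h hs'⟩

def Junk (mk : ℕ → ℕ → V → ℕ → Prop) : Elt → Prop
  | Sum.inl _ => False
  | Sum.inr (Sum.inl q) => ¬ Valid mk q.1 q.2.1 q.2.2.1 q.2.2.2
  | Sum.inr (Sum.inr _) => True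

open Classical in
/-- number of junk elements below -/
noncomputable def rank (mk : ℕ → ℕ → V → ℕ → Prop) (n : ℕ) : ℕ :=
  Nat.count (fun k => Junk mk (dec k)) n

/-- the relations of the structure -/
def RelOf (mk : ℕ → ℕ → V → ℕ → Prop) : Rel → List Elt → Prop
  | Sum.inl (e, j, g), xs => ∃ v, xs = [tor e j v, tor e j (v ^^^ g)]
  | Sum.inr (Sum.inl (e, r)), xs => ∃ v s, Valid mk e r v s ∧ xs = mrk e r v s :: tup e v
  | Sum.inr (Sum.inr k), xs => ∃ x, xs = [x] ∧ Junk mk x ∧ rank mk (Encodable.encode x) = k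

lemma junk_inf (mk : ℕ → ℕ → V → ℕ → Prop) : {k | Junk mk (dec k)}.Infinite := by
  have : Set.range (fun k : ℕ => Encodable.encode (jk k)) ⊆ {k | Junk mk (dec k)} := by
    rintro _ ⟨k, rfl⟩
    show Junk mk (dec (Encodable.encode (jk k)))
    rw [dec_encode]
    trivial
  apply Set.Infinite.mono this
  apply Set.infinite_range_of_injective
  intro a b h
  have := Encodable.encode_injective h
  simpa using this

section translate
variable (mk mk' : ℕ → ℕ → V → ℕ → Prop) (a : ℕ → ℕ → ℕ)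

open Classical in
/-- the map induced by a system of translations -/
noncomputable def tmap : Elt → Elt
  | Sum.inl (e, j, v) => tor e j (v ^^^ a e j)
  | Sum.inr (Sum.inl (e, r, v, s)) => if Valid mk e r v s then
      (if h : ∃ s', Valid mk' e r (xv v (lst (a e) v.length)) s' then
        mrk e r (xv v (lst (a e) v.length)) h.choose else jk 0)
      else dec (Nat.nth (fun k => Junk mk' (dec k)) (rank mk (Encodable.encode (mrk e r v s))))
  | Sum.inr (Sum.inr k) => dec (Nat.nth (fun k => Junk mk' (dec k)) (rank mk (Encodable.encode (jk k))))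

variable {mk mk' a}

@[simp] lemma tmap_tor (e j v : ℕ) : tmap mk mk' a (tor e j v) = tor e j (v ^^^ a e j) := rfl

lemma tmap_junk {x : Elt} (h : Junk mk x) : tmap mk mk' a x =
    dec (Nat.nth (fun k => Junk mk' (dec k)) (rank mk (Encodable.encode x))) := by
  rcases x with q | q | k
  · exact absurd h (by simp [Junk])
  · obtain ⟨e, r, v, s⟩ := q
    have h' : ¬ Valid mk e r v s := h
    simp only [tmap]
    rw [if_neg h']
  · rfl

lemma tmap_mrk (H : ∀ e r v, (∃ s, mk e r v s) ↔ ∃ s, mk' e r (xv v (lst (a e) v.length)) s)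
    {e r : ℕ} {v : V} {s : ℕ} (h : Valid mk e r v s) :
    ∃ s', Valid mk' e r (xv v (lst (a e) v.length)) s' ∧
      tmap mk mk' a (mrk e r v s) = mrk e r (xv v (lst (a e) v.length)) s' := by
  have hex : ∃ s', Valid mk' e r (xv v (lst (a e) v.length)) s' :=
    valid_exists ((H e r v).1 ⟨s, h.1⟩)
  refine ⟨hex.choose, hex.choose_spec, ?_⟩
  simp only [tmap]
  rw [if_pos h, dif_pos hex]

lemma junk_nth (k : ℕ) : Junk mk' (dec (Nat.nth (fun k => Junk mk' (dec k)) k)) :=
  Nat.nth_mem_of_infinite (junk_inf mk') k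

lemma rank_nth (k : ℕ) : rank mk' (Nat.nth (fun k => Junk mk' (dec k)) k) = k := by
  classical
  unfold rank
  convert Nat.count_nth_of_infinite (junk_inf mk') k using 1

lemma nth_rank {x : Elt} (h : Junk mk x) :
    Nat.nth (fun k => Junk mk (dec k)) (rank mk (Encodable.encode x)) = Encodable.encode x := by
  classical
  unfold rank
  have h1 := Nat.nth_count (p := fun k => Junk mk (dec k)) (n := Encodable.encode x)
    (by simpa using h)
  convert h1 using 2

lemma xv_lst_cancel (e : ℕ) (v : V) :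
    xv (xv v (lst (a e) v.length)) (lst (a e) (xv v (lst (a e) v.length)).length) = v := by
  rw [xv_length, lst_length, min_self, xv_cancel' (by simp)]

lemma symm_hyp (H : ∀ e r v, (∃ s, mk e r v s) ↔ ∃ s, mk' e r (xv v (lst (a e) v.length)) s) :
    ∀ e r v, (∃ s, mk' e r v s) ↔ ∃ s, mk e r (xv v (lst (a e) v.length)) s := by
  intro e r v
  rw [H e r (xv v (lst (a e) v.length)), xv_lst_cancel]

lemma tmap_inv (H : ∀ e r v, (∃ s, mk e r v s) ↔ ∃ s, mk' e r (xv v (lst (a e) v.length)) s)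
    (x : Elt) : tmap mk' mk a (tmap mk mk' a x) = x := by
  classical
  have hj : ∀ x, Junk mk x → tmap mk' mk a (tmap mk mk' a x) = x := by
    intro x hx
    rw [tmap_junk hx, tmap_junk (junk_nth _), encode_dec, rank_nth, nth_rank hx, dec_encode]
  rcases x with q | q | k
  · obtain ⟨e, j, v⟩ := q
    simp
  · obtain ⟨e, r, v, s⟩ := q
    by_cases hv : Valid mk e r v s
    · obtain ⟨s', h1, h2⟩ := tmap_mrk H hv
      rw [show (Sum.inr (Sum.inl (e, r, v, s)) : Elt) = mrk e r v s from rfl, h2]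
      obtain ⟨s'', h3, h4⟩ := tmap_mrk (symm_hyp H) h1
      rw [h4]
      have e1 := xv_lst_cancel (a := a) e v
      rw [e1] at h3 ⊢
      rw [valid_unique h3 hv]
    · exact hj _ hv
  · exact hj _ trivial

lemma tup_map (e : ℕ) (v : V) {F : Elt → Elt} (hF : ∀ j u, F (tor e j u) = tor e j (u ^^^ a e j)) :
    (tup e v).map F = tup e (xv v (lst (a e) v.length)) := by
  induction v with
  | nil => rfl
  | cons b v ih =>
    rw [tup_cons, List.map_cons, hF, ih, List.length_cons, lst_succ, xv_cons, tup_cons]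
    simp

lemma tmap_rel (H : ∀ e r v, (∃ s, mk e r v s) ↔ ∃ s, mk' e r (xv v (lst (a e) v.length)) s)
    {ρ : Rel} {xs : List Elt} (h : RelOf mk ρ xs) : RelOf mk' ρ (xs.map (tmap mk mk' a)) := by
  rcases ρ with q | q | k
  · obtain ⟨e, j, g⟩ := q
    obtain ⟨v, rfl⟩ := h
    refine ⟨v ^^^ a e j, ?_⟩
    simp only [List.map_cons, List.map_nil, tmap_tor]
    rw [Nat.xor_assoc, Nat.xor_comm g, ← Nat.xor_assoc]
  · obtain ⟨e, r⟩ := q
    obtain ⟨v, s, hv, rfl⟩ := h
    obtain ⟨s', h1, h2⟩ := tmap_mrk H hv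
    refine ⟨_, s', h1, ?_⟩
    rw [List.map_cons, h2, tup_map e v (fun j u => tmap_tor e j u)]
  · obtain ⟨x, rfl, hx, hk⟩ := h
    refine ⟨tmap mk mk' a x, rfl, ?_, ?_⟩
    · rw [tmap_junk hx]; exact junk_nth _
    · rw [tmap_junk hx, encode_dec, rank_nth]; exact hk

lemma tmap_bij (H : ∀ e r v, (∃ s, mk e r v s) ↔ ∃ s, mk' e r (xv v (lst (a e) v.length)) s) :
    Function.Bijective (tmap mk mk' a) :=
  Function.bijective_iff_has_inverse.2 ⟨tmap mk' mk a, tmap_inv H, tmap_inv (symm_hyp H)⟩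

lemma tmap_rel_iff (H : ∀ e r v, (∃ s, mk e r v s) ↔ ∃ s, mk' e r (xv v (lst (a e) v.length)) s)
    {ρ : Rel} {xs : List Elt} : RelOf mk ρ xs ↔ RelOf mk' ρ (xs.map (tmap mk mk' a)) := by
  refine ⟨tmap_rel H, fun h => ?_⟩
  have h1 := tmap_rel (symm_hyp H) h
  rw [List.map_map] at h1
  have : (tmap mk' mk a) ∘ (tmap mk mk' a) = id := funext (tmap_inv H)
  rw [this, List.map_id] at h1
  exact h1

end translate

open Classical in
/-- the structure on the natural numbers -/
noncomputable def strOf (mk : ℕ → ℕ → V → ℕ → Prop) (i : ℕ) (xs : List ℕ) : Bool :=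
  decide (RelOf mk (decR i) (xs.map dec))

/-- isomorphism -/
def Iso (D E : ℕ → List ℕ → Bool) (f : ℕ → ℕ) : Prop :=
  Function.Bijective f ∧ ∀ i xs, D i xs = E i (xs.map f)

lemma iso_translate {mk mk' : ℕ → ℕ → V → ℕ → Prop} {a : ℕ → ℕ → ℕ}
    (H : ∀ e r v, (∃ s, mk e r v s) ↔ ∃ s, mk' e r (xv v (lst (a e) v.length)) s) :
    Iso (strOf mk) (strOf mk') (fun n => Encodable.encode (tmap mk mk' a (dec n))) := by
  constructor
  · have h1 : Function.Bijective (fun x : Elt => Encodable.encode x) :=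
      ⟨Encodable.encode_injective, fun n => ⟨dec n, encode_dec n⟩⟩
    exact h1.comp ((tmap_bij H).comp dec_bij)
  · intro i xs
    unfold strOf
    simp only [decide_eq_decide]
    rw [tmap_rel_iff H, List.map_map, List.map_map]
    have : (dec ∘ fun n => Encodable.encode (tmap mk mk' a (dec n))) = (tmap mk mk' a ∘ dec) := by
      funext n; simp
    rw [this]

lemma Iso.comp {A B C : ℕ → List ℕ → Bool} {f g : ℕ → ℕ} (h1 : Iso A B f) (h2 : Iso B C g) :
    Iso A C (g ∘ f) :=
  ⟨h2.1.comp h1.1, fun i xs => by rw [h1.2, h2.2, List.map_map]⟩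

end Pool.Agent.W2helper50
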