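import Pool.Agent.W2helper50.Struct

set_option autoImplicit false

/-! The coding structures are computable. -/

namespace Pool.Agent.W2helper50

variable {α : Type} [Primcodable α]

lemma pr_dec {f : α → ℕ} (hf : Primrec f) : Primrec fun a => dec (f a) := by
  unfold dec
  exact pr_oGetD (pr_decode hf) (Primrec.const _)

lemma pr_decR {f : α → ℕ} (hf : Primrec f) : Primrec fun a => decR (f a) := by
  unfold decR
  exact pr_oGetD (pr_decode hf) (Primrec.const _)

lemma tupc_length (e : ℕ) (v : V) : (tupc e v).length = v.length := by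
  induction v with
  | nil => rfl
  | cons a v ih => simp [tupc, ih]

lemma tupc_eq (e : ℕ) (v : V) : tupc e v =
    (List.range v.length).map (fun i => (e, v.length - 1 - i, v.getD i 0)) := by
  induction v with
  | nil => rfl
  | cons a v ih =>
    rw [List.length_cons, List.range_succ_eq_map, List.map_cons, List.map_map]
    simp only [tupc, ih]
    congr 1
    apply List.map_congr_left
    intro i hi
    rw [List.mem_range] at hi
    simp
    omega

lemma pr_tupc {e : α → ℕ} {v : α → V} (he : Primrec e) (hv : Primrec v) :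
    Primrec fun a => tupc (e a) (v a) := by
  have h : Primrec fun a => (List.range (v a).length).map
      (fun i => (e a, (v a).length - 1 - i, (v a).getD i 0)) := by
    refine pr_map (g := fun a i => (e a, (v a).length - 1 - i, (v a).getD i 0))
      (Primrec.list_range.comp (pr_len hv)) ?_
    have hv' : Primrec (fun q : α × ℕ => v q.1) := hv.comp Primrec.fst
    exact (he.comp Primrec.fst).pair ((pr_sub (pr_sub (pr_len hv') (Primrec.const 1)) Primrec.snd).pair
      (pr_getD 0 hv' Primrec.snd))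
  exact h.of_eq (fun a => (tupc_eq _ _).symm)

lemma pr_tup {e : α → ℕ} {v : α → V} (he : Primrec e) (hv : Primrec v) :
    Primrec fun a => tup (e a) (v a) := by
  unfold tup
  exact pr_map (g := fun _ x => (Sum.inl x : Elt)) (pr_tupc he hv) (Primrec.sumInl.comp Primrec.snd)

/-- primitive recursive mark predicates -/
def PrMk (mk : ℕ → ℕ → V → ℕ → Prop) : Prop :=
  PrimrecPred (fun p : ℕ × ℕ × V × ℕ => mk p.1 p.2.1 p.2.2.1 p.2.2.2)

variable {mk : ℕ → ℕ → V → ℕ → Prop}

lemma pr_mk (hmk : PrMk mk) {e r s : α → ℕ} {v : α → V} (he : Primrec e) (hr : Primrec r)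
    (hv : Primrec v) (hs : Primrec s) : PrimrecPred fun a => mk (e a) (r a) (v a) (s a) :=
  PrimrecPred.comp hmk (he.pair (hr.pair (hv.pair hs)))

lemma pr_Valid (hmk : PrMk mk) {e r s : α → ℕ} {v : α → V} (he : Primrec e) (hr : Primrec r)
    (hv : Primrec v) (hs : Primrec s) : PrimrecPred fun a => Valid mk (e a) (r a) (v a) (s a) := by
  unfold Valid
  refine pr_and (pr_mk hmk he hr hv hs) (pr_forall_lt (p := fun a s' => ¬ mk (e a) (r a) (v a) s') hs ?_)
  exact pr_not (pr_mk hmk (he.comp Primrec.fst) (hr.comp Primrec.fst) (hv.comp Primrec.fst) Primrec.snd)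

lemma pr_cases {β γ σ : Type} [Primcodable β] [Primcodable γ] [Primcodable σ] {f : α → β ⊕ γ}
    {g : α → β → σ} {h : α → γ → σ} (hf : Primrec f) (hg : Primrec fun q : α × β => g q.1 q.2)
    (hh : Primrec fun q : α × γ => h q.1 q.2) :
    Primrec fun a => (Sum.casesOn (f a) (g a) (h a) : σ) := Primrec.sumCasesOn hf hg hh

lemma pr_Junk (hmk : PrMk mk) {f : α → Elt} (hf : Primrec f) :
    PrimrecPred fun a => Junk mk (f a) := by
  classical
  have h : Primrec fun a => (Sum.casesOn (f a) (fun _ => false) (fun y =>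
      (Sum.casesOn y (fun q => decide (¬ Valid mk q.1 q.2.1 q.2.2.1 q.2.2.2)) (fun _ => true) : Bool)) : Bool) := by
    refine pr_cases (g := fun _ _ => false) (h := fun _ y => (Sum.casesOn y
      (fun q => decide (¬ Valid mk q.1 q.2.1 q.2.2.1 q.2.2.2)) (fun _ => true) : Bool)) hf
      (Primrec.const false) ?_
    refine pr_cases (g := fun _ (q : ℕ × ℕ × List ℕ × ℕ) => decide (¬ Valid mk q.1 q.2.1 q.2.2.1 q.2.2.2))
      (h := fun _ _ => true) Primrec.snd ?_ (Primrec.const true)
    refine PrimrecPred.decide (pr_not ?_)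
    have h2 : Primrec (fun q : (α × ((ℕ × ℕ × List ℕ × ℕ) ⊕ ℕ)) × (ℕ × ℕ × List ℕ × ℕ) => q.2) := Primrec.snd
    exact pr_Valid hmk (Primrec.fst.comp h2) (Primrec.fst.comp (Primrec.snd.comp h2))
      (Primrec.fst.comp (Primrec.snd.comp (Primrec.snd.comp h2)))
      (Primrec.snd.comp (Primrec.snd.comp (Primrec.snd.comp h2)))
  refine (pr_eq h (Primrec.const true)).of_eq ?_
  intro a
  rcases f a with q | q | k <;> simp [Junk]

lemma rank_eq (n : ℕ) [DecidablePred (fun k => Junk mk (dec k))] : rank mk n =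
    ((List.range n).filter (fun k => decide (Junk mk (dec k)))).length := by
  classical
  unfold rank
  induction n with
  | zero => rfl
  | succ n ih =>
    rw [Nat.count_succ, List.range_succ, List.filter_append, List.length_append, ih]
    congr 1
    by_cases h : Junk mk (dec n) <;> simp [h]

lemma pr_rank (hmk : PrMk mk) {f : α → ℕ} (hf : Primrec f) : Primrec fun a => rank mk (f a) := by
  classical
  have h : Primrec fun a => ((List.range (f a)).filter (fun k => decide (Junk mk (dec k)))).length := by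
    refine pr_len (pr_filter (p := fun _ k => Junk mk (dec k)) (Primrec.list_range.comp hf) ?_)
    exact pr_Junk hmk (pr_dec Primrec.snd)
  exact h.of_eq (fun a => (rank_eq _).symm)

/-- accessors -/
def hd (xs : List Elt) : Elt := xs.getD 0 (jk 0)
def cof (x : Elt) : ℕ := Sum.casesOn x (fun q => q.2.2) (fun _ => 0)
def mof (x : Elt) : ℕ × ℕ × List ℕ × ℕ :=
  Sum.casesOn x (fun _ => (0,0,[],0)) (fun y => Sum.casesOn y (fun q => q) (fun _ => (0,0,[],0)))

lemma pr_hd {f : α → List Elt} (hf : Primrec f) : Primrec fun a => hd (f a) :=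
  pr_getD (jk 0) hf (Primrec.const 0)

lemma pr_cof {f : α → Elt} (hf : Primrec f) : Primrec fun a => cof (f a) := by
  unfold cof
  exact pr_cases (g := fun _ q => q.2.2) (h := fun _ _ => 0) hf
    (Primrec.snd.comp (Primrec.snd.comp Primrec.snd)) (Primrec.const 0)

lemma pr_mof {f : α → Elt} (hf : Primrec f) : Primrec fun a => mof (f a) := by
  unfold mof
  refine pr_cases (g := fun _ _ => ((0,0,[],0) : ℕ × ℕ × List ℕ × ℕ)) (h := fun _ y => Sum.casesOn y
    (fun q => q) (fun _ => ((0,0,[],0) : ℕ × ℕ × List ℕ × ℕ))) hf (Primrec.const _) ?_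
  exact pr_cases (g := fun _ q => q) (h := fun _ _ => ((0,0,[],0) : ℕ × ℕ × List ℕ × ℕ))
    Primrec.snd Primrec.snd (Primrec.const _)

lemma relOf_tr {e j g : ℕ} {xs : List Elt} : RelOf mk (rTr e j g) xs ↔
    xs = [tor e j (cof (hd xs)), tor e j (cof (hd xs) ^^^ g)] := by
  constructor
  · rintro ⟨v, rfl⟩; rfl
  · intro h; exact ⟨_, h⟩

lemma relOf_m {e r : ℕ} {xs : List Elt} : RelOf mk (rM e r) xs ↔
    Valid mk e r (mof (hd xs)).2.2.1 (mof (hd xs)).2.2.2 ∧
      xs = mrk e r (mof (hd xs)).2.2.1 (mof (hd xs)).2.2.2 :: tup e (mof (hd xs)).2.2.1 := by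
  constructor
  · rintro ⟨v, s, h, rfl⟩; exact ⟨h, rfl⟩
  · rintro ⟨h1, h2⟩; exact ⟨_, _, h1, h2⟩

lemma relOf_j {k : ℕ} {xs : List Elt} : RelOf mk (rJ k) xs ↔
    xs = [hd xs] ∧ Junk mk (hd xs) ∧ rank mk (Encodable.encode (hd xs)) = k := by
  constructor
  · rintro ⟨x, rfl, h⟩; exact ⟨rfl, h⟩
  · rintro ⟨h1, h2⟩; exact ⟨_, h1, h2⟩

lemma pr_RelOf (hmk : PrMk mk) {ρ : α → Rel} {xs : α → List Elt} (hρ : Primrec ρ)
    (hxs : Primrec xs) : PrimrecPred fun a => RelOf mk (ρ a) (xs a) := by
  classical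
  have h : Primrec fun a => (Sum.casesOn (ρ a)
      (fun q => decide (RelOf mk (rTr q.1 q.2.1 q.2.2) (xs a)))
      (fun y => (Sum.casesOn y (fun q => decide (RelOf mk (rM q.1 q.2) (xs a)))
        (fun k => decide (RelOf mk (rJ k) (xs a))) : Bool)) : Bool) := by
    refine pr_cases (g := fun a q => decide (RelOf mk (rTr q.1 q.2.1 q.2.2) (xs a)))
      (h := fun a y => (Sum.casesOn y (fun q => decide (RelOf mk (rM q.1 q.2) (xs a)))
        (fun k => decide (RelOf mk (rJ k) (xs a))) : Bool)) hρ ?_ ?_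
    · refine PrimrecPred.decide ?_
      have hx : Primrec (fun q : α × ℕ × ℕ × ℕ => xs q.1) := hxs.comp Primrec.fst
      have he : Primrec (fun q : α × ℕ × ℕ × ℕ => q.2.1) := Primrec.fst.comp Primrec.snd
      have hj : Primrec (fun q : α × ℕ × ℕ × ℕ => q.2.2.1) :=
        Primrec.fst.comp (Primrec.snd.comp Primrec.snd)
      have hg : Primrec (fun q : α × ℕ × ℕ × ℕ => q.2.2.2) :=
        Primrec.snd.comp (Primrec.snd.comp Primrec.snd)
      have hc := pr_cof (pr_hd hx)
      have h1 : PrimrecPred (fun q : α × ℕ × ℕ × ℕ => xs q.1 = [tor q.2.1 q.2.2.1 (cof (hd (xs q.1))),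
          tor q.2.1 q.2.2.1 (cof (hd (xs q.1)) ^^^ q.2.2.2)]) := by
        refine pr_eq hx (pr_cons (Primrec.sumInl.comp (he.pair (hj.pair hc)))
          (pr_cons (Primrec.sumInl.comp (he.pair (hj.pair (pr_xor hc hg)))) (Primrec.const [])))
      exact h1.of_eq (fun q => relOf_tr.symm)
    · refine pr_cases (g := fun (a : α × ((ℕ × ℕ) ⊕ ℕ)) q => decide (RelOf mk (rM q.1 q.2) (xs a.1)))
        (h := fun a k => decide (RelOf mk (rJ k) (xs a.1))) Primrec.snd ?_ ?_
      · refine PrimrecPred.decide ?_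
        have hx : Primrec (fun q : (α × ((ℕ × ℕ) ⊕ ℕ)) × (ℕ × ℕ) => xs q.1.1) :=
          hxs.comp (Primrec.fst.comp Primrec.fst)
        have he : Primrec (fun q : (α × ((ℕ × ℕ) ⊕ ℕ)) × (ℕ × ℕ) => q.2.1) := Primrec.fst.comp Primrec.snd
        have hr : Primrec (fun q : (α × ((ℕ × ℕ) ⊕ ℕ)) × (ℕ × ℕ) => q.2.2) := Primrec.snd.comp Primrec.snd
        have hm := pr_mof (pr_hd hx)
        have hv := Primrec.fst.comp (Primrec.snd.comp (Primrec.snd.comp hm))
        have hs := Primrec.snd.comp (Primrec.snd.comp (Primrec.snd.comp hm))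
        have h1 : PrimrecPred (fun q : (α × ((ℕ × ℕ) ⊕ ℕ)) × (ℕ × ℕ) =>
            Valid mk q.2.1 q.2.2 (mof (hd (xs q.1.1))).2.2.1 (mof (hd (xs q.1.1))).2.2.2 ∧
            xs q.1.1 = mrk q.2.1 q.2.2 (mof (hd (xs q.1.1))).2.2.1 (mof (hd (xs q.1.1))).2.2.2 ::
              tup q.2.1 (mof (hd (xs q.1.1))).2.2.1) := by
          refine pr_and (pr_Valid hmk he hr hv hs) (pr_eq hx (pr_cons (Primrec.sumInr.comp
            (Primrec.sumInl.comp (he.pair (hr.pair (hv.pair hs))))) (pr_tup he hv)))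
        exact h1.of_eq (fun q => relOf_m.symm)
      · refine PrimrecPred.decide ?_
        have hx : Primrec (fun q : (α × ((ℕ × ℕ) ⊕ ℕ)) × ℕ => xs q.1.1) :=
          hxs.comp (Primrec.fst.comp Primrec.fst)
        have hh := pr_hd hx
        have h1 : PrimrecPred (fun q : (α × ((ℕ × ℕ) ⊕ ℕ)) × ℕ =>
            xs q.1.1 = [hd (xs q.1.1)] ∧ Junk mk (hd (xs q.1.1)) ∧
              rank mk (Encodable.encode (hd (xs q.1.1))) = q.2) := by
          refine pr_and (pr_eq hx (pr_cons hh (Primrec.const []))) (pr_and (pr_Junk hmk hh)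
            (pr_eq (pr_rank hmk (pr_encode hh)) Primrec.snd))
        exact h1.of_eq (fun q => relOf_j.symm)
  refine (pr_eq h (Primrec.const true)).of_eq ?_
  intro a
  rcases ρ a with q | q | k <;> simp

lemma strOf_computable (hmk : PrMk mk) : Computable₂ (strOf mk) := by
  classical
  have h : PrimrecPred (fun p : ℕ × List ℕ => RelOf mk (decR p.1) (p.2.map dec)) :=
    pr_RelOf hmk (pr_decR Primrec.fst) (pr_map (g := fun _ x => dec x) Primrec.snd (pr_dec Primrec.snd))
  exact h.decide.to_comp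

lemma strOf_iff {i : ℕ} {xs : List ℕ} : strOf mk i xs = true ↔ RelOf mk (decR i) (xs.map dec) := by
  simp [strOf]

end Pool.Agent.W2helper50
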