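import Pool.Agent.W2helper50.Vec

set_option autoImplicit false

/-! Levels of a ternary tree and the algebra of certificates. -/

namespace Pool.Agent.W2helper50

/-- nodes of length `n` of the tree whose nonempty nodes satisfy `ok` hereditarily -/
def Tn (ok : List ℕ → Bool) : ℕ → List (List ℕ)
  | 0 => [[]]
  | n+1 => ((Tn ok n).flatMap (fun τ => [0::τ, 1::τ, 2::τ])).filter ok

variable {ok : List ℕ → Bool}

lemma mem_Tn_succ {n : ℕ} {τ : List ℕ} : τ ∈ Tn ok (n+1) ↔
    ∃ a σ, a < 3 ∧ τ = a::σ ∧ σ ∈ Tn ok n ∧ ok τ = true := by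
  simp only [Tn, List.mem_filter, List.mem_flatMap]
  constructor
  · rintro ⟨⟨σ, hσ, hτ⟩, hok⟩
    simp only [List.mem_cons, List.not_mem_nil, or_false] at hτ
    rcases hτ with h | h | h
    · exact ⟨0, σ, by omega, h, hσ, hok⟩
    · exact ⟨1, σ, by omega, h, hσ, hok⟩
    · exact ⟨2, σ, by omega, h, hσ, hok⟩
  · rintro ⟨a, σ, ha, rfl, hσ, hok⟩
    refine ⟨⟨σ, hσ, ?_⟩, hok⟩
    interval_cases a <;> simp

lemma Tn_length {n : ℕ} {τ : List ℕ} (h : τ ∈ Tn ok n) : τ.length = n := by
  induction n generalizing τ with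
  | zero => simp [Tn] at h; simp [h]
  | succ n ih =>
    obtain ⟨a, σ, -, rfl, hσ, -⟩ := mem_Tn_succ.1 h
    simp [ih hσ]

lemma Tn_tail {n : ℕ} {τ : List ℕ} (h : τ ∈ Tn ok (n+1)) : τ.tail ∈ Tn ok n := by
  obtain ⟨a, σ, -, rfl, hσ, -⟩ := mem_Tn_succ.1 h
  exact hσ

lemma Tn_drop {n d : ℕ} {τ : List ℕ} (h : τ ∈ Tn ok (n+d)) : τ.drop d ∈ Tn ok n := by
  induction d generalizing τ with
  | zero => simpa using h
  | succ d ih =>
    have := ih (τ := τ.tail) (Tn_tail h)
    simpa using this

lemma Tn_nodup (n : ℕ) : (Tn ok n).Nodup := by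
  induction n with
  | zero => simp [Tn]
  | succ n ih =>
    unfold Tn
    apply List.Nodup.filter
    rw [List.nodup_flatMap]
    refine ⟨by intro τ _; simp, ?_⟩
    refine ih.imp ?_
    intro σ τ hne
    simp only [Function.onFun, List.disjoint_left, List.mem_cons, List.not_mem_nil, or_false]
    rintro x (rfl | rfl | rfl) <;> simp [hne]

/-- the path `f` is a path of the tree -/
def Path (ok : List ℕ → Bool) (f : ℕ → ℕ) : Prop := ∀ n, lst f n ∈ Tn ok n

/-! certificates -/

def bi (c : ℕ) (τ : List ℕ) : ℕ := Nat.pair c (Encodable.encode τ) + 1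

lemma bi_inj {c c' : ℕ} {τ τ' : List ℕ} : bi c τ = bi c' τ' ↔ c = c' ∧ τ = τ' := by
  unfold bi
  constructor
  · intro h
    have h' := Nat.pair_eq_pair.1 (Nat.succ_injective h)
    exact ⟨h'.1, Encodable.encode_injective h'.2⟩
  · rintro ⟨rfl, rfl⟩; rfl

lemma testBit_ec (c c' : ℕ) (τ τ' : List ℕ) :
    (ec c τ).testBit (bi c' τ') = decide (c' = c ∧ τ' = τ) := by
  rw [ec_testBit]
  have := bi_inj (c := c') (c' := c) (τ := τ') (τ' := τ)
  unfold bi at this
  simp only [decide_eq_decide]
  rw [← this]
  rfl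

lemma testBit_one_bi (c : ℕ) (τ : List ℕ) : (1:ℕ).testBit (bi c τ) = false := by
  have : (1:ℕ) = 2^0 := rfl
  rw [this, Nat.testBit_two_pow]
  simp [bi]

/-- vector with parity entry -/
def eh (c : ℕ) (τ : List ℕ) : V := 1 :: ev c τ

@[simp] lemma eh_length (c : ℕ) (τ : List ℕ) : (eh c τ).length = τ.length + 2 := by simp [eh]

/-- the combination of the vectors of the nodes in `l` selected by the bits of `h` -/
def Ph (c k : ℕ) (h : ℕ) (l : List (List ℕ)) : V :=
  l.foldr (fun τ acc => if h.testBit (bi c τ) = true then xv (eh c τ) acc else acc) (zv (k+1))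

@[simp] lemma Ph_nil (c k h : ℕ) : Ph c k h [] = zv (k+1) := rfl
lemma Ph_cons (c k h : ℕ) (τ : List ℕ) (l : List (List ℕ)) : Ph c k h (τ::l) =
    if h.testBit (bi c τ) = true then xv (eh c τ) (Ph c k h l) else Ph c k h l := rfl

lemma Ph_length {c k h : ℕ} {l : List (List ℕ)} (hl : ∀ τ ∈ l, τ.length + 1 = k) :
    (Ph c k h l).length = k + 1 := by
  induction l with
  | nil => simp
  | cons τ l ih =>
    rw [Ph_cons]
    have ih' := ih (fun σ hσ => hl σ (by simp [hσ]))
    have := hl τ (by simp)
    split_ifs with hb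
    · rw [xv_length, ih', eh_length]; omega
    · exact ih'

lemma Ph_xor {c k h h' : ℕ} {l : List (List ℕ)} (hl : ∀ τ ∈ l, τ.length + 1 = k) :
    Ph c k (h ^^^ h') l = xv (Ph c k h l) (Ph c k h' l) := by
  induction l with
  | nil => simp [zv]
  | cons τ l ih =>
    have hl' : ∀ σ ∈ l, σ.length + 1 = k := fun σ hσ => hl σ (by simp [hσ])
    have ih' := ih hl'
    have hτ := hl τ (by simp)
    have hlen := Ph_length (c := c) (h := h) hl'
    have hlen' := Ph_length (c := c) (h := h') hl'
    simp only [Ph_cons, Nat.testBit_xor]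
    cases hb : h.testBit (bi c τ) <;> cases hb' : h'.testBit (bi c τ)
    · simp [ih']
    · simp [ih', xv_left_comm]
    · simp [ih', xv_assoc]
    · simp only [bne_self_eq_false, Bool.false_eq_true, if_false, if_true]
      rw [xv_assoc, xv_left_comm _ (eh c τ), xv_cancel, ih']
      rw [xv_length, hlen, hlen', eh_length]; omega

lemma Ph_none {c k h : ℕ} {l : List (List ℕ)} (hn : ∀ τ ∈ l, h.testBit (bi c τ) = false) :
    Ph c k h l = zv (k+1) := by
  induction l with
  | nil => rfl
  | cons τ l ih =>
    rw [Ph_cons, hn τ (by simp), ih (fun σ hσ => hn σ (by simp [hσ]))]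
    simp

lemma Ph_single {c k : ℕ} {l : List (List ℕ)} (hd : l.Nodup)
    {τ : List ℕ} (hτ : τ ∈ l) (hk : τ.length + 1 = k) : Ph c k (ec c τ) l = eh c τ := by
  induction l with
  | nil => simp at hτ
  | cons σ l ih =>
    rw [Ph_cons, testBit_ec]
    rw [List.nodup_cons] at hd
    by_cases h : σ = τ
    · subst h
      rw [Ph_none]
      · simp only [and_self, decide_true, if_true]
        rw [xv_zv]; simp [hk]
      · intro ρ hρ
        rw [testBit_ec]
        simp only [true_and, decide_eq_false_iff_not]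
        rintro rfl
        exact hd.1 hρ
    · rw [ih hd.2 (by simpa [Ne.symm h] using hτ)]
      simp [h]

lemma Ph_other {c m k : ℕ} {l : List (List ℕ)} (hne : m ≠ c) (τ : List ℕ) :
    Ph c k (ec m τ) l = zv (k+1) := by
  apply Ph_none
  intro σ _
  rw [testBit_ec]
  simp [Ne.symm hne]

lemma Ph_one {c k : ℕ} {l : List (List ℕ)} : Ph c k 1 l = zv (k+1) :=
  Ph_none (fun σ _ => testBit_one_bi c σ)

/-- the map `v ↦ Ph (top component of v)` -/
def Ps (ok : List ℕ → Bool) (c n : ℕ) (v : V) : V := Ph c (n+1) v.headI (Tn ok n)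

lemma headI_xv {a b : V} (ha : a ≠ []) (hb : b ≠ []) :
    (xv a b).headI = a.headI ^^^ b.headI := by
  cases a with
  | nil => exact absurd rfl ha
  | cons x a => cases b with
    | nil => exact absurd rfl hb
    | cons y b => simp

lemma Tn_len' {n : ℕ} : ∀ τ ∈ Tn ok n, τ.length + 1 = n + 1 := fun τ h => by rw [Tn_length h]

lemma Ps_length (c n : ℕ) (v : V) : (Ps ok c n v).length = n + 2 := by
  unfold Ps; rw [Ph_length Tn_len']

lemma Ps_xv {c n : ℕ} {a b : V} (ha : a ≠ []) (hb : b ≠ []) :
    Ps ok c n (xv a b) = xv (Ps ok c n a) (Ps ok c n b) := by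
  unfold Ps
  rw [headI_xv ha hb, Ph_xor Tn_len']

lemma Ps_ev {c n : ℕ} {τ : List ℕ} (h : τ ∈ Tn ok n) : Ps ok c n (ev c τ) = eh c τ := by
  unfold Ps
  rw [ev_head, Ph_single (Tn_nodup n) h (Tn_len' τ h)]

lemma Ps_ev_ne {c m n : ℕ} (hne : m ≠ c) {τ : List ℕ} : Ps ok c n (ev m τ) = zv (n+2) := by
  unfold Ps
  rw [ev_head, Ph_other hne]

lemma Ps_uv {c n : ℕ} : Ps ok c n (uv (n+1)) = zv (n+2) := by
  unfold Ps
  have : (uv (n+1)).headI = 1 := by simp [uv, List.replicate_succ]
  rw [this, Ph_one]

/-- the system of combinations with parity -/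
def Lq (ok : List ℕ → Bool) (c n : ℕ) : List V := sp [zv (n+2)] ((Tn ok n).map (eh c))

lemma Lq_grp (c n : ℕ) : Grp (n+2) (Lq ok c n) := by
  apply grp_sp (grp_zero _)
  intro y hy
  rw [List.mem_map] at hy
  obtain ⟨τ, hτ, rfl⟩ := hy
  simp [Tn_length hτ]

lemma eh_mem_Lq {c n : ℕ} {τ : List ℕ} (h : τ ∈ Tn ok n) : eh c τ ∈ Lq ok c n := by
  apply gen_mem_sp (grp_zero _)
  · intro y hy
    rw [List.mem_map] at hy
    obtain ⟨τ, hτ, rfl⟩ := hy
    simp [Tn_length hτ]
  · exact List.mem_map_of_mem h

/-- each element of the system is recovered from its top component -/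
lemma Lq_recover {c n : ℕ} {q : V} (hq : q ∈ Lq ok c n) : Ps ok c n q.tail = q := by
  have key : ∀ q ∈ Lq ok c n, (q.length = n+2 ∧ Ps ok c n q.tail = q) := by
    apply sp_induction
    · intro v hv
      simp only [List.mem_singleton] at hv
      subst hv
      refine ⟨by simp, ?_⟩
      unfold Ps
      apply Ph_none
      intro τ _
      have : (zv (n+2)).tail.headI = 0 := by simp [zv, List.replicate_succ]
      rw [this]; simp
    · intro y hy v hv
      rw [List.mem_map] at hy
      obtain ⟨τ, hτ, rfl⟩ := hy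
      refine ⟨by simp [hv.1, Tn_length hτ], ?_⟩
      rw [xv_tail, Ps_xv, hv.2]
      · have : (eh c τ).tail = ev c τ := rfl
        rw [this, Ps_ev hτ]
      · exact ev_ne_nil c τ
      · intro h0
        have := congrArg List.length h0
        simp [hv.1] at this
  exact (key q hq).2

/-- projection forgetting the top component -/
def pj (q : V) : V := q.headI :: q.tail.tail

lemma pj_xv {a b : V} (ha : a ≠ []) (hb : b ≠ []) : pj (xv a b) = xv (pj a) (pj b) := by
  unfold pj
  rw [headI_xv ha hb, xv_tail, xv_tail]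
  simp

lemma pj_mem {c n : ℕ} {q : V} (hq : q ∈ Lq ok c (n+1)) : pj q ∈ Lq ok c n := by
  have key : ∀ q ∈ Lq ok c (n+1), (q.length = n+3 ∧ pj q ∈ Lq ok c n) := by
    apply sp_induction
    · intro v hv
      simp only [List.mem_singleton] at hv
      subst hv
      refine ⟨by simp, ?_⟩
      have : pj (zv (n+1+2)) = zv (n+2) := by simp [pj, zv, List.replicate_succ]
      rw [this]
      exact (Lq_grp c n).zero
    · intro y hy v hv
      rw [List.mem_map] at hy
      obtain ⟨τ, hτ, rfl⟩ := hy
      refine ⟨by simp [hv.1, Tn_length hτ], ?_⟩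
      rw [pj_xv]
      · apply (Lq_grp c n).add _ _ _ hv.2
        obtain ⟨a, σ, -, rfl, hσ, -⟩ := mem_Tn_succ.1 hτ
        have : pj (eh c (a::σ)) = eh c σ := rfl
        rw [this]
        exact eh_mem_Lq hσ
      · simp [eh]
      · intro h0
        have := congrArg List.length h0
        simp [hv.1] at this
  exact (key q hq).2

/-- a selected node of the projection extends to a selected node -/
lemma Lq_extend {c n : ℕ} {q : V} (hq : q ∈ Lq ok c (n+1)) {σ : List ℕ}
    (hb : (pj q).tail.headI.testBit (bi c σ) = true) :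
    ∃ τ ∈ Tn ok (n+1), τ.tail = σ ∧ q.tail.headI.testBit (bi c τ) = true := by
  by_contra hcon
  push Not at hcon
  have hr := Lq_recover hq
  set h := q.tail.headI with hh
  have key : ∀ l : List (List ℕ), (∀ τ ∈ l, τ.length = n + 1) →
      (∀ τ ∈ l, τ.tail = σ → ¬ h.testBit (bi c τ) = true) →
      (pj (Ph c (n+2) h l)).tail.headI.testBit (bi c σ) = false := by
    intro l hl hno
    induction l with
    | nil =>
      have : (pj (Ph c (n+2) h [])).tail.headI = 0 := by simp [pj, zv, List.replicate_succ]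
      rw [this]; simp
    | cons τ l ih =>
      have hl' : ∀ τ ∈ l, τ.length = n + 1 := fun ρ hρ => hl ρ (by simp [hρ])
      have ih' := ih hl' (fun ρ hρ => hno ρ (by simp [hρ]))
      have hτl := hl τ (by simp)
      have hlen := Ph_length (c := c) (k := n+2) (h := h) (l := l) (fun ρ hρ => by rw [hl' ρ hρ])
      rw [Ph_cons]
      split_ifs with hbit
      · have hne : τ.tail ≠ σ := fun e => hno τ (by simp) e hbit
        rw [pj_xv (by simp [eh]) (by intro h0; rw [h0] at hlen; simp at hlen), xv_tail, headI_xv,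
          Nat.testBit_xor, ih']
        · have : (pj (eh c τ)).tail.headI = ec c τ.tail := by
            cases τ with
            | nil => simp at hτl
            | cons a τ => simp [pj, eh, ev, ev_head]
          rw [this, testBit_ec]
          simp [Ne.symm hne]
        · intro h0
          have := congrArg List.length h0
          simp [pj, hτl] at this
        · intro h0
          have := congrArg List.length h0
          simp [pj, hlen] at this
      · exact ih'
  have := key (Tn ok (n+1)) (fun τ hτ => Tn_length hτ) hcon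
  unfold Ps at hr
  rw [hr] at this
  rw [this] at hb
  exact absurd hb (by simp)

/-- a nonzero element selects some node -/
lemma Lq_start {c n : ℕ} {q : V} (hq : q ∈ Lq ok c n) (hne : q ≠ zv (n+2)) :
    ∃ τ ∈ Tn ok n, q.tail.headI.testBit (bi c τ) = true := by
  by_contra hcon
  push Not at hcon
  apply hne
  rw [← Lq_recover hq]
  exact Ph_none (fun τ hτ => by simpa using hcon τ hτ)

/-- evaluation of a combination at the position `x` -/
def sx (q x : V) : V := if q.headI = 0 then q.tail else xv x q.tail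

lemma Lq_parity {c n : ℕ} {q : V} (hq : q ∈ Lq ok c n) : q.headI = 0 ∨ q.headI = 1 := by
  have key : ∀ q ∈ Lq ok c n, (q.length = n+2 ∧ (q.headI = 0 ∨ q.headI = 1)) := by
    apply sp_induction
    · intro v hv
      simp only [List.mem_singleton] at hv
      subst hv
      refine ⟨by simp, ?_⟩
      left; simp [zv, List.replicate_succ]
    · intro y hy v hv
      rw [List.mem_map] at hy
      obtain ⟨τ, hτ, rfl⟩ := hy
      refine ⟨by simp [hv.1, Tn_length hτ], ?_⟩
      rw [headI_xv (by simp [eh]) (by intro h0; have := congrArg List.length h0; simp [hv.1] at this)]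
      have : (eh c τ).headI = 1 := rfl
      rw [this]
      rcases hv.2 with h | h <;> rw [h] <;> simp
  exact (key q hq).2

/-- certificates for elements of a span -/
lemma cert_exists {c n : ℕ} {K0 : List V} (hK0 : ∀ v ∈ K0, v.length = n+1) {x : V}
    (hx : x.length = n+1) {v : V} (hv : v ∈ sp K0 ((Tn ok n).map (fun τ => xv x (ev c τ)))) :
    ∃ q ∈ Lq ok c n, xv v (sx q x) ∈ K0 := by
  have key : ∀ (l : List (List ℕ)) (K L : List V), (∀ τ ∈ l, τ.length = n) →
      (∀ q ∈ L, q.length = n+2 ∧ (q.headI = 0 ∨ q.headI = 1)) →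
      (∀ k ∈ K, k.length = n+1 ∧ ∃ q ∈ L, xv k (sx q x) ∈ K0) →
      ∀ v ∈ sp K (l.map (fun τ => xv x (ev c τ))), ∃ q ∈ sp L (l.map (eh c)),
        xv v (sx q x) ∈ K0 := by
    intro l
    induction l with
    | nil => intro K L _ _ hK v hv; exact (hK v hv).2
    | cons τ l ih =>
      intro K L hl hL hK v hv
      have hτ := hl τ (by simp)
      simp only [List.map_cons, sp_cons] at hv ⊢
      refine ih _ _ (fun σ hσ => hl σ (by simp [hσ])) ?_ ?_ v hv
      · intro q hq
        simp only [List.mem_append, List.mem_map] at hq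
        rcases hq with hq | ⟨q, hq, rfl⟩
        · exact hL q hq
        · obtain ⟨h1, h2⟩ := hL q hq
          refine ⟨by simp [h1, hτ], ?_⟩
          rw [headI_xv (by simp [eh]) (by intro h0; rw [h0] at h1; simp at h1)]
          have : (eh c τ).headI = 1 := rfl
          rw [this]
          rcases h2 with h | h <;> rw [h] <;> simp
      · intro k hk
        simp only [List.mem_append, List.mem_map] at hk
        rcases hk with hk | ⟨a, ha, rfl⟩
        · obtain ⟨h1, q, hq, h2⟩ := hK k hk
          exact ⟨h1, q, by simp [hq], h2⟩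
        · obtain ⟨h1, q, hq, h2⟩ := hK a ha
          refine ⟨by simp [h1, hτ, hx], xv (eh c τ) q, by simp; right; exact ⟨q, hq, rfl⟩, ?_⟩
          obtain ⟨hql, hqp⟩ := hL q hq
          have hqne : q ≠ [] := by intro h0; rw [h0] at hql; simp at hql
          have e1 : (xv (eh c τ) q).tail = xv (ev c τ) q.tail := by rw [xv_tail]; rfl
          have e2 : (xv (eh c τ) q).headI = 1 ^^^ q.headI := by
            rw [headI_xv (by simp [eh]) hqne]; rfl
          have hlt : q.tail.length = n+1 := by simp [hql]
          have hle : (ev c τ).length = n+1 := by simp [hτ]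
          unfold sx at h2 ⊢
          rw [e1, e2]
          rcases hqp with h | h
          · rw [h] at h2 ⊢
            simp only [if_true] at h2
            rw [if_neg (by simp)]
            have : xv (xv (xv x (ev c τ)) a) (xv x (xv (ev c τ) q.tail)) = xv a q.tail := by
              rw [← xv_assoc x (ev c τ) q.tail, xv_comm (xv x (ev c τ)) a, xv_assoc a,
                xv_cancel]
              simp [hx, hle, hlt]
            rw [this]; exact h2
          · rw [h] at h2 ⊢
            rw [if_neg (by simp)] at h2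
            rw [if_pos (by simp)]
            have : xv (xv (xv x (ev c τ)) a) (xv (ev c τ) q.tail) = xv a (xv x q.tail) := by
              rw [xv_comm x (ev c τ), xv_assoc (ev c τ) x a, xv_comm (ev c τ) (xv x a), xv_assoc (xv x a),
                xv_cancel (by simp [hle, hlt]), xv_comm x a, xv_assoc]
            rw [this]; exact h2
  refine key (Tn ok n) K0 [zv (n+2)] (fun τ hτ => Tn_length hτ) ?_ ?_ v hv
  · intro q hq
    simp only [List.mem_singleton] at hq
    subst hq
    refine ⟨by simp, Or.inl (by simp [zv, List.replicate_succ])⟩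
  · intro k hk
    refine ⟨hK0 k hk, zv (n+2), by simp, ?_⟩
    have e1 : sx (zv (n+2)) x = zv (n+1) := by
      simp [sx, zv, List.replicate_succ]
    rw [e1, xv_zv (by rw [hK0 k hk])]
    exact hk

end Pool.Agent.W2helper50
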