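import Mathlib

set_option autoImplicit false

/-! Vectors (lists of naturals under pointwise exclusive or). -/

namespace Pool.Agent.W2helper50

abbrev V := List ℕ

/-- pointwise exclusive or -/
def xv (a b : V) : V := List.zipWith (fun x y => x ^^^ y) a b

def zv (n : ℕ) : V := List.replicate n 0

def uv (n : ℕ) : V := List.replicate n 1

/-- reversed list of the first values -/
def lst (w : ℕ → ℕ) : ℕ → V
  | 0 => []
  | n+1 => w n :: lst w n

@[simp] lemma lst_zero (w : ℕ → ℕ) : lst w 0 = [] := rfl
@[simp] lemma lst_succ (w : ℕ → ℕ) (n : ℕ) : lst w (n+1) = w n :: lst w n := rfl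

@[simp] lemma lst_length (w : ℕ → ℕ) (n : ℕ) : (lst w n).length = n := by
  induction n with
  | zero => rfl
  | succ n ih => simp [ih]

lemma lst_congr {w w' : ℕ → ℕ} {n : ℕ} (h : ∀ j < n, w j = w' j) : lst w n = lst w' n := by
  induction n with
  | zero => rfl
  | succ n ih => simp [h n (Nat.lt_succ_self n), ih (fun j hj => h j (Nat.lt_succ_of_lt hj))]

lemma lst_drop (w : ℕ → ℕ) (n d : ℕ) : (lst w (n+d)).drop d = lst w n := by
  induction d with
  | zero => simp
  | succ d ih => simpa [← Nat.add_assoc] using ih

lemma lst_xv (w w' : ℕ → ℕ) (n : ℕ) : xv (lst w n) (lst w' n) = lst (fun j => w j ^^^ w' j) n := by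
  induction n with
  | zero => rfl
  | succ n ih => simp [xv] at ih ⊢; exact ih

@[simp] lemma lst_const_zero (n : ℕ) : lst (fun _ => 0) n = zv n := by
  induction n with
  | zero => rfl
  | succ n ih => simp [ih, zv, List.replicate_succ]

@[simp] lemma lst_const_one (n : ℕ) : lst (fun _ => 1) n = uv n := by
  induction n with
  | zero => rfl
  | succ n ih => simp [ih, uv, List.replicate_succ]

@[simp] lemma xv_length (a b : V) : (xv a b).length = min a.length b.length := by simp [xv]
@[simp] lemma zv_length (n : ℕ) : (zv n).length = n := by simp [zv]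
@[simp] lemma uv_length (n : ℕ) : (uv n).length = n := by simp [uv]

@[simp] lemma xv_nil_left (b : V) : xv [] b = [] := by simp [xv]
@[simp] lemma xv_nil_right (b : V) : xv b [] = [] := by simp [xv]
@[simp] lemma xv_cons (x y : ℕ) (a b : V) : xv (x::a) (y::b) = (x ^^^ y) :: xv a b := by simp [xv]

lemma xv_comm (a b : V) : xv a b = xv b a := by
  induction a generalizing b with
  | nil => simp
  | cons x a ih => cases b with
    | nil => simp
    | cons y b => simp [ih b, Nat.xor_comm]

lemma xv_assoc (a b c : V) : xv (xv a b) c = xv a (xv b c) := by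
  induction a generalizing b c with
  | nil => simp
  | cons x a ih =>
    cases b with
    | nil => simp
    | cons y b => cases c with
      | nil => simp
      | cons z c => simp [ih b c, Nat.xor_assoc]

lemma xv_left_comm (a b c : V) : xv a (xv b c) = xv b (xv a c) := by
  rw [← xv_assoc, xv_comm a b, xv_assoc]

@[simp] lemma xv_self (a : V) : xv a a = zv a.length := by
  induction a with
  | nil => rfl
  | cons x a ih => simp [ih, zv, List.replicate_succ]

lemma zv_xv {n : ℕ} {b : V} (h : b.length ≤ n) : xv (zv n) b = b := by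
  induction b generalizing n with
  | nil => simp
  | cons y b ih =>
    obtain ⟨m, rfl⟩ : ∃ m, n = m+1 := ⟨n-1, by simp at h; omega⟩
    have := ih (n := m) (by simp at h; omega)
    simp [zv, List.replicate_succ] at this ⊢
    exact this

lemma xv_zv {n : ℕ} {b : V} (h : b.length ≤ n) : xv b (zv n) = b := by
  rw [xv_comm, zv_xv h]

lemma xv_cancel {a b : V} (h : b.length ≤ a.length) : xv a (xv a b) = b := by
  rw [← xv_assoc, xv_self, zv_xv h]

lemma xv_cancel' {a b : V} (h : a.length ≤ b.length) : xv (xv a b) b = a := by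
  rw [xv_assoc, xv_self, xv_zv h]

lemma xv_drop (a b : V) (d : ℕ) : (xv a b).drop d = xv (a.drop d) (b.drop d) := by
  simp [xv, List.drop_zipWith]

lemma xv_tail (a b : V) : (xv a b).tail = xv a.tail b.tail := by
  cases a with
  | nil => simp
  | cons x a => cases b with
    | nil => simp
    | cons y b => simp

lemma zv_drop (n d : ℕ) : (zv n).drop d = zv (n-d) := by simp [zv]
lemma uv_drop (n d : ℕ) : (uv n).drop d = uv (n-d) := by simp [uv]

lemma uv_ne_zv {n : ℕ} (h : 0 < n) : uv n ≠ zv n := by
  obtain ⟨m, rfl⟩ : ∃ m, n = m+1 := ⟨n-1, by omega⟩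
  simp [uv, zv, List.replicate_succ]

/-! codes of nodes -/

def ec (m : ℕ) (τ : List ℕ) : ℕ := 2 ^ (Nat.pair m (Encodable.encode τ) + 1)

/-- vector of the node `τ` for opponent `m` -/
def ev (m : ℕ) : List ℕ → V
  | [] => [ec m []]
  | a::τ => ec m (a::τ) :: ev m τ

@[simp] lemma ev_length (m : ℕ) (τ : List ℕ) : (ev m τ).length = τ.length + 1 := by
  induction τ with
  | nil => rfl
  | cons a τ ih => simp [ev, ih]

lemma ev_ne_nil (m : ℕ) (τ : List ℕ) : ev m τ ≠ [] := by cases τ <;> simp [ev]

lemma ev_head (m : ℕ) (τ : List ℕ) : (ev m τ).headI = ec m τ := by cases τ <;> rfl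

lemma ev_tail_cons (m a : ℕ) (τ : List ℕ) : (ev m (a::τ)).tail = ev m τ := rfl

lemma ev_drop (m : ℕ) (τ : List ℕ) (d : ℕ) (h : d ≤ τ.length) :
    (ev m τ).drop d = ev m (τ.drop d) := by
  induction d generalizing τ with
  | zero => simp
  | succ d ih =>
    cases τ with
    | nil => simp at h
    | cons a τ =>
      simp only [ev, List.drop_succ_cons]
      exact ih τ (by simpa using h)

lemma ev_lst (m : ℕ) (f : ℕ → ℕ) (n : ℕ) :
    ev m (lst f n) = lst (fun j => ec m (lst f j)) (n+1) := by
  induction n with
  | zero => rfl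
  | succ n ih =>
    rw [lst_succ (fun j => ec m (lst f j)) (n+1), ← ih]
    rfl

lemma ec_testBit (m : ℕ) (τ : List ℕ) (i : ℕ) :
    (ec m τ).testBit i = decide (i = Nat.pair m (Encodable.encode τ) + 1) := by
  unfold ec
  rw [Nat.testBit_two_pow]
  simp [eq_comm]

/-! spans -/

/-- add generators to a list closed under `xv` -/
def sp (K : List V) (gens : List V) : List V := gens.foldl (fun K y => K ++ K.map (xv y)) K

@[simp] lemma sp_nil (K : List V) : sp K [] = K := rfl
lemma sp_cons (K : List V) (y : V) (gens : List V) : sp K (y::gens) = sp (K ++ K.map (xv y)) gens := rfl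

lemma subset_sp (K gens : List V) {v : V} (h : v ∈ K) : v ∈ sp K gens := by
  induction gens generalizing K with
  | nil => exact h
  | cons y gens ih => rw [sp_cons]; exact ih _ (by simp [h])

/-- the list is a subgroup of the group of vectors of length `k` -/
structure Grp (k : ℕ) (K : List V) : Prop where
  zero : zv k ∈ K
  len : ∀ v ∈ K, v.length = k
  add : ∀ v ∈ K, ∀ v' ∈ K, xv v v' ∈ K

lemma grp_zero (k : ℕ) : Grp k [zv k] := by
  refine ⟨by simp, by simp, ?_⟩
  intro v hv v' hv'
  simp only [List.mem_singleton] at hv hv'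
  subst hv; subst hv'
  simp

lemma grp_step {k : ℕ} {K : List V} (h : Grp k K) {y : V} (hy : y.length = k) :
    Grp k (K ++ K.map (xv y)) := by
  refine ⟨by simp [h.zero], ?_, ?_⟩
  · intro v hv
    simp only [List.mem_append, List.mem_map] at hv
    rcases hv with hv | ⟨v', hv', rfl⟩
    · exact h.len v hv
    · simp [h.len v' hv', hy]
  · intro v hv v' hv'
    simp only [List.mem_append, List.mem_map] at hv hv' ⊢
    rcases hv with hv | ⟨a, ha, rfl⟩ <;> rcases hv' with hv' | ⟨b, hb, rfl⟩
    · exact Or.inl (h.add _ hv _ hv')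
    · exact Or.inr ⟨xv v b, h.add _ hv _ hb, by rw [xv_left_comm]⟩
    · exact Or.inr ⟨xv a v', h.add _ ha _ hv', by rw [xv_assoc]⟩
    · left
      have e : xv (xv y a) (xv y b) = xv a b := by
        rw [xv_assoc, xv_left_comm a y b, ← xv_assoc y y, xv_self, zv_xv]
        simp [h.len a ha, h.len b hb, hy]
      rw [e]; exact h.add _ ha _ hb

lemma grp_sp {k : ℕ} {K gens : List V} (h : Grp k K) (hg : ∀ y ∈ gens, y.length = k) :
    Grp k (sp K gens) := by
  induction gens generalizing K with
  | nil => exact h
  | cons y gens ih =>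
    rw [sp_cons]
    exact ih (grp_step h (hg y (by simp))) (fun y' hy' => hg y' (by simp [hy']))

lemma gen_mem_sp {k : ℕ} {K gens : List V} (h : Grp k K) (hg : ∀ y ∈ gens, y.length = k)
    {y : V} (hy : y ∈ gens) : y ∈ sp K gens := by
  induction gens generalizing K with
  | nil => simp at hy
  | cons y' gens ih =>
    rw [sp_cons]
    rcases List.mem_cons.1 hy with rfl | hy
    · apply subset_sp
      simp only [List.mem_append, List.mem_map]
      right
      exact ⟨zv k, h.zero, xv_zv (by rw [hg y (by simp)])⟩
    · exact ih (grp_step h (hg y' (by simp))) (fun z hz => hg z (by simp [hz])) hy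

/-- elimination: a property closed under adding generators -/
lemma sp_induction {K gens : List V} {P : V → Prop} (h0 : ∀ v ∈ K, P v)
    (hs : ∀ y ∈ gens, ∀ v, P v → P (xv y v)) : ∀ v ∈ sp K gens, P v := by
  induction gens generalizing K with
  | nil => exact h0
  | cons y gens ih =>
    rw [sp_cons]
    apply ih
    · intro v hv
      simp only [List.mem_append, List.mem_map] at hv
      rcases hv with hv | ⟨a, ha, rfl⟩
      · exact h0 v hv
      · exact hs y (by simp) a (h0 a ha)
    · intro z hz; exact hs z (by simp [hz])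

end Pool.Agent.W2helper50
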